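import Pool.Agent.Lib.MP_c27bde_al.GF.Spec

/-!
MP_c27bde_al, GF, module CJ (helper25): conjugation of marked elements by an order isomorphism.
-/

set_option autoImplicit false

namespace FPT.GF.CJM

open Set FPT FPT.GF

theorem conj_app (h g : Hm) (w : ℝ) : (h * g * h⁻¹) (h w) = h (g w) := by
  have e : h⁻¹ (h w) = w := RelIso.inv_apply_self h w
  show h (g (h⁻¹ (h w))) = h (g w)
  rw [e]

theorem conj_app' (h g : Hm) (w : ℝ) : (h * g * h⁻¹) w = h (g (h⁻¹ w)) := rfl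

theorem app_inv (h : Hm) (w : ℝ) : h (h⁻¹ w) = w := RelIso.apply_inv_self h w

theorem inv_app (h : Hm) (w : ℝ) : h⁻¹ (h w) = w := RelIso.inv_apply_self h w

theorem sp_conj (h g : Hm) : sp (h * g * h⁻¹) = h '' sp g := by
  ext w
  constructor
  · intro hw
    refine ⟨h⁻¹ w, ?_, app_inv h w⟩
    intro e
    apply hw
    rw [conj_app', e, app_inv]
  · rintro ⟨v, hv, rfl⟩
    intro e
    apply hv
    rw [conj_app] at e
    exact h.injective e

theorem ft (h : Hm) (p : ME) : Ft (cj h p) = h '' Ft p := by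
  unfold Ft
  show sp (h * p.1 * h⁻¹) \ (h '' p.2) = h '' (sp p.1 \ p.2)
  rw [sp_conj, Set.image_sdiff h.injective]

theorem cv_im (h : Hm) (S : Set ℝ) : cv (h '' S) = h '' cv S := by
  ext w
  constructor
  · rintro ⟨a, ⟨a', ha', rfl⟩, b, ⟨b', hb', rfl⟩, h1, h2⟩
    refine ⟨h⁻¹ w, ⟨a', ha', b', hb', ?_, ?_⟩, app_inv h w⟩
    · rw [← h.le_iff_le, app_inv]; exact h1
    · rw [← h.le_iff_le, app_inv]; exact h2
  · rintro ⟨v, ⟨a, ha, b, hb, h1, h2⟩, rfl⟩
    exact ⟨h a, ⟨a, ha, rfl⟩, h b, ⟨b, hb, rfl⟩, h.le_iff_le.2 h1, h.le_iff_le.2 h2⟩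

theorem nice (h : Hm) (p : ME) (N : Nice p) : Nice (cj h p) := by
  have hsp : sp (cj h p).1 = h '' sp p.1 := sp_conj h p.1
  refine ⟨?_, ?_, ?_, ?_, ?_, ?_, ?_⟩
  · rw [hsp]
    exact Set.image_mono N.sub
  · rintro w ⟨v, hv, rfl⟩ j hj
    rw [ft]
    refine ⟨(p.1 ^ j) v, N.png v hv j hj, ?_⟩
    show h ((p.1 ^ j) v) = ((h * p.1 * h⁻¹) ^ j) (h v)
    rw [conj_zpow, conj_app]
  · rw [hsp, ft, cv_im]
    exact Set.image_mono N.hul
  · rw [ft]
    exact N.ne.image _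
  · obtain ⟨n, C, hC, e⟩ := N.fin
    refine ⟨n, fun i => h '' C i, fun i => ?_, ?_⟩
    · haveI := hC i
      exact Set.ordConnected_image h
    · rw [ft, e, Set.image_iUnion]
  · intro u v huv hu hm
    have e1 : p.1 (h⁻¹ u) = h⁻¹ u := by
      have : h (p.1 (h⁻¹ u)) = u := hu
      rw [← h.injective.eq_iff, this, app_inv]
    obtain ⟨v', h1, h2⟩ := N.adR (h⁻¹ u) (h⁻¹ v) ((h⁻¹).lt_iff_lt.2 huv) e1 (by
      intro w hw1 hw2 e
      refine hm (h w) ?_ ?_ ?_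
      · rw [← app_inv h u]; exact h.lt_iff_lt.2 hw1
      · rw [← app_inv h v]; exact h.lt_iff_lt.2 hw2
      · show (h * p.1 * h⁻¹) (h w) = h w
        rw [conj_app, e])
    refine ⟨h v', ?_, ?_⟩
    · rw [← app_inv h u]; exact h.lt_iff_lt.2 h1
    · intro w hw1 hw2
      rw [ft]
      refine ⟨h⁻¹ w, h2 _ ((h⁻¹).lt_iff_lt.2 hw1) ?_, app_inv h w⟩
      rw [← inv_app h v']; exact (h⁻¹).lt_iff_lt.2 hw2
  · intro u v huv hu hm
    have e1 : p.1 (h⁻¹ v) = h⁻¹ v := by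
      have : h (p.1 (h⁻¹ v)) = v := hu
      rw [← h.injective.eq_iff, this, app_inv]
    obtain ⟨v', h1, h2⟩ := N.adL (h⁻¹ u) (h⁻¹ v) ((h⁻¹).lt_iff_lt.2 huv) e1 (by
      intro w hw1 hw2 e
      refine hm (h w) ?_ ?_ ?_
      · rw [← app_inv h u]; exact h.lt_iff_lt.2 hw1
      · rw [← app_inv h v]; exact h.lt_iff_lt.2 hw2
      · show (h * p.1 * h⁻¹) (h w) = h w
        rw [conj_app, e])
    refine ⟨h v', ?_, ?_⟩
    · rw [← app_inv h v]; exact h.lt_iff_lt.2 h1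
    · intro w hw1 hw2
      rw [ft]
      refine ⟨h⁻¹ w, h2 _ ?_ ((h⁻¹).lt_iff_lt.2 hw2), app_inv h w⟩
      rw [← inv_app h v']; exact (h⁻¹).lt_iff_lt.2 hw1

theorem half (h : Hm) (A B : Set ℝ) (p : ME) (H : ∀ w ∈ B, w ∈ cv A → p.1 w ≠ w) :
    ∀ w ∈ h '' B, w ∈ cv (h '' A) → (cj h p).1 w ≠ w := by
  rintro w ⟨v, hv, rfl⟩ hw e
  rw [cv_im] at hw
  obtain ⟨v', hv', e'⟩ := hw
  have e2 : v' = v := h.injective e'
  rw [e2] at hv'
  apply H v hv hv'
  have e3 : h (p.1 v) = h v := by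
    rw [← conj_app]; exact e
  exact h.injective e3

theorem gpr (h : Hm) (p q : ME) (G : GPr p q) : GPr (cj h p) (cj h q) := by
  refine ⟨?_, ?_, ?_⟩
  · rw [ft, ft]
    exact (Set.disjoint_image_iff h.injective).2 G.dis
  · rw [ft, ft]
    exact half h _ _ p G.l
  · rw [ft, ft]
    exact half h _ _ q G.r

theorem comp (h k : Hm) (p : ME) : cj h (cj k p) = cj (h * k) p := by
  unfold cj
  refine Prod.ext ?_ ?_
  · show h * (k * p.1 * k⁻¹) * h⁻¹ = h * k * p.1 * (h * k)⁻¹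
    rw [mul_inv_rev]
    simp only [mul_assoc]
  · show h '' (k '' p.2) = (h * k : Hm) '' p.2
    rw [Set.image_image]
    rfl

theorem one (p : ME) : cj 1 p = p := by
  unfold cj
  refine Prod.ext ?_ ?_
  · show 1 * p.1 * 1⁻¹ = p.1
    simp
  · show (1 : Hm) '' p.2 = p.2
    ext w
    constructor
    · rintro ⟨v, hv, rfl⟩
      exact hv
    · intro hw
      exact ⟨w, hw, rfl⟩

theorem ins (h : Hm) (p q : ME) : Ins (cj h p) (cj h q) ↔ Ins p q := by
  unfold Ins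
  rw [ft]
  exact Set.image_subset_image_iff h.injective

theorem T_im (h : Hm) (A B : Set ℝ) (n : ℕ) : T (h '' A) (h '' B) n = h '' T A B n := by
  induction n with
  | zero => exact cv_im h B
  | succ n ih =>
    show cv ((if Even n then h '' A else h '' B) ∩ T (h '' A) (h '' B) n) =
      h '' cv ((if Even n then A else B) ∩ T A B n)
    rw [ih]
    by_cases e : Even n
    · rw [if_pos e, if_pos e, ← Set.image_inter h.injective, cv_im]
    · rw [if_neg e, if_neg e, ← Set.image_inter h.injective, cv_im]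

theorem lab (h : Hm) (c : ℕ) (p q : ME) : Lab c (cj h p) (cj h q) ↔ Lab c p q := by
  unfold Lab
  rw [ins, ft, ft, T_im, Set.image_eq_empty]

theorem good (h : Hm) (X : Set ME) (G : Good X) : Good (cj h '' X) := by
  refine ⟨G.fin.image _, ?_, ?_⟩
  · rintro p ⟨p', hp', rfl⟩
    exact nice h p' (G.nice p' hp')
  · rintro p ⟨p', hp', rfl⟩ q ⟨q', hq', rfl⟩ hne
    exact gpr h p' q' (G.pr p' hp' q' hq' (fun e => hne (by rw [e])))

theorem symm (p q : ME) (G : GPr p q) : GPr q p := ⟨G.dis.symm, G.r, G.l⟩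

/-- module CJ -/
theorem specCJ : SpecCJ := by
  refine ⟨ft, cv_im, nice, gpr, comp, one, ins, lab, good, symm⟩

end FPT.GF.CJM
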