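import Pool.Agent.Lib.MP_c27bde_al.GF.Spec

/-!
Module CO of the GF hive (MP_c27bde_al): every play is finite.
`Pre W Z`: `W` is obtained from `Z` by a move; the theorem says `Acc Pre X` for every good family `X`.
The proof follows the docstring of `SpecCO`: conjugation invariance, passing to subfamilies, and the
double induction on the bound of the cross labels and on the game.
-/

set_option autoImplicit false

namespace FPT.GF.COM

open Set FPT FPT.GF Relation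

/-- the labels between the two families are at most `c` -/
def Cross (c : ℕ) (Z Y : Set ME) : Prop := ∀ z ∈ Z, ∀ y ∈ Y, Lab c z y ∧ Lab c y z

theorem Cross.symm {c : ℕ} {Z Y : Set ME} (h : Cross c Z Y) : Cross c Y Z :=
  fun y hy z hz => ⟨(h z hz y hy).2, (h z hz y hy).1⟩

theorem Cross.succ (lb : SpecLB) {c : ℕ} {Z Y : Set ME} (h : Cross c Z Y) : Cross (c + 1) Z Y :=
  fun z hz y hy => ⟨lb.mono c z y (h z hz y hy).1, lb.mono c y z (h z hz y hy).2⟩

theorem nx_mono {X Y : Set ME} (h : X ⊆ Y) (x : ME) (M : ℕ) : nx X x M ⊆ nx Y x M := by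
  rintro r ⟨p, hp, hi, m, hm, rfl⟩
  exact ⟨p, h hp, hi, m, hm, rfl⟩

theorem mx_mono {X Y : Set ME} (h : X ⊆ Y) {x : ME} (hx : x ∈ X) (hm : Mx Y x) : Mx X x :=
  ⟨hx, fun p hp => hm.2 p (h hp)⟩

/-! ### Conjugation -/

theorem cj_cj_pow (cjh : SpecCJ) (h : Hm) (x p : ME) (m : ℤ) :
    cj h (cj (x.1 ^ m) p) = cj ((cj h x).1 ^ m) (cj h p) := by
  have e : h * x.1 ^ m = (cj h x).1 ^ m * h := by
    show h * x.1 ^ m = (h * x.1 * h⁻¹) ^ m * h
    rw [conj_zpow, inv_mul_cancel_right]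
  rw [cjh.comp, cjh.comp, e]

theorem im_im (cjh : SpecCJ) (h k : Hm) (hk : h * k = 1) (Z : Set ME) :
    cj h '' (cj k '' Z) = Z := by
  rw [← image_comp]
  have : cj h ∘ cj k = id := by
    funext p
    simp [cjh.comp, hk, cjh.one]
  rw [this, image_id]

theorem pre_cj (cjh : SpecCJ) (h : Hm) {W Z : Set ME} (hp : Pre W Z) :
    Pre (cj h '' W) (cj h '' Z) := by
  obtain ⟨x, hx, M, hW⟩ := hp
  refine ⟨cj h x, ⟨mem_image_of_mem _ hx.1, ?_⟩, M, ?_⟩
  · rintro _ ⟨p, hp, rfl⟩ hi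
    exact hx.2 p hp ((cjh.ins h p x).1 hi)
  · rintro _ ⟨r, hr, rfl⟩
    obtain ⟨p, hp, hi, m, hm, rfl⟩ := hW hr
    exact ⟨cj h p, mem_image_of_mem _ hp, (cjh.ins h x p).2 hi, m, hm, cj_cj_pow cjh h x p m⟩

theorem tg_cj (cjh : SpecCJ) (h : Hm) {W Z : Set ME} (hp : TransGen Pre W Z) :
    TransGen Pre (cj h '' W) (cj h '' Z) :=
  TransGen.lift (fun Z : Set ME => cj h '' Z) (fun _ _ hab => pre_cj cjh h hab) _ _ hp

theorem acc_cj (cjh : SpecCJ) (h : Hm) {Z : Set ME} (ha : Acc Pre Z) : Acc Pre (cj h '' Z) := by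
  induction ha with
  | intro Z _ ih =>
    refine Acc.intro _ fun W hW => ?_
    have h1 := pre_cj cjh h⁻¹ hW
    rw [im_im cjh _ _ (inv_mul_cancel h)] at h1
    have h2 := ih _ h1
    rwa [im_im cjh _ _ (mul_inv_cancel h)] at h2

theorem cross_cj (cjh : SpecCJ) (h : Hm) {c : ℕ} {Z Y : Set ME} (hc : Cross c Z Y) :
    Cross c (cj h '' Z) (cj h '' Y) := by
  rintro _ ⟨z, hz, rfl⟩ _ ⟨y, hy, rfl⟩
  exact ⟨(cjh.lab h c z y).2 (hc z hz y hy).1, (cjh.lab h c y z).2 (hc z hz y hy).2⟩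

/-! ### Subfamilies -/

theorem tg_pre_sub (cjh : SpecCJ) (oi : SpecOI) {W Z Z' : Set ME} (hZ : Good Z) (hs : Z' ⊆ Z)
    (hp : Pre W Z') : TransGen Pre W Z := by
  obtain ⟨x, hx, M, hW⟩ := hp
  obtain ⟨p, hp, hpx⟩ := oi.mx Z hZ x (hs hx.1)
  by_cases hpe : p = x
  · subst hpe
    exact TransGen.single ⟨p, hp, M, hW.trans (nx_mono hs p M)⟩
  · have hpx' : Ins p x := hpx.resolve_left hpe
    refine TransGen.trans (b := {q | q ∈ Z' ∧ (q = x ∨ Ins x q)}) (TransGen.single ?_)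
      (TransGen.single ?_)
    · refine ⟨x, ⟨⟨hx.1, Or.inl rfl⟩, fun q hq => hx.2 q hq.1⟩, M, ?_⟩
      intro r hr
      obtain ⟨q, hq, hi, m, hm, rfl⟩ := hW hr
      exact ⟨q, ⟨hq, Or.inr hi⟩, hi, m, hm, rfl⟩
    · refine ⟨p, hp, 0, ?_⟩
      rintro q ⟨hq, hqx⟩
      have hi : Ins p q := by
        rcases hqx with rfl | hqx
        · exact hpx'
        · exact oi.trans Z hZ p hp.1 x (hs hx.1) q (hs hq) hpx' hqx
      exact ⟨q, hs hq, hi, 0, by simp, by simp [cjh.one]⟩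

theorem tg_sub (cjh : SpecCJ) (oi : SpecOI) {W Z Z' : Set ME} (hZ : Good Z) (hs : Z' ⊆ Z)
    (hp : TransGen Pre W Z') : TransGen Pre W Z := by
  cases hp with
  | single h => exact tg_pre_sub cjh oi hZ hs h
  | tail h1 h2 => exact h1.trans (tg_pre_sub cjh oi hZ hs h2)

theorem acc_of_tg {W : Set ME} (h : Acc (TransGen Pre) W) : Acc Pre W := by
  induction h with
  | intro W _ ih => exact Acc.intro _ fun V hV => ih V (TransGen.single hV)

theorem acc_sub (cjh : SpecCJ) (oi : SpecOI) {Z Z' : Set ME} (hZ : Good Z) (hs : Z' ⊆ Z)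
    (ha : Acc Pre Z) : Acc Pre Z' := by
  have h1 : Acc (TransGen Pre) Z := ha.transGen
  exact Acc.intro _ fun W hW => acc_of_tg (h1.inv (tg_pre_sub cjh oi hZ hs hW))

/-- it suffices to treat the full moves -/
theorem acc_of_nx (cjh : SpecCJ) (oi : SpecOI) {Z : Set ME} (hZ : Good Z)
    (h : ∀ x, Mx Z x → ∀ M : ℕ, Acc Pre (nx Z x M)) : Acc Pre Z := by
  refine Acc.intro _ fun W hW => ?_
  obtain ⟨x, hx, M, hWs⟩ := hW
  exact acc_sub cjh oi (oi.nxg Z hZ x hx.1 M) hWs (h x hx M)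

/-! ### The copies -/

/-- the part of `F` inside `x` -/
def ins (x : ME) (F : Set ME) : Set ME := {p | p ∈ F ∧ Ins x p}

theorem ins_sub (x : ME) (F : Set ME) : ins x F ⊆ F := fun _ h => h.1

theorem cross_same (cjh : SpecCJ) {c : ℕ} {F G : Set ME} (h : Cross c F G) (x : ME) (m : ℤ) :
    Cross c (cj (x.1 ^ m) '' ins x F) (cj (x.1 ^ m) '' ins x G) :=
  cross_cj cjh _ fun z hz y hy => h z hz.1 y hy.1

/-- copies with different exponents: the labels go down -/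
theorem cross_diff (lb : SpecLB) {c : ℕ} {F G : Set ME} {x : ME} (hx : Nice x)
    (hF : ∀ p ∈ F, Nice p) (hG : ∀ p ∈ G, Nice p) (hxF : ∀ p ∈ F, Lab (c + 1) x p)
    (hxG : ∀ p ∈ G, Lab (c + 1) x p) {m m' : ℤ} (hm : m ≠ m') :
    Cross c (cj (x.1 ^ m) '' ins x F) (cj (x.1 ^ m') '' ins x G) := by
  rintro _ ⟨p, hp, rfl⟩ _ ⟨q, hq, rfl⟩
  exact ⟨lb.lab1 x p q hx (hF p hp.1) (hG q hq.1) hp.2 hq.2 m m' hm c (hxF p hp.1),
    lb.lab1 x q p hx (hG q hq.1) (hF p hp.1) hq.2 hp.2 m' m hm.symm c (hxG q hq.1)⟩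

/-- copies with different exponents: only one of the two families needs a bound -/
theorem cross_diff' (lb : SpecLB) {c : ℕ} {F G : Set ME} {x : ME} (hx : Nice x)
    (hF : ∀ p ∈ F, Nice p) (hG : ∀ p ∈ G, Nice p) (hxF : ∀ p ∈ F, Lab (c + 1) x p)
    {m m' : ℤ} (hm : m ≠ m') :
    Cross (c + 1) (cj (x.1 ^ m) '' ins x F) (cj (x.1 ^ m') '' ins x G) := by
  rintro _ ⟨p, hp, rfl⟩ _ ⟨q, hq, rfl⟩
  exact ⟨lb.mono _ _ _
      (lb.lab1 x p q hx (hF p hp.1) (hG q hq.1) hp.2 hq.2 m m' hm c (hxF p hp.1)),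
    lb.lab2 x q p hx (hG q hq.1) (hF p hp.1) hq.2 hp.2 m' m hm.symm (c + 1) (hxF p hp.1)⟩

/-- the exponents of a move -/
abbrev Ex (M : ℕ) : Type := {m : ℤ // |m| ≤ M}

instance (M : ℕ) : Finite (Ex M) := by
  have h : {m : ℤ | |m| ≤ M} ⊆ Icc (-(M : ℤ)) M := fun m hm => abs_le.1 hm
  exact (Set.finite_Icc _ _).subset h

theorem nx_eq (X : Set ME) (x : ME) (M : ℕ) :
    nx X x M = ⋃ m : Ex M, cj (x.1 ^ m.1) '' ins x X := by
  ext r
  simp only [mem_iUnion]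
  constructor
  · rintro ⟨p, hp, hi, m, hm, rfl⟩
    exact ⟨⟨m, hm⟩, p, ⟨hp, hi⟩, rfl⟩
  · rintro ⟨m, p, hp, rfl⟩
    exact ⟨p, hp.1, hp.2, m.1, m.2, rfl⟩

theorem ins_union (x : ME) (F G : Set ME) : ins x (F ∪ G) = ins x F ∪ ins x G := by
  ext p
  constructor
  · rintro ⟨h | h, hi⟩
    · exact Or.inl ⟨h, hi⟩
    · exact Or.inr ⟨h, hi⟩
  · rintro (h | h)
    · exact ⟨Or.inl h.1, h.2⟩
    · exact ⟨Or.inr h.1, h.2⟩

theorem nx_union (X Y : Set ME) (x : ME) (M : ℕ) : nx (X ∪ Y) x M = nx X x M ∪ nx Y x M := by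
  rw [nx_eq, nx_eq, nx_eq, ← iUnion_union_distrib]
  exact iUnion_congr fun m => by rw [ins_union, image_union]

theorem nx_iUnion {ι : Type} (F : ι → Set ME) (x : ME) (M : ℕ) :
    nx (⋃ i, F i) x M = ⋃ k : ι × Ex M, cj (x.1 ^ k.2.1) '' ins x (F k.1) := by
  ext r
  simp only [mem_iUnion]
  constructor
  · rintro ⟨p, hp, hi, m, hm, rfl⟩
    obtain ⟨i, hi'⟩ := mem_iUnion.1 hp
    exact ⟨(i, ⟨m, hm⟩), p, ⟨hi', hi⟩, rfl⟩
  · rintro ⟨k, p, hp, rfl⟩
    exact ⟨p, mem_iUnion.2 ⟨k.1, hp.1⟩, hp.2, k.2.1, k.2.2, rfl⟩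

/-! ### The double induction -/

/-- the statement `S(c)` -/
def SS (c : ℕ) : Prop := ∀ (ι : Type) [Finite ι] (F : ι → Set ME), Good (⋃ i, F i) →
  (∀ i, Acc Pre (F i)) → (∀ i j, i ≠ j → Cross c (F i) (F j)) → Acc Pre (⋃ i, F i)

theorem ss_zero (lb : SpecLB) : SS 0 := by
  intro ι _ F hG hA hC
  refine Acc.intro _ fun W hW => ?_
  obtain ⟨x, hx, M, hWs⟩ := hW
  obtain ⟨i, hi⟩ := mem_iUnion.1 hx.1
  refine (hA i).inv ⟨x, mx_mono (subset_iUnion F i) hi hx, M, ?_⟩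
  intro r hr
  obtain ⟨p, hp, hin, m, hm, rfl⟩ := hWs hr
  obtain ⟨j, hj⟩ := mem_iUnion.1 hp
  by_cases hji : j = i
  · subst hji
    exact ⟨p, hj, hin, m, hm, rfl⟩
  · exact absurd hin (lb.zero x p (hG.nice p hp) (hC i j (Ne.symm hji) x hi p hj).1)

/-- `c`-good families -/
def CG (c : ℕ) (Z : Set ME) : Prop := ∀ Y, Acc Pre Y → Good (Z ∪ Y) → Cross (c + 1) Z Y →
  Acc Pre (Z ∪ Y)

theorem cg_cj (cjh : SpecCJ) {c : ℕ} (h : Hm) {Z : Set ME} (hz : CG c Z) : CG c (cj h '' Z) := by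
  intro Y hY hG hC
  have e : cj h⁻¹ '' (cj h '' Z) = Z := im_im cjh _ _ (inv_mul_cancel h) Z
  have h1 : Good (Z ∪ cj h⁻¹ '' Y) := by
    have := cjh.good h⁻¹ _ hG
    rwa [image_union, e] at this
  have h2 : Cross (c + 1) Z (cj h⁻¹ '' Y) := by
    have := cross_cj cjh h⁻¹ hC
    rwa [e] at this
  have h3 := acc_cj cjh h (hz _ (acc_cj cjh h⁻¹ hY) h1 h2)
  rwa [image_union, im_im cjh _ _ (mul_inv_cancel h)] at h3

/-- families such that everything below is `c`-good -/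
def Like (c : ℕ) (Z : Set ME) : Prop := Acc Pre Z ∧ ∀ W, TransGen Pre W Z → CG c W

theorem like_sub (cjh : SpecCJ) (oi : SpecOI) {c : ℕ} {Z Z' : Set ME} (hZ : Good Z) (hs : Z' ⊆ Z)
    (hl : Like c Z) : Like c Z' :=
  ⟨acc_sub cjh oi hZ hs hl.1, fun W hW => hl.2 W (tg_sub cjh oi hZ hs hW)⟩

theorem like_cj (cjh : SpecCJ) {c : ℕ} (h : Hm) {Z : Set ME} (hl : Like c Z) :
    Like c (cj h '' Z) := by
  refine ⟨acc_cj cjh h hl.1, fun W hW => ?_⟩
  have h1 := tg_cj cjh h⁻¹ hW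
  rw [im_im cjh _ _ (inv_mul_cancel h)] at h1
  have h2 := cg_cj cjh h (hl.2 _ h1)
  rwa [im_im cjh _ _ (mul_inv_cancel h)] at h2

/-- the statement of the claim for a fixed `Y` -/
def Cla (c : ℕ) (Y : Set ME) : Prop := ∀ (n : ℕ) (ι : Type) [Finite ι], Nat.card ι = n →
  ∀ F : ι → Set ME, (∀ i, Like c (F i)) → Good (Y ∪ ⋃ i, F i) →
  (∀ i, Cross (c + 1) (F i) Y) → (∀ i j, i ≠ j → Cross c (F i) (F j)) →
  Acc Pre (Y ∪ ⋃ i, F i)

/-- move at an element of `Y` -/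
theorem case_Y (cjh : SpecCJ) (lb : SpecLB) (oi : SpecOI) {c : ℕ} {Y : Set ME}
    (ih : ∀ Y', Pre Y' Y → Cla c Y') {ι : Type} [Finite ι] {F : ι → Set ME}
    (hL : ∀ i, Like c (F i)) (hG : Good (Y ∪ ⋃ i, F i)) (hC1 : ∀ i, Cross (c + 1) (F i) Y)
    (hC2 : ∀ i j, i ≠ j → Cross c (F i) (F j)) {x : ME} (hx : Mx (Y ∪ ⋃ i, F i) x) (hxY : x ∈ Y)
    (M : ℕ) : Acc Pre (nx (Y ∪ ⋃ i, F i) x M) := by
  have hFs : ∀ i, F i ⊆ Y ∪ ⋃ i, F i := fun i => (subset_iUnion F i).trans subset_union_right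
  have hFG : ∀ i, Good (F i) := fun i => oi.sub _ _ hG (hFs i)
  have hYG : Good Y := oi.sub _ _ hG subset_union_left
  have hNx : Nice x := hYG.nice x hxY
  have hxF : ∀ i, ∀ p ∈ F i, Lab (c + 1) x p := fun i p hp => (hC1 i p hp x hxY).2
  have hpre : Pre (nx Y x M) Y := ⟨x, mx_mono subset_union_left hxY hx, M, Subset.rfl⟩
  have hGn : Good (nx (Y ∪ ⋃ i, F i) x M) := oi.nxg _ hG x hx.1 M
  rw [nx_union, nx_iUnion] at hGn ⊢
  refine ih _ hpre _ (ι × Ex M) rfl _ ?_ hGn ?_ ?_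
  · intro k
    exact like_cj cjh _ (like_sub cjh oi (hFG k.1) (ins_sub x _) (hL k.1))
  · rintro ⟨i, m⟩ z hz y hy
    rw [nx_eq] at hy
    obtain ⟨m', hy⟩ := mem_iUnion.1 hy
    by_cases hm : m.1 = m'.1
    · rw [← hm] at hy
      exact cross_same cjh (hC1 i) x m.1 z hz y hy
    · exact cross_diff' lb hNx (hFG i).nice hYG.nice (hxF i) hm z hz y hy
  · rintro ⟨i, m⟩ ⟨j, m'⟩ hne
    by_cases hm : m.1 = m'.1
    · have hmm : m = m' := Subtype.ext hm
      subst hmm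
      have hij : i ≠ j := fun h => hne (by rw [h])
      exact cross_same cjh (hC2 i j hij) x m.1
    · exact cross_diff lb hNx (hFG i).nice (hFG j).nice (hxF i) (hxF j) hm

/-- move at an element of `Z`, where `Z ∪ V` is the family -/
theorem case_F (cjh : SpecCJ) (lb : SpecLB) (oi : SpecOI) {c : ℕ} (hS : SS c) {Z V : Set ME}
    (hL : Like c Z) (hG : Good (Z ∪ V)) (hV : Acc Pre V) (hC : Cross (c + 1) Z V) {x : ME}
    (hx : Mx (Z ∪ V) x) (hxZ : x ∈ Z) (M : ℕ) : Acc Pre (nx (Z ∪ V) x M) := by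
  have hZG : Good Z := oi.sub _ _ hG subset_union_left
  have hVG : Good V := oi.sub _ _ hG subset_union_right
  have hNx : Nice x := hZG.nice x hxZ
  have hxV : ∀ p ∈ V, Lab (c + 1) x p := fun p hp => (hC x hxZ p hp).1
  have hpre : Pre (nx Z x M) Z := ⟨x, mx_mono subset_union_left hxZ hx, M, Subset.rfl⟩
  have hGn : Good (nx (Z ∪ V) x M) := oi.nxg _ hG x hx.1 M
  rw [nx_union] at hGn ⊢
  refine hL.2 _ (TransGen.single hpre) _ ?_ hGn ?_
  · have hGV : Good (nx V x M) := oi.sub _ _ hGn subset_union_right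
    rw [nx_eq] at hGV ⊢
    refine hS (Ex M) _ hGV ?_ ?_
    · intro m
      exact acc_cj cjh _ (acc_sub cjh oi hVG (ins_sub x V) hV)
    · intro m m' hne
      exact cross_diff lb hNx hVG.nice hVG.nice hxV hxV fun h => hne (Subtype.ext h)
  · intro z hz y hy
    rw [nx_eq] at hz hy
    obtain ⟨m, hz⟩ := mem_iUnion.1 hz
    obtain ⟨m', hy⟩ := mem_iUnion.1 hy
    by_cases hm : m.1 = m'.1
    · rw [← hm] at hy
      exact cross_same cjh hC x m.1 z hz y hy
    · exact (cross_diff' lb hNx hVG.nice hZG.nice hxV (Ne.symm hm)).symm z hz y hy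

theorem cla (cjh : SpecCJ) (lb : SpecLB) (oi : SpecOI) {c : ℕ} (hS : SS c) {Y : Set ME}
    (hY : Acc Pre Y) : Cla c Y := by
  induction hY with
  | intro Y hY0 ihY =>
    have hYA : Acc Pre Y := Acc.intro _ hY0
    intro n
    induction n using Nat.strong_induction_on with
    | _ n ihn =>
      intro ι _ hn F hL hG hC1 hC2
      refine acc_of_nx cjh oi hG fun x hx M => ?_
      rcases hx.1 with hxY | hxF
      · exact case_Y cjh lb oi ihY hL hG hC1 hC2 hx hxY M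
      · obtain ⟨i0, hi0⟩ := mem_iUnion.1 hxF
        let G : {i : ι // i ≠ i0} → Set ME := fun i => F i.1
        have hdec : (Y ∪ ⋃ i, F i) = F i0 ∪ (Y ∪ ⋃ i, G i) := by
          ext p
          simp only [mem_union, mem_iUnion, G]
          constructor
          · rintro (h | ⟨i, h⟩)
            · exact Or.inr (Or.inl h)
            · by_cases hi : i = i0
              · subst hi
                exact Or.inl h
              · exact Or.inr (Or.inr ⟨⟨i, hi⟩, h⟩)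
          · rintro (h | h | ⟨i, h⟩)
            · exact Or.inr ⟨i0, h⟩
            · exact Or.inl h
            · exact Or.inr ⟨i.1, h⟩
        have hcard : Nat.card {i : ι // i ≠ i0} < n := by
          rw [← hn]
          exact Finite.card_subtype_lt (x := i0) (by simp)
        rw [hdec] at hG hx ⊢
        have hVG : Good (Y ∪ ⋃ i, G i) := oi.sub _ _ hG subset_union_right
        have hV : Acc Pre (Y ∪ ⋃ i, G i) :=
          ihn _ hcard _ rfl G (fun i => hL i.1) hVG (fun i => hC1 i.1)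
            (fun i j hij => hC2 i.1 j.1 fun h => hij (Subtype.ext h))
        refine case_F cjh lb oi hS (hL i0) hG hV ?_ hx hi0 M
        rintro z hz y (hy | hy)
        · exact hC1 i0 z hz y hy
        · obtain ⟨i, hy⟩ := mem_iUnion.1 hy
          exact Cross.succ lb (hC2 i0 i.1 i.2.symm) z hz y hy

theorem cg_of_acc (cjh : SpecCJ) (lb : SpecLB) (oi : SpecOI) {c : ℕ} (hS : SS c) {Z : Set ME}
    (hZ : Acc Pre Z) : CG c Z := by
  have h1 : Acc (TransGen Pre) Z := hZ.transGen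
  induction h1 with
  | intro Z h0 ih =>
    have hL : Like c Z := ⟨hZ, fun W hW => ih W hW (acc_of_tg (h0 W hW))⟩
    intro Y hY hG hC
    have h2 := cla cjh lb oi hS hY 1 Unit (by simp) (fun _ => Z) (fun _ => hL)
      (by rwa [iUnion_const, union_comm]) (fun _ => hC) (fun i j hij => absurd rfl hij)
    rwa [iUnion_const, union_comm] at h2

theorem ss_succ (cjh : SpecCJ) (lb : SpecLB) (oi : SpecOI) {c : ℕ} (hS : SS c) : SS (c + 1) := by
  classical
  intro ι _ F hG hA hC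
  have key : ∀ s : Finset ι, Acc Pre (⋃ i ∈ s, F i) := by
    intro s
    induction s using Finset.induction_on with
    | empty =>
      simp only [Finset.notMem_empty, iUnion_of_empty, iUnion_empty]
      exact Acc.intro _ fun W hW => by
        obtain ⟨x, hx, _⟩ := hW
        exact absurd hx.1 (notMem_empty x)
    | insert a s ha ih =>
      rw [Finset.set_biUnion_insert]
      refine cg_of_acc cjh lb oi hS (hA a) _ ih (oi.sub _ _ hG ?_) ?_
      · refine union_subset (subset_iUnion F a) ?_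
        exact iUnion₂_subset fun i _ => subset_iUnion F i
      · intro z hz y hy
        obtain ⟨i, hi, hy⟩ := mem_iUnion₂.1 hy
        exact hC a i (fun h => ha (h ▸ hi)) z hz y hy
  have : Fintype ι := Fintype.ofFinite ι
  have h := key Finset.univ
  simpa using h

theorem ss_all (cjh : SpecCJ) (lb : SpecLB) (oi : SpecOI) (c : ℕ) : SS c := by
  induction c with
  | zero => exact ss_zero lb
  | succ c ih => exact ss_succ cjh lb oi ih

theorem lab_mono (lb : SpecLB) {c d : ℕ} (h : c ≤ d) {p q : ME} (hl : Lab c p q) : Lab d p q := by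
  induction h with
  | refl => exact hl
  | step _ ih => exact lb.mono _ _ _ ih

/-- one bound for all labels of a good family -/
theorem bound (lb : SpecLB) (lf : SpecLF) {X : Set ME} (hX : Good X) :
    ∃ c : ℕ, ∀ p ∈ X, ∀ q ∈ X, p ≠ q → Lab c p q := by
  have h1 : ∀ p ∈ X, ∀ q ∈ X, ∃ c : ℕ, p ≠ q → Lab c p q := by
    intro p hp q hq
    by_cases hpq : p = q
    · exact ⟨0, fun h => absurd hpq h⟩
    · obtain ⟨c, hc⟩ := lf _ _ (hX.pr p hp q hq hpq).dis (hX.nice p hp).fin (hX.nice q hq).fin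
      exact ⟨c, fun _ _ => hc⟩
  choose! f hf using h1
  obtain ⟨c, hc⟩ := ((hX.fin.prod hX.fin).image fun k : ME × ME => f k.1 k.2).bddAbove
  refine ⟨c, fun p hp q hq hpq => lab_mono lb ?_ (hf p hp q hq hpq)⟩
  exact hc ⟨(p, q), ⟨hp, hq⟩, rfl⟩

theorem specCO (cjh : SpecCJ) (lb : SpecLB) (lf : SpecLF) (oi : SpecOI) : SpecCO := by
  intro X hX
  obtain ⟨c, hc⟩ := bound lb lf hX
  have : Finite ↥X := hX.fin
  have e : (⋃ i : ↥X, ({i.1} : Set ME)) = X := by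
    ext p
    simp
  have h := ss_all cjh lb oi c ↥X (fun i => {i.1}) (by rwa [e]) ?_ ?_
  · rwa [e] at h
  · intro i
    refine Acc.intro _ fun W hW => Acc.intro _ fun V hV => ?_
    exfalso
    obtain ⟨x, hx, M, hWs⟩ := hW
    obtain ⟨y, hy, _⟩ := hV
    obtain ⟨p, hp, hin, _⟩ := hWs hy.1
    have h1 : x = i.1 := hx.1
    have h2 : p = i.1 := hp
    rw [h1, h2] at hin
    exact oi.irr i.1 (hX.nice i.1 i.2) hin
  · rintro i j hij z hz y hy
    have h1 : z = i.1 := hz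
    have h2 : y = j.1 := hy
    have h3 : i.1 ≠ j.1 := fun h => hij (Subtype.ext h)
    subst h1 h2
    exact ⟨hc _ i.2 _ j.2 h3, hc _ j.2 _ i.2 h3.symm⟩

end FPT.GF.COM
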