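import Pool.Agent.Lib.MP_c27bde_al.GF.Spec

/-!
MP_c27bde_al, GF, module CP (helper22): the copies of good pairs are good.
-/

set_option autoImplicit false

namespace FPT.GF.CPM

open Set FPT FPT.GF

theorem app_inv (h : Hm) (w : ℝ) : h (h⁻¹ w) = w := RelIso.apply_inv_self h w

theorem inv_app (h : Hm) (w : ℝ) : h⁻¹ (h w) = w := RelIso.inv_apply_self h w

/-- The pair `(p, x^j q x^(-j))`. -/
theorem key (hCJ : SpecCJ) (x p q : ME) (N : Nice x) (hp : GPr x p) (hq : GPr x q)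
    (ip : Ins x p) (iq : Ins x q) (j : ℤ) (hj : j ≠ 0) : GPr p (cj (x.1 ^ j) q) := by
  have hF : Ft (cj (x.1 ^ j) q) ⊆ Ft x := by
    rw [hCJ.ft]
    rintro _ ⟨v, hv, rfl⟩
    exact N.png v (iq hv) j hj
  refine ⟨?_, ?_, ?_⟩
  · rw [Set.disjoint_left]
    intro w hw hw'
    exact (hF hw').2 (ip hw)
  · intro w hw hw'
    exact hp.r w (hF hw) hw'
  · intro w hw hw' he
    rw [hCJ.ft, hCJ.cv'] at hw'
    obtain ⟨v, hv, rfl⟩ := hw'
    have h1 : v ∈ Ft x := by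
      have h2 := N.png _ (ip hw) (-j) (neg_ne_zero.2 hj)
      rw [zpow_neg, inv_app] at h2
      exact h2
    refine hq.r v h1 hv ?_
    have h3 : (x.1 ^ j) (q.1 ((x.1 ^ j)⁻¹ ((x.1 ^ j) v))) = (x.1 ^ j) v := he
    rw [inv_app] at h3
    exact (x.1 ^ j).injective h3

/-- Copies are good. -/
theorem specCP (hCJ : SpecCJ) : SpecCP := by
  intro x p q N hp hq ip iq m m' hm
  have e : cj (x.1 ^ m') q = cj (x.1 ^ m) (cj (x.1 ^ (m' - m)) q) := by
    rw [hCJ.comp, ← zpow_add, add_sub_cancel]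
  rw [e]
  exact hCJ.gpr _ _ _ (key hCJ x p q N hp hq ip iq _ (sub_ne_zero.2 (Ne.symm hm)))

end FPT.GF.CPM
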