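import Pool.Agent.Lib.MP_c27bde_al.GF.Spec

/-!
# GF/EG (helper95): closure properties of the class `EA`, for subgroups of `Hm`
-/

set_option autoImplicit false

namespace FPT.GF.EGM

open FPT

theorem ea_finite (G : Type) [Group G] (h : Finite G) : EA G :=
  fun _ h1 _ _ _ _ _ _ => h1 G h

theorem ea_comm (G : Type) [Group G] (h : ∀ a b : G, a * b = b * a) : EA G :=
  fun _ _ h2 _ _ _ _ _ => h2 G h

theorem ea_sub (G : Type) [Group G] (K : Subgroup G) (h : EA G) : EA ↥K :=
  fun C h1 h2 h3 h4 h5 h6 h7 => h3 G K (h C h1 h2 h3 h4 h5 h6 h7)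

theorem ea_quot (G : Type) [Group G] (N : Subgroup G) [N.Normal] (h : EA G) : EA (G ⧸ N) :=
  fun C h1 h2 h3 h4 h5 h6 h7 => h4 G N (h C h1 h2 h3 h4 h5 h6 h7)

theorem ea_ext (G : Type) [Group G] (N : Subgroup G) [N.Normal] (h : EA ↥N) (h' : EA (G ⧸ N)) :
    EA G :=
  fun C h1 h2 h3 h4 h5 h6 h7 => h5 G N (h C h1 h2 h3 h4 h5 h6 h7) (h' C h1 h2 h3 h4 h5 h6 h7)

theorem ea_dir (G : Type) [Group G] (h : ∀ s : Finset G, EA ↥(Subgroup.closure (s : Set G))) :
    EA G :=
  fun C h1 h2 h3 h4 h5 h6 h7 => h6 G (fun s => h s C h1 h2 h3 h4 h5 h6 h7)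

theorem ea_iso (G G' : Type) [Group G] [Group G'] (e : G ≃* G') (h : EA G) : EA G' :=
  fun C h1 h2 h3 h4 h5 h6 h7 => h7 G G' e (h C h1 h2 h3 h4 h5 h6 h7)

theorem ea_inj {G G' : Type} [Group G] [Group G'] (f : G →* G') (hf : Function.Injective f)
    (h : EA G') : EA G :=
  ea_iso _ _ (MonoidHom.ofInjective hf).symm (ea_sub _ f.range h)

theorem ea_range {G G' : Type} [Group G] [Group G'] (f : G →* G') (h : EA G) : EA ↥f.range :=
  ea_iso _ _ (QuotientGroup.quotientKerEquivRange f) (ea_quot _ f.ker h)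

theorem ea_ker {G G' : Type} [Group G] [Group G'] (f : G →* G') (h : EA ↥f.ker)
    (h' : EA ↥f.range) : EA G :=
  ea_ext _ f.ker h (ea_iso _ _ (QuotientGroup.quotientKerEquivRange f).symm h')

theorem ea_mono {G : Type} [Group G] (A B : Subgroup G) (hAB : A ≤ B) (h : EA ↥B) : EA ↥A :=
  ea_inj (Subgroup.inclusion hAB) (Subgroup.inclusion_injective hAB) h

theorem ea_prod (G G' : Type) [Group G] [Group G'] (h : EA G) (h' : EA G') : EA (G × G') := by
  refine ea_ker (MonoidHom.snd G G') ?_ ?_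
  · refine ea_inj ((MonoidHom.fst G G').comp (MonoidHom.snd G G').ker.subtype) ?_ h
    rintro ⟨⟨a, b⟩, hb⟩ ⟨⟨c, d⟩, hd⟩ hac
    have hb' : b = 1 := hb
    have hd' : d = 1 := hd
    have hac' : a = c := hac
    subst hb' hd' hac'
    rfl
  · exact ea_sub _ _ h'

theorem mem_fin {G : Type} [Group G] (S : Set G) (x : G) (hx : x ∈ Subgroup.closure S) :
    ∃ S0 : Set G, S0.Finite ∧ S0 ⊆ S ∧ x ∈ Subgroup.closure S0 := by
  induction hx using Subgroup.closure_induction with
  | mem x hx => exact ⟨{x}, Set.finite_singleton x, by simpa using hx,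
      Subgroup.subset_closure (Set.mem_singleton x)⟩
  | one => exact ⟨∅, Set.finite_empty, Set.empty_subset _, Subgroup.one_mem _⟩
  | mul x y _ _ h1 h2 =>
    obtain ⟨A, hA, hAS, hx⟩ := h1
    obtain ⟨B, hB, hBS, hy⟩ := h2
    exact ⟨A ∪ B, hA.union hB, Set.union_subset hAS hBS,
      Subgroup.mul_mem _ (Subgroup.closure_mono Set.subset_union_left hx)
        (Subgroup.closure_mono Set.subset_union_right hy)⟩
  | inv x _ h1 =>
    obtain ⟨A, hA, hAS, hx⟩ := h1
    exact ⟨A, hA, hAS, Subgroup.inv_mem _ hx⟩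

theorem mem_fin_all {G : Type} [Group G] (S : Set G) (s : Finset G)
    (hs : ∀ x ∈ s, x ∈ Subgroup.closure S) :
    ∃ S0 : Set G, S0.Finite ∧ S0 ⊆ S ∧ ∀ x ∈ s, x ∈ Subgroup.closure S0 := by
  classical
  induction s using Finset.induction_on with
  | empty => exact ⟨∅, Set.finite_empty, Set.empty_subset _, by simp⟩
  | insert a s ha ih =>
    obtain ⟨A, hA, hAS, hx⟩ := ih (fun x hx => hs x (Finset.mem_insert_of_mem hx))
    obtain ⟨B, hB, hBS, hy⟩ := mem_fin S a (hs a (Finset.mem_insert_self a s))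
    refine ⟨A ∪ B, hA.union hB, Set.union_subset hAS hBS, ?_⟩
    intro x hx'
    rcases Finset.mem_insert.1 hx' with rfl | hx'
    · exact Subgroup.closure_mono Set.subset_union_right hy
    · exact Subgroup.closure_mono Set.subset_union_left (hx x hx')

theorem ea_closure {G : Type} [Group G] (S : Set G)
    (h : ∀ S0 : Set G, S0.Finite → S0 ⊆ S → EA ↥(Subgroup.closure S0)) :
    EA ↥(Subgroup.closure S) := by
  classical
  refine ea_dir _ ?_
  intro s
  obtain ⟨S0, h0, h1, h2⟩ := mem_fin_all S (s.image (Subtype.val)) (by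
    intro x hx
    obtain ⟨y, _, rfl⟩ := Finset.mem_image.1 hx
    exact y.2)
  have key : ∀ x ∈ Subgroup.closure (s : Set ↥(Subgroup.closure S)),
      (x : G) ∈ Subgroup.closure S0 := by
    intro x hx
    have h3 : Subgroup.closure (s : Set ↥(Subgroup.closure S)) ≤
        (Subgroup.closure S0).comap (Subgroup.closure S).subtype := by
      rw [Subgroup.closure_le]
      intro y hy
      exact h2 _ (Finset.mem_image_of_mem _ hy)
    exact h3 hx
  refine ea_inj ((((Subgroup.closure S).subtype.comp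
    (Subgroup.closure (s : Set ↥(Subgroup.closure S))).subtype)).codRestrict
      (Subgroup.closure S0) (fun x => key x.1 x.2)) ?_ (h S0 h0 h1)
  intro x y hxy
  have h4 : ((x : ↥(Subgroup.closure S)) : G) = ((y : ↥(Subgroup.closure S)) : G) :=
    congrArg (fun z : ↥(Subgroup.closure S0) => (z : G)) hxy
  exact Subtype.ext (Subtype.ext h4)

theorem ea_cyc {G : Type} [Group G] (N : Subgroup G) (x : G) (h1 : ∀ g ∈ N, x * g * x⁻¹ ∈ N)
    (h2 : ∀ g ∈ N, x⁻¹ * g * x ∈ N) (h : EA ↥N) : EA ↥(N ⊔ Subgroup.zpowers x) := by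
  have hxn : x ∈ Subgroup.normalizer (N : Set G) := by
    rw [Subgroup.mem_normalizer_iff]
    intro g
    constructor
    · intro hg
      exact h1 g hg
    · intro hg
      have := h2 _ hg
      simpa [mul_assoc] using this
  have hle : N ⊔ Subgroup.zpowers x ≤ Subgroup.normalizer (N : Set G) := by
    refine sup_le Subgroup.le_normalizer ?_
    rw [Subgroup.zpowers_le]
    exact hxn
  have hconj : ∀ (k : ℤ) (g : G), g ∈ N → x ^ k * g * (x ^ k)⁻¹ ∈ N := by
    intro k g hg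
    have := Subgroup.zpow_mem _ hxn k
    exact (Subgroup.mem_normalizer_iff.1 this g).1 hg
  have hnorm : (N.subgroupOf (N ⊔ Subgroup.zpowers x)).Normal :=
    (Subgroup.normal_subgroupOf_iff_le_normalizer le_sup_left).2 hle
  let P : Subgroup G :=
    { carrier := {g | ∃ n ∈ N, ∃ k : ℤ, g = n * x ^ k}
      mul_mem' := by
        rintro _ _ ⟨n, hn, k, rfl⟩ ⟨m, hm, l, rfl⟩
        refine ⟨n * (x ^ k * m * (x ^ k)⁻¹), N.mul_mem hn (hconj k m hm), k + l, ?_⟩
        rw [zpow_add]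
        group
      one_mem' := ⟨1, N.one_mem, 0, by simp⟩
      inv_mem' := by
        rintro _ ⟨n, hn, k, rfl⟩
        refine ⟨x ^ (-k) * n⁻¹ * (x ^ (-k))⁻¹, hconj (-k) _ (N.inv_mem hn), -k, ?_⟩
        group }
  have hP : N ⊔ Subgroup.zpowers x ≤ P := by
    refine sup_le ?_ ?_
    · intro n hn
      exact ⟨n, hn, 0, by simp⟩
    · rw [Subgroup.zpowers_le]
      exact ⟨1, N.one_mem, 1, by simp⟩
  refine ea_ext _ (N.subgroupOf (N ⊔ Subgroup.zpowers x)) ?_ ?_
  · refine ea_inj ((((N ⊔ Subgroup.zpowers x).subtype.comp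
      (N.subgroupOf (N ⊔ Subgroup.zpowers x)).subtype)).codRestrict N
        (fun g => Subgroup.mem_subgroupOf.1 g.2)) ?_ h
    intro a b hab
    have h4 : ((a : ↥(N ⊔ Subgroup.zpowers x)) : G) = ((b : ↥(N ⊔ Subgroup.zpowers x)) : G) :=
      congrArg (fun z : ↥N => (z : G)) hab
    exact Subtype.ext (Subtype.ext h4)
  · refine ea_comm _ ?_
    let x' : ↥(N ⊔ Subgroup.zpowers x) :=
      ⟨x, Subgroup.mem_sup_right (Subgroup.mem_zpowers x)⟩
    have hk : ∀ a : ↥(N ⊔ Subgroup.zpowers x) ⧸ N.subgroupOf (N ⊔ Subgroup.zpowers x),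
        ∃ k : ℤ, a = (QuotientGroup.mk x') ^ k := by
      intro a
      obtain ⟨g, rfl⟩ := QuotientGroup.mk_surjective a
      obtain ⟨n, hn, k, hg⟩ := hP g.2
      refine ⟨k, ?_⟩
      have hnn : n ∈ N ⊔ Subgroup.zpowers x := Subgroup.mem_sup_left hn
      have hg' : g = (⟨n, hnn⟩ : ↥(N ⊔ Subgroup.zpowers x)) * x' ^ k := by
        apply Subtype.ext
        rw [hg]
        rfl
      rw [hg', QuotientGroup.mk_mul, QuotientGroup.mk_zpow]
      have h5 : (QuotientGroup.mk (⟨n, hnn⟩ : ↥(N ⊔ Subgroup.zpowers x)) :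
          ↥(N ⊔ Subgroup.zpowers x) ⧸ N.subgroupOf (N ⊔ Subgroup.zpowers x)) = 1 :=
        (QuotientGroup.eq_one_iff _).2 (Subgroup.mem_subgroupOf.2 hn)
      rw [h5, one_mul]
    intro a b
    obtain ⟨k, rfl⟩ := hk a
    obtain ⟨l, rfl⟩ := hk b
    rw [← zpow_add, ← zpow_add, add_comm]

theorem ea_homs (n : ℕ) : ∀ (G : Type) [Group G] (f : Fin n → (G →* Hm)),
    (∀ i, EA ↥(f i).range) → (∀ k : G, (∀ i, f i k = 1) → k = 1) → EA G := by
  induction n with
  | zero =>
    intro G _ f _ h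
    have hs : Subsingleton G := ⟨fun a b => by
      rw [h a (fun i => i.elim0), h b (fun i => i.elim0)]⟩
    exact ea_finite G inferInstance
  | succ n ih =>
    intro G _ f h1 h2
    refine ea_ker (f 0) ?_ (h1 0)
    refine ih ↥(f 0).ker (fun i => (f i.succ).comp (f 0).ker.subtype) ?_ ?_
    · intro i
      refine ea_mono _ (f i.succ).range ?_ (h1 i.succ)
      rintro _ ⟨k, rfl⟩
      exact ⟨k, rfl⟩
    · intro k hk
      apply Subtype.ext
      refine h2 k.1 ?_
      intro i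
      refine Fin.cases ?_ ?_ i
      · exact k.2
      · intro j
        exact hk j

/-- EG. -/
theorem specEG : SpecEG where
  bot := ea_finite _ inferInstance
  mono A B h := ea_mono A B h
  sup A B hc hA hB := by
    have hr := MonoidHom.noncommCoprod_range A.subtype B.subtype (fun a b => hc a a.2 b b.2)
    rw [Subgroup.range_subtype, Subgroup.range_subtype] at hr
    rw [← hr]
    exact ea_range _ (ea_prod _ _ hA hB)
  cyc N x h1 h2 h := ea_cyc N x h1 h2 h
  dir S h := ea_closure S h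
  hom K n f h1 h2 := ea_homs n ↥K f h1 h2

end FPT.GF.EGM
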