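import Pool.Agent.Lib.MP_c27bde_al.GF.Spec

set_option autoImplicit false

namespace FPT.GF.ESM

open Set FPT FPT.GF

theorem comm_of_disj (g h : Hm) (hd : Disjoint (sp g) (sp h)) : g * h = h * g := by
  have hmv : ∀ (k : Hm) (w : ℝ), k w ≠ w → k (k w) ≠ k w := by
    intro k w hw h1
    exact hw (k.injective h1)
  have hsep : ∀ w, g w ≠ w → h w = w := by
    intro w hw
    by_contra h1
    exact (Set.disjoint_left.mp hd) (show w ∈ sp g from hw) (show w ∈ sp h from h1)
  ext w
  show g (h w) = h (g w)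
  by_cases hg : g w = w
  · rw [hg]
    by_cases hh : h w = w
    · rw [hh, hg]
    · by_contra h1
      exact hmv h w hh (hsep (h w) h1)
  · rw [hsep w hg, hsep (g w) (hmv g w hg)]

theorem cv_mono {S T : Set ℝ} (h : S ⊆ T) : cv S ⊆ cv T := by
  rintro w ⟨a, ha, b, hb, h1, h2⟩
  exact ⟨a, h ha, b, h hb, h1, h2⟩

theorem cv_cv (S : Set ℝ) : cv (cv S) ⊆ cv S := by
  rintro w ⟨a, ⟨a1, ha1, -, -, h1, -⟩, b, ⟨-, -, b2, hb2, -, h2⟩, h3, h4⟩
  exact ⟨a1, ha1, b2, hb2, h1.trans h3, h4.trans h2⟩

theorem cl_mono {X Y : Set ME} (h : X ⊆ Y) : cl X ≤ cl Y := by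
  unfold cl
  rw [Subgroup.closure_le]
  rintro g ⟨p, hp, rfl⟩
  exact Subgroup.subset_closure ⟨p, h hp, rfl⟩

/-- the normal subgroup -/
def NN (X : Set ME) (x : ME) : Set Hm :=
  {g | ∃ p ∈ X, Ins x p ∧ ∃ m : ℤ, g = (cj (x.1 ^ m) p).1}

theorem cj_fst (h : Hm) (p : ME) : (cj h p).1 = h * p.1 * h⁻¹ := rfl

theorem NN_conj (X : Set ME) (x : ME) (k : ℤ) :
    ∀ g ∈ Subgroup.closure (NN X x), x.1 ^ k * g * (x.1 ^ k)⁻¹ ∈ Subgroup.closure (NN X x) := by
  have h : Subgroup.closure (NN X x) ≤
      (Subgroup.closure (NN X x)).comap (MulAut.conj (x.1 ^ k)).toMonoidHom := by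
    rw [Subgroup.closure_le]
    rintro g ⟨p, hp, hi, m, rfl⟩
    show MulAut.conj (x.1 ^ k) (cj (x.1 ^ m) p).1 ∈ Subgroup.closure (NN X x)
    refine Subgroup.subset_closure ⟨p, hp, hi, k + m, ?_⟩
    rw [MulAut.conj_apply, cj_fst, cj_fst, zpow_add]
    group
  intro g hg
  have := h hg
  rwa [Subgroup.mem_comap] at this

theorem NN_EA (hEG : SpecEG) (X : Set ME) (x : ME)
    (hE : ∀ M : ℕ, EA ↥(cl (nx X x M))) : EA ↥(Subgroup.closure (NN X x)) := by
  classical
  apply hEG.dir
  intro S0 hf hS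
  have h1 : ∀ g : Hm, ∃ m : ℤ, g ∈ S0 → ∃ p ∈ X, Ins x p ∧ g = (cj (x.1 ^ m) p).1 := by
    intro g
    by_cases hg : g ∈ S0
    · obtain ⟨p, hp, hi, m, hm⟩ := hS hg
      exact ⟨m, fun _ => ⟨p, hp, hi, hm⟩⟩
    · exact ⟨0, fun h => absurd h hg⟩
  choose m hm using h1
  refine hEG.mono _ _ ?_ (hE (hf.toFinset.sup fun g => (m g).natAbs))
  rw [Subgroup.closure_le]
  intro g hg
  obtain ⟨p, hp, hi, he⟩ := hm g hg
  refine Subgroup.subset_closure ⟨cj (x.1 ^ m g) p, ⟨p, hp, hi, m g, ?_, rfl⟩, he⟩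
  have h2 : (m g).natAbs ≤ hf.toFinset.sup fun g => (m g).natAbs :=
    Finset.le_sup (f := fun g => (m g).natAbs) (hf.mem_toFinset.mpr hg)
  rw [Int.abs_eq_natAbs]
  exact_mod_cast h2

theorem specES (hTR : SpecTR) (hOI : SpecOI) (hCJ : SpecCJ) (hEG : SpecEG) : SpecES := by
  have _ := hCJ
  intro K hK hB
  have main : ∀ n : ℕ, ∀ X : Set ME, X.ncard = n → Good X → (∀ p ∈ X, p.1 ∈ K) →
      (∀ x, Mx X x → ∀ M : ℕ, EA ↥(cl (nx X x M))) → EA ↥(cl X) := by
    intro n
    induction n using Nat.strong_induction_on with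
    | _ n ih =>
    intro X hn hX hXK hE
    rcases X.eq_empty_or_nonempty with rfl | ⟨x0, hx0⟩
    · refine hEG.mono _ _ ?_ hEG.bot
      unfold cl
      rw [Subgroup.closure_le]
      rintro g ⟨p, hp, -⟩
      exact absurd hp (Set.notMem_empty p)
    · obtain ⟨x, hx, -⟩ := hOI.mx X hX x0 hx0
      have hxX : x ∈ X := hx.1
      set R : Set ME := {p | p ∈ X ∧ p ≠ x ∧ ¬ Ins x p} with hR
      have hRX : R ⊆ X := fun p hp => hp.1
      have hRG : Good R := hOI.sub X R hX hRX
      have hcard : R.ncard < n := by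
        rw [← hn]
        apply Set.ncard_lt_ncard _ hX.fin
        refine ⟨hRX, fun h => ?_⟩
        exact (h hxX).2.1 rfl
      have hER : EA ↥(cl R) := by
        refine ih R.ncard hcard R rfl hRG (fun p hp => hXK p (hRX hp)) ?_
        intro y hy M
        have hyX : Mx X y := by
          refine ⟨hRX hy.1, ?_⟩
          intro p hp hpy
          by_cases hpR : p ∈ R
          · exact hy.2 p hpR hpy
          · by_cases hpx : p = x
            · subst hpx
              exact hy.1.2.2 hpy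
            · by_cases hip : Ins x p
              · exact hy.1.2.2 (hOI.trans X hX x hxX p hp y (hRX hy.1) hip hpy)
              · exact hpR ⟨hp, hpx, hip⟩
        refine hEG.mono _ _ (cl_mono ?_) (hE y hyX M)
        rintro r ⟨p, hp, hi, m, hm, rfl⟩
        exact ⟨p, hRX hp, hi, m, hm, rfl⟩
      -- commuting
      have hsx : sp x.1 ⊆ cv (Ft x) := (hX.nice x hxX).hul
      have hdis : ∀ r ∈ R, Disjoint (cv (Ft x)) (cv (Ft r)) := by
        intro r hr
        rcases hTR K hK hB x r (hXK x hxX) (hXK r (hRX hr)) (hX.nice x hxX)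
          (hX.nice r (hRX hr)) (hX.pr x hxX r (hRX hr) (fun h => hr.2.1 h.symm)) with h | h | h
        · exact h
        · exact absurd h hr.2.2
        · exact absurd h (hx.2 r (hRX hr))
      have hcx : ∀ r ∈ R, r.1 * x.1 = x.1 * r.1 := by
        intro r hr
        exact (comm_of_disj x.1 r.1 ((hdis r hr).mono hsx (hX.nice r (hRX hr)).hul)).symm
      have hcq : ∀ r ∈ R, ∀ q ∈ X, Ins x q → r.1 * q.1 = q.1 * r.1 := by
        intro r hr q hq hi
        have h1 : sp q.1 ⊆ cv (Ft x) := by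
          refine (hX.nice q hq).hul.trans ((cv_mono ?_).trans (cv_cv (Ft x)))
          exact (show Ft q ⊆ x.2 from hi).trans ((hX.nice x hxX).sub.trans hsx)
        exact (comm_of_disj q.1 r.1 ((hdis r hr).mono h1 (hX.nice r (hRX hr)).hul)).symm
      set C : Subgroup Hm := Subgroup.centralizer {g | ∃ r ∈ R, g = r.1} with hC
      have hxC : x.1 ∈ C := by
        rw [hC, Subgroup.mem_centralizer_iff]
        rintro g ⟨r, hr, rfl⟩
        exact hcx r hr
      have hqC : ∀ q ∈ X, Ins x q → q.1 ∈ C := by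
        intro q hq hi
        rw [hC, Subgroup.mem_centralizer_iff]
        rintro g ⟨r, hr, rfl⟩
        exact hcq r hr q hq hi
      have hAC : Subgroup.closure (NN X x) ⊔ Subgroup.zpowers x.1 ≤ C := by
        refine sup_le ?_ ?_
        · rw [Subgroup.closure_le]
          rintro g ⟨p, hp, hi, m, rfl⟩
          rw [cj_fst]
          exact C.mul_mem (C.mul_mem (C.zpow_mem hxC m) (hqC p hp hi))
            (C.inv_mem (C.zpow_mem hxC m))
        · rw [Subgroup.zpowers_le]
          exact hxC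
      have hcomm : ∀ a ∈ Subgroup.closure (NN X x) ⊔ Subgroup.zpowers x.1, ∀ b ∈ cl R,
          a * b = b * a := by
        intro a ha b hb
        have h1 : a ∈ C := hAC ha
        rw [hC, Subgroup.mem_centralizer_iff] at h1
        have h2 : cl R ≤ Subgroup.centralizer {a} := by
          unfold cl
          rw [Subgroup.closure_le]
          intro g hg
          rw [SetLike.mem_coe, Subgroup.mem_centralizer_iff]
          intro h hh
          rw [Set.mem_singleton_iff] at hh
          subst hh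
          exact (h1 g hg).symm
        have h3 := h2 hb
        rw [Subgroup.mem_centralizer_iff] at h3
        exact h3 a rfl
      have hEN : EA ↥(Subgroup.closure (NN X x)) := NN_EA hEG X x (hE x hx)
      have hEA : EA ↥(Subgroup.closure (NN X x) ⊔ Subgroup.zpowers x.1) := by
        refine hEG.cyc _ _ ?_ ?_ hEN
        · intro g hg
          have := NN_conj X x 1 g hg
          simpa using this
        · intro g hg
          have := NN_conj X x (-1) g hg
          simpa using this
      refine hEG.mono _ _ ?_ (hEG.sup _ _ hcomm hEA hER)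
      unfold cl
      rw [Subgroup.closure_le]
      rintro g ⟨p, hp, rfl⟩
      by_cases hpx : p = x
      · subst hpx
        exact (le_sup_of_le_left (le_sup_right :
          Subgroup.zpowers p.1 ≤ Subgroup.closure (NN X p) ⊔ Subgroup.zpowers p.1))
          (Subgroup.mem_zpowers p.1)
      · by_cases hi : Ins x p
        · refine (le_sup_of_le_left (le_sup_left :
            Subgroup.closure (NN X x) ≤ Subgroup.closure (NN X x) ⊔ Subgroup.zpowers x.1))
            (Subgroup.subset_closure ⟨p, hp, hi, 0, ?_⟩)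
          rw [cj_fst]
          simp
        · exact (le_sup_right : cl R ≤ _) (Subgroup.subset_closure ⟨p, ⟨hp, hpx, hi⟩, rfl⟩)
  intro X hX hXK hE
  exact main X.ncard X rfl hX hXK hE

end FPT.GF.ESM
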