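import Pool.Agent.Lib.MP_c27bde_al.GF.Spec

/-!
# Module FU: fundamental sets

Ping-pong, hulls and feet near the ends of the orbitals.
-/

set_option autoImplicit false

namespace FPT.GF.FUM

open Set FPT

theorem mul_app (g h : Hm) (x : ℝ) : (g * h) x = g (h x) := rfl

theorem inv_app_self (g : Hm) (x : ℝ) : g⁻¹ (g x) = x := g.symm_apply_apply x

theorem app_inv_self (g : Hm) (x : ℝ) : g (g⁻¹ x) = x := g.apply_symm_apply x

theorem inv_fix_iff (g : Hm) (x : ℝ) : g⁻¹ x = x ↔ g x = x := by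
  constructor
  · intro h
    have := app_inv_self g x
    rwa [h] at this
  · intro h
    have := inv_app_self g x
    rwa [h] at this

/-- same orbital -/
def Sm (g : Hm) (u v : ℝ) : Prop := ∀ t ∈ uIcc u v, g t ≠ t

theorem Sm.symm {g : Hm} {u v : ℝ} (h : Sm g u v) : Sm g v u := by
  intro t ht
  exact h t (by rwa [uIcc_comm] at ht)

theorem Sm.trans {g : Hm} {u v w : ℝ} (h : Sm g u v) (h' : Sm g v w) : Sm g u w := by
  intro t ht
  rcases uIcc_subset_uIcc_union_uIcc ht with h1 | h1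
  · exact h t h1
  · exact h' t h1

theorem zpow_fix (g : Hm) (j : ℤ) (x : ℝ) (h : g x = x) : (g ^ j) x = x := ORDM.zpowf g j x h

theorem zpow_mv (g : Hm) (j : ℤ) (w : ℝ) (h : g w ≠ w) : g ((g ^ j) w) ≠ (g ^ j) w := by
  intro h1
  have h2 : (g * g ^ j) w = (g ^ j * g) w := by
    rw [(Commute.refl g).zpow_right j |>.eq]
  rw [mul_app, mul_app, h1] at h2
  exact h ((g ^ j).injective h2).symm

theorem sm_zpow (g : Hm) (j : ℤ) (w : ℝ) (h : g w ≠ w) : Sm g w ((g ^ j) w) := by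
  intro t ht h1
  have h2 := zpow_fix g j t h1
  have h3 := zpow_mv g j w h
  rcases le_total w t with h4 | h4
  · rcases le_total t ((g ^ j) w) with h5 | h5
    · have h6 := (g ^ j).monotone h4
      rw [h2] at h6
      exact h3 (le_antisymm h5 h6 ▸ h1)
    · rcases mem_uIcc.1 ht with h6 | h6
      · exact h3 (le_antisymm h6.2 h5 ▸ h1)
      · exact h (le_antisymm h6.2 h4 ▸ h1)
  · rcases le_total ((g ^ j) w) t with h5 | h5
    · have h6 := (g ^ j).monotone h4
      rw [h2] at h6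
      exact h3 (le_antisymm h6 h5 ▸ h1)
    · rcases mem_uIcc.1 ht with h6 | h6
      · exact h (le_antisymm h4 h6.1 ▸ h1)
      · exact h3 (le_antisymm h5 h6.1 ▸ h1)

/-- Normal form of a marker: `k = g` or `k = g⁻¹` moves the left end of the interval to its right
end. -/
theorem normal (g : Hm) (s : ℝ) (hs : g s ≠ s) : ∃ k : Hm, (k = g ∨ k = g⁻¹) ∧
    k (min s (g s)) = max s (g s) ∧ min s (g s) < max s (g s) := by
  rcases lt_or_gt_of_ne hs with h | h
  · refine ⟨g⁻¹, Or.inr rfl, ?_, ?_⟩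
    · rw [min_eq_right h.le, max_eq_left h.le, inv_app_self]
    · rw [min_eq_right h.le, max_eq_left h.le]
      exact h
  · refine ⟨g, Or.inl rfl, ?_, ?_⟩
    · rw [min_eq_left h.le, max_eq_right h.le]
    · rw [min_eq_left h.le, max_eq_right h.le]
      exact h

theorem mv_of (k : Hm) (a t : ℝ) (h : a < k a) (h1 : a ≤ t) (h2 : t ≤ k a) : k t ≠ t := by
  intro h3
  have h4 := k.monotone h1
  rw [h3] at h4
  have h5 : t = k a := le_antisymm h2 h4
  have h6 : k t = k a := by rw [h3, h5]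
  have h7 := k.injective h6
  rw [h7] at h5
  exact absurd h5 h.ne

theorem sm_marker (g : Hm) (s w : ℝ) (hs : g s ≠ s) (h1 : min s (g s) ≤ w)
    (h2 : w ≤ max s (g s)) : Sm g w s := by
  obtain ⟨k, hk, hk1, hk2⟩ := normal g s hs
  intro t ht
  have ht1 : min s (g s) ≤ t := le_trans (le_min h1 (min_le_left _ _)) ht.1
  have ht2 : t ≤ max s (g s) := le_trans ht.2 (max_le h2 (le_max_left _ _))
  have h3 : k t ≠ t := by
    refine mv_of k (min s (g s)) t ?_ ht1 ?_
    · rw [hk1]; exact hk2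
    · rw [hk1]; exact ht2
  rcases hk with rfl | rfl
  · exact h3
  · rwa [Ne, inv_fix_iff] at h3

/-- The data of a fundamental set, for a fixed marker set. -/
structure Dat (g : Hm) (D : Set ℝ) (m : Set ℝ) : Prop where
  mv : ∀ s ∈ m, g s ≠ s
  ex : ∀ w, g w ≠ w → ∃ s ∈ m, Sm g w s
  un : ∀ s ∈ m, ∀ s' ∈ m, Sm g s s' → s = s'
  eq : D = {w | ∃ s ∈ m, min s (g s) ≤ w ∧ w < max s (g s)}

theorem le_pow (k : Hm) (a w : ℝ) (h : a < k a) (h1 : a ≤ w) (n : ℕ) :
    k a ≤ (k ^ (n + 1)) w := by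
  induction n with
  | zero => rw [zero_add, pow_one]; exact k.monotone h1
  | succ n ih =>
    rw [pow_succ', mul_app]
    exact k.monotone (le_trans h.le ih)

theorem not_both (k : Hm) (a w : ℝ) (h : a < k a) (h1 : a ≤ w) (h2 : w < k a) (i : ℤ) (hi : i ≠ 0)
    (h3 : a ≤ (k ^ i) w) (h4 : (k ^ i) w < k a) : False := by
  rcases lt_or_gt_of_ne hi with hneg | hpos
  · obtain ⟨n, hn⟩ : ∃ n : ℕ, -i = (n : ℤ) + 1 := ⟨(-i - 1).toNat, by omega⟩
    have h5 := le_pow k a ((k ^ i) w) h h3 n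
    have h6 : (k ^ (n + 1)) ((k ^ i) w) = w := by
      rw [← mul_app, ← zpow_natCast, ← zpow_add]
      have : ((n + 1 : ℕ) : ℤ) + i = 0 := by push_cast; omega
      rw [this, zpow_zero]
      rfl
    rw [h6] at h5
    exact absurd h2 (not_lt.2 h5)
  · obtain ⟨n, hn⟩ : ∃ n : ℕ, i = (n : ℤ) + 1 := ⟨(i - 1).toNat, by omega⟩
    have h5 := le_pow k a w h h1 n
    have h6 : k ^ i = k ^ (n + 1) := by
      rw [hn, ← zpow_natCast]
      push_cast
      rfl
    rw [h6] at h4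
    exact absurd h4 (not_lt.2 h5)

section

variable {g : Hm} {D m : Set ℝ}

theorem sub (h : Dat g D m) : D ⊆ sp g := by
  intro w hw
  rw [h.eq] at hw
  obtain ⟨s, hs, h1, h2⟩ := hw
  exact sm_marker g s w (h.mv s hs) h1 h2.le w left_mem_uIcc

theorem png (h : Dat g D m) : ∀ w ∈ D, ∀ j : ℤ, j ≠ 0 → (g ^ j) w ∈ Ft (g, D) := by
  intro w hw j hj
  have hmv : g w ≠ w := sub h hw
  refine ⟨zpow_mv g j w hmv, ?_⟩
  intro hD
  change (g ^ j) w ∈ D at hD
  rw [h.eq] at hw hD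
  obtain ⟨s, hs, h1, h2⟩ := hw
  obtain ⟨s', hs', h3, h4⟩ := hD
  have e1 : Sm g w s := sm_marker g s w (h.mv s hs) h1 h2.le
  have e2 : Sm g ((g ^ j) w) s' := sm_marker g s' _ (h.mv s' hs') h3 h4.le
  have e3 : s = s' := h.un s hs s' hs' ((e1.symm.trans (sm_zpow g j w hmv)).trans e2)
  subst e3
  obtain ⟨k, hk, hk1, hk2⟩ := normal g s (h.mv s hs)
  rw [← hk1] at h2 h4 hk2
  rcases hk with rfl | rfl
  · exact not_both k _ w hk2 h1 h2 j hj h3 h4
  · refine not_both g⁻¹ _ w hk2 h1 h2 (-j) (neg_ne_zero.2 hj) ?_ ?_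
    · rw [inv_zpow', neg_neg]; exact h3
    · rw [inv_zpow', neg_neg]; exact h4

theorem hul (h : Dat g D m) : sp g ⊆ cv (Ft (g, D)) := by
  intro w hw
  by_cases hD : w ∈ D
  · have hD' := hD
    rw [h.eq] at hD'
    obtain ⟨s, hs, h1, h2⟩ := hD'
    obtain ⟨k, hk, hk1, hk2⟩ := normal g s (h.mv s hs)
    have h0 : min s (g s) ∈ D := by
      rw [h.eq]
      exact ⟨s, hs, le_rfl, hk2⟩
    have a1 : k (min s (g s)) ∈ Ft (g, D) ∧ k⁻¹ (min s (g s)) ∈ Ft (g, D) := by
      have b1 := png h _ h0 1 one_ne_zero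
      have b2 := png h _ h0 (-1) (by norm_num)
      rw [zpow_one] at b1
      rw [zpow_neg_one] at b2
      rcases hk with rfl | rfl
      · exact ⟨b1, b2⟩
      · rw [inv_inv]
        exact ⟨b2, b1⟩
    refine ⟨k⁻¹ (min s (g s)), a1.2, k (min s (g s)), a1.1, ?_, ?_⟩
    · refine le_trans ?_ h1
      have h3 : k⁻¹ (min s (g s)) < k⁻¹ (k (min s (g s))) := by
        apply (k⁻¹ : Hm).strictMono
        rw [hk1]
        exact hk2
      rw [inv_app_self] at h3
      exact h3.le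
    · rw [hk1]
      exact h2.le
  · exact ⟨w, ⟨hw, hD⟩, w, ⟨hw, hD⟩, le_rfl, le_rfl⟩

theorem ne (hg : g ≠ 1) (h : Dat g D m) : (Ft (g, D)).Nonempty := by
  obtain ⟨w, hw⟩ : ∃ w, g w ≠ w := by
    by_contra hc
    push Not at hc
    exact hg (by ext w; exact hc w)
  obtain ⟨a, ha, _⟩ := hul h hw
  exact ⟨a, ha⟩

theorem adR (h : Dat g D m) (u v : ℝ) (huv : u < v) (hu : g u = u)
    (hm : ∀ w, u < w → w < v → g w ≠ w) :
    ∃ v', u < v' ∧ ∀ w, u < w → w < v' → w ∈ Ft (g, D) := by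
  obtain ⟨s, hs, hs1⟩ := h.ex ((u + v) / 2) (hm _ (by linarith) (by linarith))
  have hus : u < s := by
    by_contra hc
    push Not at hc
    exact hs1 u (mem_uIcc.2 (Or.inr ⟨hc, by linarith⟩)) hu
  have hugs : u < g s := by
    have := g.strictMono hus
    rwa [hu] at this
  refine ⟨min v (min s (g s)), lt_min huv (lt_min hus hugs), ?_⟩
  intro w h1 h2
  have h3 : w < v := lt_of_lt_of_le h2 (min_le_left _ _)
  have h4 : w < min s (g s) := lt_of_lt_of_le h2 (min_le_right _ _)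
  refine ⟨hm w h1 h3, ?_⟩
  intro hD
  change w ∈ D at hD
  rw [h.eq] at hD
  obtain ⟨s', hs', h5, h6⟩ := hD
  have e1 : Sm g w s' := sm_marker g s' w (h.mv s' hs') h5 h6.le
  have e2 : Sm g w ((u + v) / 2) := by
    intro t ht
    rcases mem_uIcc.1 ht with h7 | h7
    · exact hm t (lt_of_lt_of_le h1 h7.1) (lt_of_le_of_lt h7.2 (by linarith))
    · exact hm t (lt_of_lt_of_le (by linarith) h7.1) (lt_of_le_of_lt h7.2 h3)
  have e3 : s' = s := h.un s' hs' s hs ((e1.symm.trans e2).trans hs1)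
  subst e3
  exact absurd h4 (not_lt.2 h5)

theorem adL (h : Dat g D m) (u v : ℝ) (huv : u < v) (hv : g v = v)
    (hm : ∀ w, u < w → w < v → g w ≠ w) :
    ∃ u', u' < v ∧ ∀ w, u' < w → w < v → w ∈ Ft (g, D) := by
  obtain ⟨s, hs, hs1⟩ := h.ex ((u + v) / 2) (hm _ (by linarith) (by linarith))
  have hsv : s < v := by
    by_contra hc
    push Not at hc
    exact hs1 v (mem_uIcc.2 (Or.inl ⟨by linarith, hc⟩)) hv
  have hgsv : g s < v := by
    have := g.strictMono hsv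
    rwa [hv] at this
  refine ⟨max u (max s (g s)), max_lt huv (max_lt hsv hgsv), ?_⟩
  intro w h1 h2
  have h3 : u < w := lt_of_le_of_lt (le_max_left _ _) h1
  have h4 : max s (g s) < w := lt_of_le_of_lt (le_max_right _ _) h1
  refine ⟨hm w h3 h2, ?_⟩
  intro hD
  change w ∈ D at hD
  rw [h.eq] at hD
  obtain ⟨s', hs', h5, h6⟩ := hD
  have e1 : Sm g w s' := sm_marker g s' w (h.mv s' hs') h5 h6.le
  have e2 : Sm g w ((u + v) / 2) := by
    intro t ht
    rcases mem_uIcc.1 ht with h7 | h7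
    · exact hm t (lt_of_lt_of_le h3 h7.1) (lt_of_le_of_lt h7.2 (by linarith))
    · exact hm t (lt_of_lt_of_le (by linarith) h7.1) (lt_of_le_of_lt h7.2 h2)
  have e3 : s' = s := h.un s' hs' s hs ((e1.symm.trans e2).trans hs1)
  subst e3
  exact absurd h6 (not_lt.2 h4.le)

end

theorem specFU : SpecFU := by
  intro g D hg hF
  obtain ⟨m, h1, h2, h3, h4⟩ := hF
  have h : Dat g D m := ⟨h1, h2, h3, h4⟩
  exact ⟨sub h, png h, hul h, ne hg h, fun u v => adR h u v, fun u v => adL h u v⟩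

end FPT.GF.FUM
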