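import Pool.Agent.Lib.MP_c27bde_al.GF.Spec

/-!
MP_c27bde_al, GF, module LB (helper56): labels.

`T A B n` is decreasing in `n` and monotone in `A` and `B`.  For `p, q` inside `x` and copies
`p' = x^m p x^-m`, `q' = x^m' q x^-m'` with `m ≠ m'` one conjugates back by `x^m` or `x^m'`: the feet of
the remaining copy are contained in the feet of `x` (ping-pong), and both label bounds follow by
induction on `n`.
-/

set_option autoImplicit false

namespace FPT.GF.LBM

open Set FPT FPT.GF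

/-- the hull is monotone -/
theorem cv_mono {S S' : Set ℝ} (h : S ⊆ S') : cv S ⊆ cv S' := by
  rintro w ⟨a, ha, b, hb, h1, h2⟩
  exact ⟨a, h ha, b, h hb, h1, h2⟩

/-- a set is contained in its hull -/
theorem sub_cv (S : Set ℝ) : S ⊆ cv S := fun w hw => ⟨w, hw, w, hw, le_rfl, le_rfl⟩

/-- the hull of the hull -/
theorem cv_cv (S : Set ℝ) : cv (cv S) ⊆ cv S := by
  rintro w ⟨a, ⟨a1, ha1, _, _, h1, _⟩, b, ⟨_, _, b2, hb2, _, h4⟩, h5, h6⟩
  exact ⟨a1, ha1, b2, hb2, h1.trans h5, h6.trans h4⟩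

/-- the hull is convex -/
theorem cv_ordConnected (S : Set ℝ) : (cv S).OrdConnected := by
  refine ⟨fun a ha b hb w hw => cv_cv S ⟨a, ha, b, hb, hw.1, hw.2⟩⟩

/-- the hull of the empty set -/
theorem cv_empty : cv (∅ : Set ℝ) = ∅ := by
  ext w
  constructor
  · rintro ⟨a, ha, _⟩
    exact ha.elim
  · intro h
    exact h.elim

/-- every `T A B n` is equal to its hull -/
theorem cv_T (A B : Set ℝ) (n : ℕ) : cv (T A B n) ⊆ T A B n := by
  cases n with
  | zero => exact cv_cv B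
  | succ n => exact cv_cv _

/-- `T` decreases -/
theorem anti (A B : Set ℝ) (n : ℕ) : T A B (n + 1) ⊆ T A B n :=
  (cv_mono inter_subset_right).trans (cv_T A B n)

/-- `T` is monotone in both arguments -/
theorem T_mono {A A' B B' : Set ℝ} (hA : A ⊆ A') (hB : B ⊆ B') (n : ℕ) :
    T A B n ⊆ T A' B' n := by
  induction n with
  | zero => exact cv_mono hB
  | succ n ih =>
    apply cv_mono
    apply inter_subset_inter _ ih
    by_cases hn : Even n
    · simp only [hn, if_true]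
      exact hA
    · simp only [hn, if_false]
      exact hB

/-- the shift: if `B' ⊆ A'` and `B' ⊆ cv B` then `T B B' n ⊆ T A' B (n+1)` -/
theorem T_shift {A' B B' : Set ℝ} (h1 : B' ⊆ A') (h2 : B' ⊆ cv B) (n : ℕ) :
    T B B' n ⊆ T A' B (n + 1) := by
  induction n with
  | zero =>
    have h0 : T A' B (0 + 1) = cv (A' ∩ cv B) := by
      simp only [T, Even.zero, if_true]
    rw [h0]
    exact cv_mono (subset_inter h1 h2)
  | succ n ih =>
    apply cv_mono
    apply inter_subset_inter _ ih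
    by_cases hn : Even n
    · have hn' : ¬ Even (n + 1) := by
        intro h
        exact (Nat.even_add_one.mp h) hn
      simp only [hn, hn', if_true, if_false]
      exact subset_rfl
    · have hn' : Even (n + 1) := Nat.even_add_one.mpr hn
      simp only [hn, hn', if_true, if_false]
      exact h1

/-- ping-pong for the feet of a copy -/
theorem ft_copy (hCJ : SpecCJ) {x q : ME} (hx : Nice x) (hq : Ins x q) {j : ℤ} (hj : j ≠ 0) :
    Ft (cj (x.1 ^ j) q) ⊆ Ft x := by
  rw [hCJ.ft]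
  rintro w ⟨u, hu, rfl⟩
  exact hx.png u (hq hu) j hj

/-- a copy is a copy of a copy -/
theorem cj_split (hCJ : SpecCJ) (g : Hm) (m m' : ℤ) (q : ME) :
    cj (g ^ m') q = cj (g ^ m) (cj (g ^ (m' - m)) q) := by
  rw [hCJ.comp, ← zpow_add]
  congr 2
  ring

theorem lab1 (hCJ : SpecCJ) (x p q : ME) (hx : Nice x) (hp : Nice p) (_hq : Nice q)
    (hxp : Ins x p) (hxq : Ins x q) (m m' : ℤ) (hm : m ≠ m') (c : ℕ) (hL : Lab (c + 1) x p) :
    Lab c (cj (x.1 ^ m) p) (cj (x.1 ^ m') q) := by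
  rw [cj_split hCJ x.1 m m' q, hCJ.lab]
  intro hI
  have hj : m' - m ≠ 0 := sub_ne_zero.mpr (Ne.symm hm)
  have h1 : Ft (cj (x.1 ^ (m' - m)) q) ⊆ Ft x := ft_copy hCJ hx hxq hj
  have h2 : Ft (cj (x.1 ^ (m' - m)) q) ⊆ cv (Ft p) := fun w hw => hp.hul (hp.sub (hI hw))
  have h3 := T_shift h1 h2 c
  rw [hL hxp] at h3
  exact subset_empty_iff.mp h3

theorem lab2 (hCJ : SpecCJ) (x p q : ME) (hx : Nice x) (_hp : Nice p) (_hq : Nice q)
    (hxp : Ins x p) (hxq : Ins x q) (m m' : ℤ) (hm : m ≠ m') (c : ℕ) (hL : Lab c x q) :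
    Lab c (cj (x.1 ^ m) p) (cj (x.1 ^ m') q) := by
  rw [cj_split hCJ x.1 m' m p, hCJ.lab]
  intro _
  have hj : m - m' ≠ 0 := sub_ne_zero.mpr hm
  have h1 : Ft (cj (x.1 ^ (m - m')) p) ⊆ Ft x := ft_copy hCJ hx hxp hj
  have h3 := T_mono h1 (subset_refl (Ft q)) c
  rw [hL hxq] at h3
  exact subset_empty_iff.mp h3

/-- MODULE LB. -/
theorem specLB (hCJ : SpecCJ) : SpecLB where
  anti := anti
  mono := by
    intro c p q h hI
    have h1 := anti (Ft p) (Ft q) c
    rw [h hI] at h1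
    exact subset_empty_iff.mp h1
  zero := by
    intro p q hq h hI
    have h0 : cv (Ft q) = ∅ := h hI
    obtain ⟨w, hw⟩ := hq.ne
    have h1 := sub_cv (Ft q) hw
    rw [h0] at h1
    exact h1
  lab1 := lab1 hCJ
  lab2 := lab2 hCJ

end FPT.GF.LBM
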