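import Pool.Agent.Lib.MP_c27bde_al.GF.Spec

/-!
# GF/LF (helper95): labels are finite
-/

set_option autoImplicit false

namespace FPT.GF.LFM

open Set FPT

/-- One piece of `A` is lost in two steps. -/
theorem step (A B : Set ℝ) (hAB : Disjoint A B) (n n' : ℕ) (C : Fin n → Set ℝ)
    (hC : ∀ i, (C i).OrdConnected) (hA : A = ⋃ i, C i) (C' : Fin n' → Set ℝ)
    (hC' : ∀ i, (C' i).OrdConnected) (hB : B = ⋃ i, C' i) (k : ℕ) (hk : Even k)
    (hne : (T A B (k + 2)).Nonempty) :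
    ∃ i, (C i ∩ T A B k).Nonempty ∧ ¬ (C i ∩ T A B (k + 2)).Nonempty := by
  classical
  have hk1 : ¬ Even (k + 1) := by
    rw [Nat.even_add_one]
    exact not_not.2 hk
  have t1 : T A B (k + 1) = cv (A ∩ T A B k) := by
    show cv ((if Even k then A else B) ∩ T A B k) = _
    rw [if_pos hk]
  have t2 : T A B (k + 2) = cv (B ∩ T A B (k + 1)) := by
    show cv ((if Even (k + 1) then A else B) ∩ T A B (k + 1)) = _
    rw [if_neg hk1]
  have hdis : ∀ w, w ∈ A → w ∈ B → False := fun w h1 h2 => (Set.disjoint_left.1 hAB) h1 h2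
  obtain ⟨w0, hw0⟩ := hne
  rw [t2] at hw0
  obtain ⟨b0, hb0, _⟩ := hw0
  let J : Finset (Fin n') := Finset.univ.filter (fun j => (C' j ∩ T A B (k + 1)).Nonempty)
  have hJ : J.Nonempty := by
    have h1 := hb0.1
    rw [hB] at h1
    obtain ⟨j, hj⟩ := Set.mem_iUnion.1 h1
    exact ⟨j, Finset.mem_filter.2 ⟨Finset.mem_univ _, ⟨b0, hj, hb0.2⟩⟩⟩
  let bb : Fin n' → ℝ := fun j => if h : (C' j ∩ T A B (k + 1)).Nonempty then h.choose else 0
  have hbb : ∀ j ∈ J, bb j ∈ C' j ∩ T A B (k + 1) := by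
    intro j hj
    have h1 := (Finset.mem_filter.1 hj).2
    show (if h : (C' j ∩ T A B (k + 1)).Nonempty then h.choose else 0) ∈ _
    rw [dif_pos h1]
    exact h1.choose_spec
  obtain ⟨js, hjs, hmin⟩ := Finset.exists_min_image J bb hJ
  have hbs := hbb js hjs
  have hbsB : bb js ∈ B := by
    rw [hB]
    exact Set.mem_iUnion.2 ⟨js, hbs.1⟩
  have h2 := hbs.2
  rw [t1] at h2
  obtain ⟨a, ha, _, _, hab, _⟩ := h2
  have hlt : a < bb js := by
    rcases lt_or_eq_of_le hab with h | h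
    · exact h
    · exact absurd hbsB (fun h' => hdis a ha.1 (h ▸ h'))
  have hright : ∀ b' ∈ B ∩ T A B (k + 1), a < b' := by
    intro b' hb'
    by_contra hcon
    have hle : b' ≤ a := not_lt.1 hcon
    have h1 := hb'.1
    rw [hB] at h1
    obtain ⟨j, hj⟩ := Set.mem_iUnion.1 h1
    have hjJ : j ∈ J := Finset.mem_filter.2 ⟨Finset.mem_univ _, ⟨b', hj, hb'.2⟩⟩
    have h3 : bb js ≤ bb j := hmin j hjJ
    have h4 : a ∈ C' j := (hC' j).out hj (hbb j hjJ).1 ⟨hle, hlt.le.trans h3⟩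
    refine hdis a ha.1 ?_
    rw [hB]
    exact Set.mem_iUnion.2 ⟨j, h4⟩
  have haA := ha.1
  rw [hA] at haA
  obtain ⟨i, hi⟩ := Set.mem_iUnion.1 haA
  refine ⟨i, ⟨a, hi, ha.2⟩, ?_⟩
  rintro ⟨w, hwi, hw⟩
  rw [t2] at hw
  obtain ⟨b', hb', _, _, hbw, _⟩ := hw
  have h5 : b' ∈ C i := (hC i).out hi hwi ⟨(hright b' hb').le, hbw⟩
  refine hdis b' ?_ hb'.1
  rw [hA]
  exact Set.mem_iUnion.2 ⟨i, h5⟩

/-- LF. -/
theorem specLF (hLB : SpecLB) : SpecLF := by
  classical
  intro A B hAB ⟨n, C, hC, hA⟩ ⟨n', C', hC', hB⟩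
  by_contra hcon
  have hne : ∀ c, (T A B c).Nonempty := by
    intro c
    rw [Set.nonempty_iff_ne_empty]
    intro h
    exact hcon ⟨c, h⟩
  let I : ℕ → Finset (Fin n) := fun k => Finset.univ.filter (fun i => (C i ∩ T A B k).Nonempty)
  have hanti : ∀ k, T A B (k + 2) ⊆ T A B k := fun k =>
    (hLB.anti A B (k + 1)).trans (hLB.anti A B k)
  have hlt : ∀ k, Even k → (I (k + 2)).card < (I k).card := by
    intro k hk
    obtain ⟨i, h1, h2⟩ := step A B hAB n n' C hC hA C' hC' hB k hk (hne (k + 2))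
    refine Finset.card_lt_card ⟨?_, ?_⟩
    · intro j hj
      obtain ⟨w, hw⟩ := (Finset.mem_filter.1 hj).2
      exact Finset.mem_filter.2 ⟨Finset.mem_univ _, ⟨w, hw.1, hanti k hw.2⟩⟩
    · intro hsub
      have h3 : i ∈ I (k + 2) := hsub (Finset.mem_filter.2 ⟨Finset.mem_univ _, h1⟩)
      exact h2 (Finset.mem_filter.1 h3).2
  have hsum : ∀ m : ℕ, (I (2 * m)).card + m ≤ n := by
    intro m
    induction m with
    | zero =>
      have h1 := Finset.card_filter_le (Finset.univ : Finset (Fin n))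
        (fun i => (C i ∩ T A B 0).Nonempty)
      have h2 : (Finset.univ : Finset (Fin n)).card = n := by simp
      have h3 : (I (2 * 0)).card ≤ n := le_of_le_of_eq h1 h2
      omega
    | succ m ih =>
      have h1 := hlt (2 * m) (even_two_mul m)
      have h2 : 2 * (m + 1) = 2 * m + 2 := by ring
      rw [h2]
      omega
  have := hsum (n + 1)
  omega

end FPT.GF.LFM
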