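import Pool.Agent.Lib.MP_c27bde_al.GF.Spec

set_option autoImplicit false

namespace FPT.GF.MNM

open Set FPT FPT.GF

theorem specMN (hCO : SpecCO) (hES : SpecES) (hOI : SpecOI) : SpecMN := by
  intro K hPL hBal X hG hK
  have acc := hCO X hG
  revert hG hK
  induction acc with
  | intro Z _ ih =>
    intro hG hK
    refine hES K hPL hBal Z hG hK ?_
    intro x hx M
    refine ih (nx Z x M) ⟨x, hx, M, Set.Subset.rfl⟩ (hOI.nxg Z hG x hx.1 M) ?_
    rintro p ⟨q, hq, _, m, _, rfl⟩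
    have hxm : x.1 ^ m ∈ K := K.zpow_mem (hK x hx.1) m
    exact K.mul_mem (K.mul_mem hxm (hK q hq)) (K.inv_mem hxm)

end FPT.GF.MNM
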