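import Pool.Agent.Lib.MP_c27bde_al.GF.Spec

set_option autoImplicit false

namespace FPT.GF.NGM

open Set FPT FPT.GF

/-- same orbital -/
def R (y : Hm) (u v : ℝ) : Prop := ∀ t ∈ uIcc u v, y t ≠ t

theorem R_symm {y : Hm} {u v : ℝ} (h : R y u v) : R y v u := by
  intro t ht; exact h t (by rwa [uIcc_comm])

theorem R_trans {y : Hm} {u v w : ℝ} (h : R y u v) (h' : R y v w) : R y u w := by
  intro t ht
  rcases uIcc_subset_uIcc_union_uIcc (b := v) ht with h1 | h1
  · exact h t h1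
  · exact h' t h1

theorem int_rel {y : Hm} {s w : ℝ} (hs : y s ≠ s) (h1 : min s (y s) ≤ w)
    (h2 : w < max s (y s)) : R y w s := by
  intro t ht hfix
  rcases lt_or_gt_of_ne hs with hlt | hlt
  · rw [min_eq_right hlt.le] at h1
    rw [max_eq_left hlt.le] at h2
    rw [uIcc_of_le h2.le] at ht
    rcases eq_or_lt_of_le ht.2 with he | he
    · rw [he] at hfix; exact hs hfix
    · have := y.lt_iff_lt.2 he
      rw [hfix] at this
      linarith [ht.1]
  · rw [min_eq_left hlt.le] at h1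
    rw [max_eq_right hlt.le] at h2
    rw [uIcc_comm, uIcc_of_le h1] at ht
    have := y.monotone ht.1
    rw [hfix] at this
    linarith [ht.2]

theorem nbhd {y : Hm} {u : ℝ} (h : y u ≠ u) : ∃ ε > 0, ∀ w, u - ε < w → w < u + ε → y w ≠ w := by
  have hc : Continuous y := y.continuous
  have ho : IsOpen {w | y w ≠ w} := isOpen_ne_fun hc continuous_id
  obtain ⟨ε, hε, hb⟩ := Metric.isOpen_iff.1 ho u h
  refine ⟨ε, hε, fun w h1 h2 => hb ?_⟩
  rw [Metric.mem_ball, Real.dist_eq, abs_lt]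
  constructor <;> linarith

theorem core (hFU : SpecFU) (x y : Hm) (Dx Dy : Set ℝ) (hx : Fund x Dx) (hy : Fund y Dy)
    (hd : Disjoint (sp x \ Dx) (sp y \ Dy)) (hx1 : x ≠ 1) (p q1 q q2 r : ℝ) (hp : p < q1)
    (h1 : q1 ≤ q) (h2 : q ≤ q2) (hr : q2 < r) (f1 : x q1 = q1) (f2 : x q2 = q2)
    (m1 : ∀ w, p < w → w < q1 → x w ≠ w) (m2 : ∀ w, q2 < w → w < r → x w ≠ w)
    (hm : ∀ t, q1 ≤ t → t ≤ q2 → y t ≠ t) (hq : q ∈ sp y \ Dy) : False := by
  obtain ⟨-, -, -, -, adR, adL⟩ := hFU x Dx hx1 hx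
  obtain ⟨m, hms, hmo, hmu, hD⟩ := hy
  obtain ⟨s, hs, hqs⟩ := hmo q hq.1
  have hnot : ¬ (min s (y s) ≤ q ∧ q < max s (y s)) := by
    intro hc
    apply hq.2
    rw [hD]
    exact ⟨s, hs, hc⟩
  -- a point in the orbital outside of the interval of `s` is in the foot of `y`
  have key : ∀ w, R y w q → ¬ (min s (y s) ≤ w ∧ w < max s (y s)) → w ∈ sp y \ Dy := by
    intro w hw hnw
    refine ⟨hw w left_mem_uIcc, ?_⟩
    intro hwD
    rw [hD] at hwD
    obtain ⟨s', hs', hi⟩ := hwD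
    have hr1 : R y s s' := R_trans (R_symm (R_trans hw hqs)) (int_rel (hms s' hs') hi.1 hi.2)
    have he : s = s' := hmu s hs s' hs' hr1
    rw [← he] at hi
    exact hnw hi
  rcases lt_or_ge q (min s (y s)) with hA | hB
  · obtain ⟨u', hu', hft⟩ := adL p q1 hp f1 m1
    obtain ⟨ε, hε, hnb⟩ := nbhd (hm q1 le_rfl (h1.trans h2))
    set w := (max u' (q1 - ε) + q1) / 2 with hw
    have hmx : max u' (q1 - ε) < q1 := max_lt hu' (by linarith)
    have hw1 : u' < w := by have := le_max_left u' (q1 - ε); linarith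
    have hw2 : q1 - ε < w := by have := le_max_right u' (q1 - ε); linarith
    have hw3 : w < q1 := by linarith
    have hwq : R y w q := by
      intro t ht
      rw [uIcc_of_le (hw3.le.trans h1)] at ht
      rcases lt_or_ge t q1 with h | h
      · exact hnb t (by linarith [ht.1]) (by linarith)
      · exact hm t h (ht.2.trans h2)
    refine Set.disjoint_left.1 hd (hft w hw1 hw3) (key w hwq ?_)
    rintro ⟨ha, -⟩
    linarith
  · have hB' : max s (y s) ≤ q := by
      by_contra hc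
      exact hnot ⟨hB, not_le.1 hc⟩
    obtain ⟨v', hv', hft⟩ := adR q2 r hr f2 m2
    obtain ⟨ε, hε, hnb⟩ := nbhd (hm q2 (h1.trans h2) le_rfl)
    set w := (min v' (q2 + ε) + q2) / 2 with hw
    have hmx : q2 < min v' (q2 + ε) := lt_min hv' (by linarith)
    have hw1 : w < v' := by have := min_le_left v' (q2 + ε); linarith
    have hw2 : w < q2 + ε := by have := min_le_right v' (q2 + ε); linarith
    have hw3 : q2 < w := by linarith
    have hwq : R y w q := by
      intro t ht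
      rw [uIcc_comm, uIcc_of_le (h2.trans hw3.le)] at ht
      rcases lt_or_ge q2 t with h | h
      · exact hnb t (by linarith) (by linarith [ht.2])
      · exact hm t (h1.trans ht.1) h
    refine Set.disjoint_left.1 hd (hft w hw3 hw1) (key w hwq ?_)
    rintro ⟨-, ha⟩
    linarith

/-- the left end of the component of `q` in the fixed set -/
theorem leftEnd (x : Hm) (hx : IsPL x) (p q : ℝ) (hpq : p < q) (hp : x p ≠ p) (hq : x q = q) :
    ∃ q1, p < q1 ∧ q1 ≤ q ∧ (∀ t, q1 ≤ t → t ≤ q → x t = t) ∧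
      ∃ p', p' < q1 ∧ ∀ w, p' < w → w < q1 → x w ≠ w := by
  have hc : Continuous x := x.continuous
  set S : Set ℝ := {t | p ≤ t ∧ t ≤ q ∧ ∀ w, t ≤ w → w ≤ q → x w = w} with hS
  have hqS : q ∈ S := ⟨hpq.le, le_rfl, fun w h1 h2 => by rw [le_antisymm h2 h1]; exact hq⟩
  have hbd : BddBelow S := ⟨p, fun t ht => ht.1⟩
  set q1 := sInf S with hq1
  have h1 : q1 ≤ q := csInf_le hbd hqS
  have h2 : p ≤ q1 := le_csInf ⟨q, hqS⟩ (fun t ht => ht.1)
  have h3 : ∀ t, q1 < t → t ≤ q → x t = t := by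
    intro t ht1 ht2
    obtain ⟨t', ht', hlt⟩ := exists_lt_of_csInf_lt ⟨q, hqS⟩ ht1
    exact ht'.2.2 t hlt.le ht2
  have h4 : x q1 = q1 := by
    rcases eq_or_lt_of_le h1 with he | hlt
    · rw [he]; exact hq
    · have hcl : IsClosed {w | x w = w} := isClosed_eq hc continuous_id
      have hsub : closure (Ioo q1 q) ⊆ {w | x w = w} :=
        closure_minimal (fun t ht => h3 t ht.1 ht.2.le) hcl
      rw [closure_Ioo hlt.ne] at hsub
      exact hsub ⟨le_rfl, hlt.le⟩
  have h5 : ∀ t, q1 ≤ t → t ≤ q → x t = t := by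
    intro t ht1 ht2
    rcases eq_or_lt_of_le ht1 with he | hlt
    · rw [← he]; exact h4
    · exact h3 t hlt ht2
  have h6 : p < q1 := by
    rcases eq_or_lt_of_le h2 with he | hlt
    · rw [← he] at h4; exact absurd h4 hp
    · exact hlt
  have h7 : el x q1 ≠ 0 := by
    intro h0
    obtain ⟨ε, hε, hfix⟩ := FINM.pl2.el0 x q1 hx h4 h0
    have hmem : max p (q1 - ε) ∈ S := by
      refine ⟨le_max_left _ _, (max_le h2 (by linarith)).trans h1, ?_⟩
      intro w hw1 hw2
      rcases le_or_gt q1 w with h | h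
      · exact h5 w h hw2
      · exact hfix w ((le_max_right _ _).trans hw1) h.le
    have := csInf_le hbd hmem
    rw [← hq1] at this
    have h8 : max p (q1 - ε) < q1 := max_lt h6 (by linarith)
    linarith
  refine ⟨q1, h6, h1, h5, ?_⟩
  rcases lt_or_gt_of_ne h7 with hn | hn
  · obtain ⟨ε, hε, hmv⟩ := FINM.pl2.eln x q1 hx h4 hn
    exact ⟨q1 - ε, by linarith, fun w hw1 hw2 => (hmv w hw1.le hw2).ne'⟩
  · obtain ⟨ε, hε, hmv⟩ := FINM.pl2.elp x q1 hx h4 hn
    exact ⟨q1 - ε, by linarith, fun w hw1 hw2 => (hmv w hw1.le hw2).ne⟩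

theorem rightEnd (x : Hm) (hx : IsPL x) (q r : ℝ) (hqr : q < r) (hr : x r ≠ r) (hq : x q = q) :
    ∃ q2, q ≤ q2 ∧ q2 < r ∧ (∀ t, q ≤ t → t ≤ q2 → x t = t) ∧
      ∃ r', q2 < r' ∧ ∀ w, q2 < w → w < r' → x w ≠ w := by
  have hc : Continuous x := x.continuous
  set S : Set ℝ := {t | q ≤ t ∧ t ≤ r ∧ ∀ w, q ≤ w → w ≤ t → x w = w} with hS
  have hqS : q ∈ S := ⟨le_rfl, hqr.le, fun w h1 h2 => by rw [le_antisymm h2 h1]; exact hq⟩
  have hbd : BddAbove S := ⟨r, fun t ht => ht.2.1⟩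
  set q2 := sSup S with hq2
  have h1 : q ≤ q2 := le_csSup hbd hqS
  have h2 : q2 ≤ r := csSup_le ⟨q, hqS⟩ (fun t ht => ht.2.1)
  have h3 : ∀ t, q ≤ t → t < q2 → x t = t := by
    intro t ht1 ht2
    obtain ⟨t', ht', hlt⟩ := exists_lt_of_lt_csSup ⟨q, hqS⟩ ht2
    exact ht'.2.2 t ht1 hlt.le
  have h4 : x q2 = q2 := by
    rcases eq_or_lt_of_le h1 with he | hlt
    · rw [← he]; exact hq
    · have hcl : IsClosed {w | x w = w} := isClosed_eq hc continuous_id
      have hsub : closure (Ioo q q2) ⊆ {w | x w = w} :=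
        closure_minimal (fun t ht => h3 t ht.1.le ht.2) hcl
      rw [closure_Ioo hlt.ne] at hsub
      exact hsub ⟨hlt.le, le_rfl⟩
  have h5 : ∀ t, q ≤ t → t ≤ q2 → x t = t := by
    intro t ht1 ht2
    rcases eq_or_lt_of_le ht2 with he | hlt
    · rw [he]; exact h4
    · exact h3 t ht1 hlt
  have h6 : q2 < r := by
    rcases eq_or_lt_of_le h2 with he | hlt
    · rw [he] at h4; exact absurd h4 hr
    · exact hlt
  have h7 : er x q2 ≠ 0 := by
    intro h0
    obtain ⟨ε, hε, hfix⟩ := FINM.pl2.er0 x q2 hx h4 h0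
    have hmem : min r (q2 + ε) ∈ S := by
      refine ⟨h1.trans (le_min h2 (by linarith)), min_le_left _ _, ?_⟩
      intro w hw1 hw2
      rcases le_or_gt w q2 with h | h
      · exact h5 w hw1 h
      · exact hfix w h.le (hw2.trans (min_le_right _ _))
    have := le_csSup hbd hmem
    rw [← hq2] at this
    have h8 : q2 < min r (q2 + ε) := lt_min h6 (by linarith)
    linarith
  refine ⟨q2, h1, h6, h5, ?_⟩
  rcases lt_or_gt_of_ne h7 with hn | hn
  · obtain ⟨ε, hε, hmv⟩ := FINM.pl2.ern x q2 hx h4 hn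
    exact ⟨q2 + ε, by linarith, fun w hw1 hw2 => (hmv w hw1 hw2.le).ne⟩
  · obtain ⟨ε, hε, hmv⟩ := FINM.pl2.erp x q2 hx h4 hn
    exact ⟨q2 + ε, by linarith, fun w hw1 hw2 => (hmv w hw1 hw2.le).ne'⟩

theorem ne_one (x : Hm) (p : ℝ) (h : x p ≠ p) : x ≠ 1 := by
  intro he; rw [he] at h; exact h rfl

theorem specNG (hFU : SpecFU) : SpecNG := by
  constructor
  · intro f g D hf hg hG x hx y hy hne p q r hpq hqr hp hr hmv hq hfix
    have hxpl : IsPL x := by
      rcases hx with rfl | hx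
      · exact hf
      · rw [mem_singleton_iff] at hx; rw [hx]; exact hg
    obtain ⟨q1, a1, a2, a3, p', a4, a5⟩ := leftEnd x hxpl p q hpq hp hfix
    obtain ⟨q2, b1, b2, b3, r', b4, b5⟩ := rightEnd x hxpl q r hqr hr hfix
    have hfx : ∀ t, q1 ≤ t → t ≤ q2 → x t = t := by
      intro t h1 h2
      rcases le_total t q with h | h
      · exact a3 t h1 h
      · exact b3 t h h2
    refine core hFU x y (D x) (D y) (hG.1 x hx) (hG.1 y hy) (hG.2 x hx y hy hne)
      (ne_one x p hp) p' q1 q q2 r' a4 a2 b1 b4 (hfx q1 le_rfl (a2.trans b1))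
      (hfx q2 (a2.trans b1) le_rfl) a5 b5 ?_ hq
    intro t h1 h2
    obtain ⟨z, hz, hzt⟩ := hmv t (a1.le.trans h1) (h2.trans b2.le)
    have hzx : z ≠ x := by
      rintro rfl
      exact hzt (hfx t h1 h2)
    have hzy : z = y := by
      simp only [mem_insert_iff, mem_singleton_iff] at hx hy hz
      rcases hx with rfl | rfl <;> rcases hy with rfl | rfl <;> rcases hz with rfl | rfl <;>
        first
          | rfl
          | exact absurd rfl hne
          | exact absurd rfl hzx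
    rw [← hzy]; exact hzt
  · intro X D hpl hG hfin x hx y hy hne p q r hpq hqr hp hr _ hq hfix
    have hF := hfin x hx p r hp hr
    set F : Set ℝ := {t | p ≤ t ∧ t ≤ r ∧ x t = t} with hFd
    have hF' : (F \ {q}).Finite := hF.subset Set.sdiff_subset
    have ho : IsOpen (F \ {q})ᶜ := hF'.isClosed.isOpen_compl
    obtain ⟨ε, hε, hb⟩ := Metric.isOpen_iff.1 ho q (by simp)
    have hmoved : ∀ w, q - ε < w → w < q + ε → w ≠ q → p ≤ w → w ≤ r → x w ≠ w := by
      intro w h1 h2 h3 h4 h5 h6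
      have hw : w ∈ (F \ {q})ᶜ := by
        apply hb
        rw [Metric.mem_ball, Real.dist_eq, abs_lt]
        constructor <;> linarith
      exact hw ⟨⟨h4, h5, h6⟩, h3⟩
    refine core hFU x y (D x) (D y) (hG.1 x hx) (hG.1 y hy) (hG.2 x hx y hy hne)
      (ne_one x p hp) (max p (q - ε)) q q q (min r (q + ε)) (max_lt hpq (by linarith)) le_rfl
      le_rfl (lt_min hqr (by linarith)) hfix hfix ?_ ?_ ?_ hq
    · intro w hw1 hw2
      exact hmoved w ((le_max_right _ _).trans_lt hw1) (by linarith) hw2.ne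
        ((le_max_left _ _).trans hw1.le) (hw2.le.trans hqr.le)
    · intro w hw1 hw2
      exact hmoved w (by linarith) (hw2.trans_le (min_le_right _ _)) hw1.ne'
        (hpq.le.trans hw1.le) (hw2.le.trans (min_le_left _ _))
    · intro t h1 h2
      rw [le_antisymm h2 h1]
      exact hq.1

end FPT.GF.NGM
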