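import Pool.Agent.Lib.MP_c27bde_al.GF.Spec

/-!
MP_c27bde_al, GF, module NI (helper25): marked PL elements are nice; the feet are a finite union of
intervals.
-/

set_option autoImplicit false

namespace FPT.GF.NIM

open Set FPT FPT.GF

/-- same orbital -/
def Sm (g : Hm) (u v : ℝ) : Prop := ∀ t ∈ uIcc u v, g t ≠ t

theorem sm_tr {g : Hm} {u v w : ℝ} (h1 : Sm g u v) (h2 : Sm g v w) : Sm g u w := by
  intro t ht
  rcases uIcc_subset_uIcc_union_uIcc (b := v) ht with h | h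
  · exact h1 t h
  · exact h2 t h

theorem sm_sy {g : Hm} {u v : ℝ} (h : Sm g u v) : Sm g v u := by
  intro t ht
  exact h t (by rwa [uIcc_comm])

/-- no fixed point in the closed interval between `s` and `g s` -/
theorem no_fix {g : Hm} {s t : ℝ} (hs : g s ≠ s) (h1 : min s (g s) ≤ t) (h2 : t ≤ max s (g s)) :
    g t ≠ t := by
  intro e
  have hg : g (g s) ≠ g s := fun e => hs (g.injective e)
  rcases lt_or_gt_of_ne hs with h | h
  · rw [min_eq_right h.le] at h1
    rw [max_eq_left h.le] at h2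
    have h3 : t ≤ g s := by
      have := g.monotone h2
      rwa [e] at this
    have h4 : t = g s := le_antisymm h3 h1
    rw [h4] at e
    exact hg e
  · rw [min_eq_left h.le] at h1
    rw [max_eq_right h.le] at h2
    have h3 : g s ≤ t := by
      have := g.monotone h1
      rwa [e] at this
    have h4 : t = g s := le_antisymm h2 h3
    rw [h4] at e
    exact hg e

theorem mark_sm {g : Hm} {s w : ℝ} (hs : g s ≠ s) (h1 : min s (g s) ≤ w) (h2 : w < max s (g s)) :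
    Sm g w s := by
  intro t ht
  rw [mem_uIcc] at ht
  have h3 : min s (g s) ≤ s := min_le_left _ _
  have h4 : s ≤ max s (g s) := le_max_left _ _
  rcases ht with ⟨h5, h6⟩ | ⟨h5, h6⟩
  · exact no_fix hs (h1.trans h5) (h6.trans h4)
  · exact no_fix hs (h3.trans h5) (h6.trans h2.le)

/-- the last fixed point before a moved point -/
theorem last_fix (g : Hm) (hg : IsPL g) (s : ℝ) (hs : g s ≠ s) :
    ∃ u, u < s ∧ g u = u ∧ er g u ≠ 0 ∧ ∀ t, u < t → t ≤ s → g t ≠ t := by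
  have hpos : 0 ≤ s := by
    by_contra h
    push Not at h
    exact hs (hg.1 s h.le)
  set S : Set ℝ := {x | x ≤ s ∧ g x = x} with hS
  have hne : S.Nonempty := ⟨0, hpos, hg.1 0 le_rfl⟩
  have hbd : BddAbove S := ⟨s, fun x hx => hx.1⟩
  have hcl : IsClosed S := by
    rw [hS]
    exact (isClosed_le continuous_id continuous_const).inter
      (isClosed_eq g.continuous continuous_id)
  have hmem := hcl.csSup_mem hne hbd
  set u := sSup S with hu
  have hus : u < s := by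
    refine lt_of_le_of_ne hmem.1 ?_
    intro e
    apply hs
    rw [← e]
    exact hmem.2
  have hfree : ∀ t, u < t → t ≤ s → g t ≠ t := by
    intro t h1 h2 e
    exact absurd (le_csSup hbd (⟨h2, e⟩ : t ∈ S)) (not_le.2 h1)
  refine ⟨u, hus, hmem.2, ?_, hfree⟩
  intro e
  obtain ⟨ε, hε, h⟩ := FINM.pl2.er0 g u hg hmem.2 e
  have h1 : u < min (u + ε) s := lt_min (by linarith) hus
  exact hfree _ h1 (min_le_right _ _) (h _ h1.le (min_le_left _ _))

theorem mark_fin (g : Hm) (hg : IsPL g) (m : Set ℝ) (hm : ∀ s ∈ m, g s ≠ s)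
    (hu : ∀ s ∈ m, ∀ s' ∈ m, (∀ t ∈ uIcc s s', g t ≠ t) → s = s') : m.Finite := by
  classical
  choose! f hf using fun s (hs : g s ≠ s) => last_fix g hg s hs
  have himg : (f '' m).Finite := by
    refine (FINM.plb.fixR g hg).subset ?_
    rintro _ ⟨s, hs, rfl⟩
    have := hf s (hm s hs)
    exact ⟨this.2.1, this.2.2.1⟩
  refine Set.Finite.of_finite_image himg ?_
  have key : ∀ s ∈ m, ∀ s' ∈ m, s ≤ s' → f s = f s' → s = s' := by
    intro s hs s' hs' hle he
    refine hu s hs s' hs' ?_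
    intro t ht
    rw [uIcc_of_le hle] at ht
    have h1 := (hf s (hm s hs)).1
    rw [he] at h1
    exact (hf s' (hm s' hs')).2.2.2 t (lt_of_lt_of_le h1 ht.1) ht.2
  intro s hs s' hs' he
  rcases le_total s s' with h | h
  · exact key s hs s' hs' h he
  · exact (key s' hs' s hs h he.symm).symm

/-- the pieces -/
def pc (g : Hm) (s : ℝ) : Bool → Set ℝ
  | true => {w | Sm g w s ∧ w < min s (g s)}
  | false => {w | Sm g w s ∧ max s (g s) ≤ w}

theorem pc_oc (g : Hm) (s : ℝ) (b : Bool) : (pc g s b).OrdConnected := by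
  cases b with
  | true =>
    refine ⟨?_⟩
    rintro x ⟨hx, hx1⟩ y ⟨hy, hy1⟩ z ⟨h1, h2⟩
    have h3 : z < min s (g s) := lt_of_le_of_lt h2 hy1
    have h4 : z ≤ s := h3.le.trans (min_le_left _ _)
    refine ⟨?_, h3⟩
    intro t ht
    rw [uIcc_of_le h4] at ht
    refine hx t ?_
    rw [uIcc_of_le (h1.trans h4)]
    exact ⟨h1.trans ht.1, ht.2⟩
  | false =>
    refine ⟨?_⟩
    rintro x ⟨hx, hx1⟩ y ⟨hy, hy1⟩ z ⟨h1, h2⟩
    have h3 : max s (g s) ≤ z := hx1.trans h1
    have h4 : s ≤ z := (le_max_left _ _).trans h3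
    refine ⟨?_, h3⟩
    intro t ht
    rw [uIcc_of_ge h4] at ht
    refine hy t ?_
    rw [uIcc_of_ge (h4.trans h2)]
    exact ⟨ht.1, ht.2.trans h2⟩

theorem ft_eq (g : Hm) (D m : Set ℝ) (hm : ∀ s ∈ m, g s ≠ s)
    (hc : ∀ w, g w ≠ w → ∃ s ∈ m, ∀ t ∈ uIcc w s, g t ≠ t)
    (hu : ∀ s ∈ m, ∀ s' ∈ m, (∀ t ∈ uIcc s s', g t ≠ t) → s = s')
    (hD : D = {w | ∃ s ∈ m, min s (g s) ≤ w ∧ w < max s (g s)}) :
    Ft (g, D) = ⋃ i : ↥m × Bool, pc g i.1 i.2 := by
  have hno : ∀ s ∈ m, ∀ w, Sm g w s → (w < min s (g s) ∨ max s (g s) ≤ w) → w ∉ D := by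
    intro s hs w hw h hwD
    rw [hD] at hwD
    obtain ⟨s', hs', h1, h2⟩ := hwD
    have e : s = s' := hu s hs s' hs' (sm_tr (sm_sy hw) (mark_sm (hm s' hs') h1 h2))
    subst e
    rcases h with h | h
    · exact absurd h1 (not_le.2 h)
    · exact absurd h2 (not_lt.2 h)
  ext w
  rw [mem_iUnion]
  constructor
  · rintro ⟨h1, h2⟩
    have h1' : g w ≠ w := h1
    have h2' : w ∉ D := h2
    obtain ⟨s, hs, h⟩ := hc w h1'
    by_cases h3 : w < min s (g s)
    · exact ⟨(⟨s, hs⟩, true), h, h3⟩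
    · refine ⟨(⟨s, hs⟩, false), h, ?_⟩
      by_contra h4
      push Not at h3 h4
      apply h2'
      rw [hD]
      exact ⟨s, hs, h3, h4⟩
  · rintro ⟨⟨⟨s, hs⟩, b⟩, hw⟩
    cases b with
    | true =>
      obtain ⟨h1, h2⟩ := hw
      exact ⟨h1 w left_mem_uIcc, hno s hs w h1 (Or.inl h2)⟩
    | false =>
      obtain ⟨h1, h2⟩ := hw
      exact ⟨h1 w left_mem_uIcc, hno s hs w h1 (Or.inr h2)⟩

/-- module NI -/
theorem specNI (FU : SpecFU) : SpecNI := by
  intro g D hg hne hF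
  obtain ⟨a1, a2, a3, a4, a5, a6⟩ := FU g D hne hF
  refine ⟨a1, a2, a3, a4, ?_, a5, a6⟩
  obtain ⟨m, hm, hc, hu, hD⟩ := hF
  have hfin : m.Finite := mark_fin g hg m hm hu
  have : Finite ↥m := hfin
  obtain ⟨n, ⟨e⟩⟩ := Finite.exists_equiv_fin (↥m × Bool)
  refine ⟨n, fun i => pc g (e.symm i).1 (e.symm i).2, fun i => pc_oc g _ _, ?_⟩
  rw [ft_eq g D m hm hc hu hD]
  ext w
  simp only [mem_iUnion]
  constructor
  · rintro ⟨i, hi⟩
    exact ⟨e i, by rw [Equiv.symm_apply_apply]; exact hi⟩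
  · rintro ⟨i, hi⟩
    exact ⟨e.symm i, hi⟩

end FPT.GF.NIM
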