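import Pool.Agent.Lib.MP_c27bde_al.GF.Spec

/-!
MP_c27bde_al, GF, module OI (helper25): the order `Ins` on good families.
-/

set_option autoImplicit false

namespace FPT.GF.OIM

open Set FPT FPT.GF

theorem cv_mono {A B : Set ℝ} (h : A ⊆ B) : cv A ⊆ cv B := by
  rintro w ⟨a, ha, b, hb, h1, h2⟩
  exact ⟨a, h ha, b, h hb, h1, h2⟩

theorem sub_cv (A : Set ℝ) : A ⊆ cv A := fun w hw => ⟨w, hw, w, hw, le_rfl, le_rfl⟩

theorem cv_cv (A : Set ℝ) : cv (cv A) ⊆ cv A := by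
  rintro w ⟨a, ⟨a1, ha1, a2, ha2, h1, h2⟩, b, ⟨b1, hb1, b2, hb2, h3, h4⟩, h5, h6⟩
  exact ⟨a1, ha1, b2, hb2, h1.trans h5, h6.trans h4⟩

theorem cv_le {A B : Set ℝ} (h : A ⊆ cv B) : cv A ⊆ cv B :=
  (cv_mono h).trans (cv_cv B)

/-- the points of `Ft q` are in the hull of `Ft p` if `q` is inside `p` -/
theorem ins_cv {p q : ME} (P : Nice p) (h : Ins p q) : Ft q ⊆ cv (Ft p) :=
  fun _ hw => P.hul (P.sub (h hw))

theorem irr (p : ME) (P : Nice p) : ¬ Ins p p := by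
  intro h
  obtain ⟨w, hw⟩ := P.ne
  exact hw.2 (h hw)

theorem T_eq {A B : Set ℝ} (h1 : A ⊆ cv B) (h2 : B ⊆ cv A) (n : ℕ) : T A B n = cv B := by
  induction n with
  | zero => rfl
  | succ n ih =>
    show cv ((if Even n then A else B) ∩ T A B n) = cv B
    rw [ih]
    by_cases e : Even n
    · rw [if_pos e, Set.inter_eq_left.2 h1]
      exact Set.Subset.antisymm (cv_le h1) (cv_le h2)
    · rw [if_neg e, Set.inter_eq_left.2 (sub_cv B)]

theorem asy (LF : SpecLF) (p q : ME) (P : Nice p) (Q : Nice q) (h : Ins p q) : ¬ Ins q p := by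
  intro h'
  have hd : Disjoint (Ft p) (Ft q) := by
    rw [Set.disjoint_left]
    intro w hw hw'
    exact hw.2 (h hw')
  obtain ⟨c, hc⟩ := LF (Ft p) (Ft q) hd P.fin Q.fin
  rw [T_eq (ins_cv Q h') (ins_cv P h) c] at hc
  obtain ⟨w, hw⟩ := Q.ne
  have : w ∈ cv (Ft q) := sub_cv _ hw
  rw [hc] at this
  exact this

theorem trans' (LF : SpecLF) (X : Set ME) (G : Good X) (p : ME) (hp : p ∈ X) (q : ME) (hq : q ∈ X)
    (r : ME) (hr : r ∈ X) (h1 : Ins p q) (h2 : Ins q r) : Ins p r := by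
  have P := G.nice p hp
  have Q := G.nice q hq
  by_cases e : p = r
  · exact absurd (e ▸ h2) (asy LF p q P Q h1)
  · intro w hw
    have g := G.pr p hp r hr e
    have h3 : w ∈ cv (Ft p) := cv_le (ins_cv P h1) (ins_cv Q h2 hw)
    have h4 : p.1 w ≠ w := g.l w hw h3
    by_contra h5
    exact Set.disjoint_left.1 g.dis ⟨h4, h5⟩ hw

theorem mx (LF : SpecLF) (X : Set ME) (G : Good X) : ∀ n : ℕ, ∀ x ∈ X,
    {p | p ∈ X ∧ Ins p x}.ncard ≤ n → ∃ p, Mx X p ∧ (p = x ∨ Ins p x) := by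
  intro n
  induction n with
  | zero =>
    intro x hx hn
    refine ⟨x, ⟨hx, ?_⟩, Or.inl rfl⟩
    intro p hp hi
    have hf : {p | p ∈ X ∧ Ins p x}.Finite := G.fin.subset (fun p hp => hp.1)
    have h0 := (Set.ncard_eq_zero hf).1 (Nat.le_zero.1 hn)
    have : p ∈ {p | p ∈ X ∧ Ins p x} := ⟨hp, hi⟩
    rw [h0] at this
    exact this
  | succ n ih =>
    intro x hx hn
    by_cases hm : ∀ p ∈ X, ¬ Ins p x
    · exact ⟨x, ⟨hx, hm⟩, Or.inl rfl⟩
    · push Not at hm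
      obtain ⟨y, hy, hyx⟩ := hm
      have hf : {p | p ∈ X ∧ Ins p x}.Finite := G.fin.subset (fun p hp => hp.1)
      have hss : {p | p ∈ X ∧ Ins p y} ⊂ {p | p ∈ X ∧ Ins p x} := by
        refine ⟨fun p hp => ⟨hp.1, trans' LF X G p hp.1 y hy x hx hp.2 hyx⟩, fun h => ?_⟩
        exact irr y (G.nice y hy) (h (⟨hy, hyx⟩ : y ∈ {p | p ∈ X ∧ Ins p x})).2
      have hlt := Set.ncard_lt_ncard hss hf
      obtain ⟨p, hp, hpy⟩ := ih y hy (by omega)
      refine ⟨p, hp, Or.inr ?_⟩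
      rcases hpy with rfl | h
      · exact hyx
      · exact trans' LF X G p hp.1 y hy x hx h hyx

theorem nxg (CP : SpecCP) (CJ : SpecCJ) (X : Set ME) (G : Good X) (x : ME) (hx : x ∈ X) (M : ℕ) :
    Good (nx X x M) := by
  have Nx := G.nice x hx
  have gx : ∀ p ∈ X, Ins x p → GPr x p := by
    intro p hp hi
    refine G.pr x hx p hp ?_
    rintro rfl
    exact irr x Nx hi
  refine ⟨?_, ?_, ?_⟩
  · refine ((G.fin.prod (Set.finite_Icc (-(M : ℤ)) M)).image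
      (fun z : ME × ℤ => cj (x.1 ^ z.2) z.1)).subset ?_
    rintro r ⟨p, hp, -, m, hm, rfl⟩
    exact ⟨(p, m), ⟨hp, abs_le.1 hm⟩, rfl⟩
  · rintro r ⟨p, hp, -, m, -, rfl⟩
    exact CJ.nice _ _ (G.nice p hp)
  · rintro r ⟨p, hp, hip, m, -, rfl⟩ s ⟨q, hq, hiq, m', -, rfl⟩ hne
    by_cases e : m = m'
    · subst e
      exact CJ.gpr _ _ _ (G.pr p hp q hq (fun e => hne (by rw [e])))
    · exact CP x p q Nx (gx p hp hip) (gx q hq hiq) hip hiq m m' e

/-- module OI -/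
theorem specOI (LF : SpecLF) (CP : SpecCP) (CJ : SpecCJ) : SpecOI := by
  refine ⟨irr, asy LF, trans' LF, ?_, ?_, nxg CP CJ⟩
  · intro X G x hx
    exact mx LF X G _ x hx le_rfl
  · intro X Y G h
    exact ⟨G.fin.subset h, fun p hp => G.nice p (h hp),
      fun p hp q hq hne => G.pr p (h hp) q (h hq) hne⟩

end FPT.GF.OIM
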