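import Pool.Agent.Lib.MP_c27bde_al.GF.Spec

/-!
MP_c27bde_al, GF, module PW: large powers of finitely many PL homeomorphisms without common orbital
ends are geometrically fast.
-/

set_option autoImplicit false

namespace FPT.GF.PWM

open Set FPT FPT.GF

theorem sp_open (g : Hm) : IsOpen (sp g) := by
  have h : IsOpen {w : ℝ | g w ≠ w} := isOpen_ne_fun g.continuous continuous_id
  exact h

/-- the last fixed point before a moved point -/
theorem lastfix (g : Hm) (hg : IsPL g) (w : ℝ) (hw : g w ≠ w) :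
    ∃ u, u < w ∧ g u = u ∧ ∀ t, u < t → t ≤ w → g t ≠ t := by
  obtain ⟨ε, hε, hball⟩ := Metric.isOpen_iff.mp (sp_open g) w hw
  have hw0 : 0 < w := by
    by_contra h
    exact hw (hg.1 w (not_lt.mp h))
  obtain ⟨r, -, hrw, hr, hmov⟩ := FINM.ord.last g 0 w (hg.1 0 le_rfl) hw0
    ⟨ε, hε, fun t h1 h2 => hball (by
      rw [Metric.mem_ball, Real.dist_eq, abs_lt]
      constructor <;> linarith)⟩
  refine ⟨r, hrw, hr, fun t h1 h2 => ?_⟩
  rcases h2.lt_or_eq with h | h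
  · exact hmov t h1 h
  · rw [h]; exact hw

/-- the orbital starting at `u` -/
theorem firstfix (g : Hm) (hg : IsPL g) (u : ℝ) (hu : g u = u) (her : er g u ≠ 0) :
    ∃ v, u < v ∧ g v = v ∧ ∀ t, u < t → t < v → g t ≠ t := by
  have hmv : ∃ ε > 0, ∀ t, u < t → t < u + ε → g t ≠ t := by
    rcases lt_or_gt_of_ne her with h | h
    · obtain ⟨ε, hε, h1⟩ := FINM.pl2.ern g u hg hu h
      exact ⟨ε, hε, fun t h2 h3 => (h1 t h2 h3.le).ne⟩
    · obtain ⟨ε, hε, h1⟩ := FINM.pl2.erp g u hg hu h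
      exact ⟨ε, hε, fun t h2 h3 => (h1 t h2 h3.le).ne'⟩
  obtain ⟨v, h1, -, h3, h4⟩ := FINM.ord.first g u (max 1 (u + 1))
    (hg.2.1 _ (le_max_left _ _)) (lt_of_lt_of_le (by linarith) (le_max_right _ _)) hmv
  exact ⟨v, h1, h3, h4⟩

/-- one orbital -/
theorem key (g : Hm) (hg : IsPL g) (η : ℝ) (hη : 0 < η) (u : ℝ) (hu : g u = u ∧ er g u ≠ 0) :
    ∃ v s : ℝ, ∃ N : ℕ, u < s ∧ s < v ∧ g v = v ∧ (∀ t, u < t → t < v → g t ≠ t) ∧
      ∀ n ≥ N, ∀ w, u < w → w < v → ¬ (min s ((g ^ n) s) ≤ w ∧ w < max s ((g ^ n) s)) →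
        |w - u| < η ∨ |w - v| < η := by
  obtain ⟨hu, her⟩ := hu
  obtain ⟨v, huv, hv, hmov⟩ := firstfix g hg u hu her
  obtain ⟨δ, hδ0, hδ1, hδ2⟩ : ∃ δ : ℝ, 0 < δ ∧ δ < η ∧ δ ≤ (v - u) / 2 :=
    ⟨min (η / 2) ((v - u) / 2), lt_min (by linarith) (by linarith),
      lt_of_le_of_lt (min_le_left _ _) (by linarith), min_le_right _ _⟩
  rcases FINM.ord.dir g u v hmov with hL | hR
  · obtain ⟨N, hN⟩ := FINM.ord.itL g u v hu hv hL (v - δ) (u + δ) (by linarith) (by linarith)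
      (by linarith)
    refine ⟨v, v - δ, N, by linarith, by linarith, hv, hmov, fun n hn w h1 h2 h3 => ?_⟩
    have h4 := hN n hn
    have h5 : (g ^ n) (v - δ) ≤ v - δ := by linarith
    rw [min_eq_right h5, max_eq_left h5] at h3
    by_cases h6 : (g ^ n) (v - δ) ≤ w
    · right
      have h7 : v - δ ≤ w := by
        by_contra h
        exact h3 ⟨h6, not_le.mp h⟩
      rw [abs_lt]
      constructor <;> linarith
    · left
      rw [not_le] at h6
      rw [abs_lt]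
      constructor <;> linarith
  · obtain ⟨N, hN⟩ := FINM.ord.itR g u v hu hv hR (u + δ) (v - δ) (by linarith) (by linarith)
      (by linarith)
    refine ⟨v, u + δ, N, by linarith, by linarith, hv, hmov, fun n hn w h1 h2 h3 => ?_⟩
    have h4 := hN n hn
    have h5 : u + δ ≤ (g ^ n) (u + δ) := by linarith
    rw [min_eq_left h5, max_eq_right h5] at h3
    by_cases h6 : u + δ ≤ w
    · right
      have h7 : (g ^ n) (u + δ) ≤ w := by
        by_contra h
        exact h3 ⟨h6, not_le.mp h⟩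
      rw [abs_lt]
      constructor <;> linarith
    · left
      rw [not_le] at h6
      rw [abs_lt]
      constructor <;> linarith

theorem mem_frontier_left (g : Hm) (u v : ℝ) (huv : u < v) (hu : g u = u)
    (hmov : ∀ t, u < t → t < v → g t ≠ t) : u ∈ frontier (sp g) := by
  rw [(sp_open g).frontier_eq]
  refine ⟨?_, fun h => h hu⟩
  have h1 : Ioo u v ⊆ sp g := fun t ht => hmov t ht.1 ht.2
  have h2 : u ∈ closure (Ioo u v) := by
    rw [closure_Ioo huv.ne]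
    exact ⟨le_rfl, huv.le⟩
  exact closure_mono h1 h2

theorem mem_frontier_right (g : Hm) (u v : ℝ) (huv : u < v) (hv : g v = v)
    (hmov : ∀ t, u < t → t < v → g t ≠ t) : v ∈ frontier (sp g) := by
  rw [(sp_open g).frontier_eq]
  refine ⟨?_, fun h => h hv⟩
  have h1 : Ioo u v ⊆ sp g := fun t ht => hmov t ht.1 ht.2
  have h2 : v ∈ closure (Ioo u v) := by
    rw [closure_Ioo huv.ne]
    exact ⟨huv.le, le_rfl⟩
  exact closure_mono h1 h2

/-- one element -/
theorem one (g : Hm) (hg : IsPL g) (η : ℝ) (hη : 0 < η) :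
    ∃ N : ℕ, ∀ n ≥ N, ∃ D : Set ℝ, Fund (g ^ n) D ∧
      ∀ w ∈ sp (g ^ n) \ D, ∃ e ∈ frontier (sp g), |w - e| < η := by
  have hAf : {x : ℝ | g x = x ∧ er g x ≠ 0}.Finite := FINM.plb.fixR g hg
  have hk := fun (u : ℝ) (hu : u ∈ {x : ℝ | g x = x ∧ er g x ≠ 0}) => key g hg η hη u hu
  choose! V S Nn h1 h2 h3 h4 h5 using hk
  obtain ⟨N0, hN0⟩ := (hAf.image Nn).bddAbove
  have hN0' : ∀ u, (g u = u ∧ er g u ≠ 0) → Nn u ≤ N0 := fun u hu => hN0 ⟨u, hu, rfl⟩
  -- every moved point is in an orbital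
  have hmem : ∀ w, g w ≠ w → ∃ u, (g u = u ∧ er g u ≠ 0) ∧ u < w ∧ w < V u := by
    intro w hw
    obtain ⟨u, huw, hu, hmov⟩ := lastfix g hg w hw
    have her : er g u ≠ 0 := by
      intro h0
      obtain ⟨ε, hε, hfix⟩ := FINM.pl2.er0 g u hg hu h0
      have h7 : 0 < min ε (w - u) := lt_min hε (by linarith)
      refine hmov (u + min ε (w - u)) (by linarith) ?_ (hfix _ (by linarith) ?_)
      · have := min_le_right ε (w - u)
        linarith
      · have := min_le_left ε (w - u)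
        linarith
    refine ⟨u, ⟨hu, her⟩, huw, ?_⟩
    by_contra hc
    rw [not_lt] at hc
    exact hmov (V u) ((h1 u ⟨hu, her⟩).trans (h2 u ⟨hu, her⟩)) hc (h3 u ⟨hu, her⟩)
  refine ⟨max 1 N0, fun n hn => ?_⟩
  have hn1 : 1 ≤ n := (le_max_left _ _).trans hn
  have hnN : N0 ≤ n := (le_max_right _ _).trans hn
  have hmovn : ∀ t, g t ≠ t → (g ^ n) t ≠ t := fun t ht hc => ht (FINM.ord.powi g n t hn1 hc)
  have hmovn' : ∀ t, (g ^ n) t ≠ t → g t ≠ t := fun t ht hc => ht (FINM.ord.powf g n t hc)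
  refine ⟨{w | ∃ s ∈ S '' {x : ℝ | g x = x ∧ er g x ≠ 0},
    min s ((g ^ n) s) ≤ w ∧ w < max s ((g ^ n) s)}, ⟨S '' {x : ℝ | g x = x ∧ er g x ≠ 0},
      ?_, ?_, ?_, rfl⟩, ?_⟩
  · rintro s ⟨u, hu, rfl⟩
    exact hmovn _ (h4 u hu _ (h1 u hu) (h2 u hu))
  · intro w hw
    obtain ⟨u, hu, huw, hwv⟩ := hmem w (hmovn' w hw)
    refine ⟨S u, ⟨u, hu, rfl⟩, fun t ht => hmovn t (h4 u hu t ?_ ?_)⟩
    · rw [mem_uIcc] at ht
      have := h1 u hu
      rcases ht with ht | ht <;> linarith [ht.1]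
    · rw [mem_uIcc] at ht
      have := h2 u hu
      rcases ht with ht | ht <;> linarith [ht.2]
  · have hlt : ∀ u, (g u = u ∧ er g u ≠ 0) → ∀ u', (g u' = u' ∧ er g u' ≠ 0) → u < u' →
        S u ≤ u' := by
      intro u hu u' hu' huu
      by_contra hc
      rw [not_le] at hc
      exact h4 u hu u' huu (hc.trans (h2 u hu)) hu'.1
    rintro s ⟨u, hu, rfl⟩ s' ⟨u', hu', rfl⟩ hss
    rcases lt_trichotomy u u' with h | h | h
    · exfalso
      refine hss u' ?_ (FINM.ord.powf g n u' hu'.1)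
      rw [mem_uIcc]
      exact Or.inl ⟨hlt u hu u' hu' h, (h1 u' hu').le⟩
    · rw [h]
    · exfalso
      refine hss u ?_ (FINM.ord.powf g n u hu.1)
      rw [mem_uIcc]
      exact Or.inr ⟨hlt u' hu' u hu h, (h1 u hu).le⟩
  · rintro w ⟨hw, hwD⟩
    obtain ⟨u, hu, huw, hwv⟩ := hmem w (hmovn' w hw)
    have huv : u < V u := (h1 u hu).trans (h2 u hu)
    rcases h5 u hu n ((hN0' u hu).trans hnN) w huw hwv
      (fun hc => hwD ⟨S u, ⟨u, hu, rfl⟩, hc⟩) with h | h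
    · exact ⟨u, mem_frontier_left g u (V u) huv hu.1 (h4 u hu), h⟩
    · exact ⟨V u, mem_frontier_right g u (V u) huv (h3 u hu) (h4 u hu), h⟩

theorem frontier_compact (g : Hm) (hg : IsPL g) : IsCompact (frontier (sp g)) := by
  have h1 : sp g ⊆ Icc 0 1 := by
    intro w hw
    constructor
    · by_contra h
      exact hw (hg.1 w (not_le.mp h).le)
    · by_contra h
      exact hw (hg.2.1 w (not_le.mp h).le)
  have h2 : frontier (sp g) ⊆ Icc (0:ℝ) 1 :=
    frontier_subset_closure.trans (closure_minimal h1 isClosed_Icc)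
  exact isCompact_Icc.of_isClosed_subset isClosed_frontier h2

theorem sep (X : Set Hm) (hX : X.Finite) (hpl : ∀ g ∈ X, IsPL g)
    (hd : ∀ g ∈ X, ∀ h ∈ X, g ≠ h → Disjoint (frontier (sp g)) (frontier (sp h))) :
    ∃ η : ℝ, 0 < η ∧ ∀ g ∈ X, ∀ h ∈ X, g ≠ h → ∀ e ∈ frontier (sp g), ∀ e' ∈ frontier (sp h),
      2 * η ≤ |e - e'| := by
  have hk : ∀ p ∈ X ×ˢ X, ∃ r : ℝ, 0 < r ∧ (p.1 ≠ p.2 → ∀ e ∈ frontier (sp p.1),
      ∀ e' ∈ frontier (sp p.2), 2 * r ≤ |e - e'|) := by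
    rintro ⟨g, h⟩ ⟨hg, hh⟩
    by_cases hgh : g = h
    · exact ⟨1, one_pos, fun hc => absurd hgh hc⟩
    · obtain ⟨r, hr, hr2⟩ := Metric.exists_pos_forall_lt_edist (frontier_compact g (hpl g hg))
        (isClosed_frontier (s := sp h)) (hd g hg h hh hgh)
      refine ⟨r / 2, by positivity, fun _ e he e' he' => ?_⟩
      have h1 := hr2 e he e' he'
      rw [edist_nndist, ENNReal.coe_lt_coe] at h1
      have h2 : (r : ℝ) < dist e e' := by
        rw [← coe_nndist]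
        exact_mod_cast h1
      rw [Real.dist_eq] at h2
      linarith
  choose! r hr1 hr2 using hk
  rcases (X ×ˢ X).eq_empty_or_nonempty with h0 | h0
  · refine ⟨1, one_pos, fun g hg h hh => ?_⟩
    have : (g, h) ∈ X ×ˢ X := ⟨hg, hh⟩
    rw [h0] at this
    exact absurd this (notMem_empty _)
  · obtain ⟨p, hp, hmin⟩ := Set.exists_min_image (X ×ˢ X) r (hX.prod hX) h0
    refine ⟨r p, hr1 p hp, fun g hg h hh hgh e he e' he' => ?_⟩
    have h1 := hr2 (g, h) ⟨hg, hh⟩ hgh e he e' he'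
    have h2 := hmin (g, h) ⟨hg, hh⟩
    linarith

theorem specPW : SpecPW := by
  classical
  intro X hX hpl hd
  obtain ⟨η, hη, hsep⟩ := sep X hX hpl hd
  have hk := fun (g : Hm) (hg : g ∈ X) => one g (hpl g hg) η hη
  choose! Nn hNn using hk
  obtain ⟨N, hN⟩ := (hX.image Nn).bddAbove
  refine ⟨N, fun n hn => ?_⟩
  have hk2 : ∀ g ∈ X, ∃ D : Set ℝ, Fund (g ^ n) D ∧
      ∀ w ∈ sp (g ^ n) \ D, ∃ e ∈ frontier (sp g), |w - e| < η :=
    fun g hg => hNn g hg n ((hN ⟨g, hg, rfl⟩).trans hn)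
  choose! D0 hD1 hD2 using hk2
  have hch : ∀ y ∈ (fun g : Hm => g ^ n) '' X, ∃ g, g ∈ X ∧ g ^ n = y := by
    rintro y ⟨g, hg, rfl⟩
    exact ⟨g, hg, rfl⟩
  choose! G hG1 hG2 using hch
  refine ⟨fun y => D0 (G y), ?_, ?_⟩
  · intro y hy
    have h1 := hD1 (G y) (hG1 y hy)
    rw [hG2 y hy] at h1
    exact h1
  · intro y hy z hz hyz
    have hne : G y ≠ G z := by
      intro hc
      apply hyz
      rw [← hG2 y hy, ← hG2 z hz, hc]
    rw [Set.disjoint_left]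
    intro w hwy hwz
    have h1 := hD2 (G y) (hG1 y hy) w (by rw [hG2 y hy]; exact hwy)
    have h2 := hD2 (G z) (hG1 z hz) w (by rw [hG2 z hz]; exact hwz)
    obtain ⟨e, he, he1⟩ := h1
    obtain ⟨e', he', he1'⟩ := h2
    have h3 := hsep (G y) (hG1 y hy) (G z) (hG1 z hz) hne e he e' he'
    have h4 : |e - e'| ≤ |w - e| + |w - e'| := by
      have : e - e' = -(w - e) + (w - e') := by ring
      rw [this]
      refine (abs_add_le _ _).trans ?_
      rw [abs_neg]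
    linarith

end FPT.GF.PWM
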