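import Pool.Agent.Lib.MP_c27bde_al.GF.Spec

set_option autoImplicit false

namespace FPT.GF.RAM

open Set FPT FPT.GF

/-- the glued function -/
noncomputable def gl (a b : ℝ) (k : Hm) (w : ℝ) : ℝ := if a ≤ w ∧ w ≤ b then k w else w

theorem gl_in {a b : ℝ} {k : Hm} {w : ℝ} (h : a ≤ w ∧ w ≤ b) : gl a b k w = k w := if_pos h

theorem gl_out {a b : ℝ} {k : Hm} {w : ℝ} (h : ¬ (a ≤ w ∧ w ≤ b)) : gl a b k w = w := if_neg h

theorem gl_out' {a b : ℝ} {k : Hm} (ha : k a = a) (hb : k b = b) {w : ℝ} (h : w ≤ a ∨ b ≤ w) :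
    gl a b k w = w := by
  by_cases h' : a ≤ w ∧ w ≤ b
  · rw [gl_in h']
    rcases h with h | h
    · have : w = a := le_antisymm h h'.1
      rw [this, ha]
    · have : w = b := le_antisymm h'.2 h
      rw [this, hb]
  · exact gl_out h'

theorem mem_in {a b : ℝ} {k : Hm} (ha : k a = a) (hb : k b = b) {w : ℝ} (h : a ≤ w ∧ w ≤ b) :
    a ≤ k w ∧ k w ≤ b := by
  constructor
  · rw [← ha]; exact k.monotone h.1
  · rw [← hb]; exact k.monotone h.2

theorem gl_comp {a b : ℝ} {k l : Hm} (hka : k a = a) (hkb : k b = b) (hla : l a = a)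
    (hlb : l b = b) (w : ℝ) : gl a b (k * l) w = gl a b k (gl a b l w) := by
  by_cases h : a ≤ w ∧ w ≤ b
  · rw [gl_in h, gl_in h, gl_in (mem_in hla hlb h)]
    rfl
  · rw [gl_out h, gl_out h, gl_out h]

theorem gl_one (a b : ℝ) (w : ℝ) : gl a b 1 w = w := by
  by_cases h : a ≤ w ∧ w ≤ b
  · rw [gl_in h]; rfl
  · exact gl_out h

theorem gl_mono {a b : ℝ} {k : Hm} (ha : k a = a) (hb : k b = b) : Monotone (gl a b k) := by
  intro u v huv
  by_cases hu : a ≤ u ∧ u ≤ b
  · by_cases hv : a ≤ v ∧ v ≤ b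
    · rw [gl_in hu, gl_in hv]; exact k.monotone huv
    · rw [gl_in hu, gl_out hv]
      have h1 := (mem_in ha hb hu).2
      have h2 : b < v := by
        by_contra h
        exact hv ⟨hu.1.trans huv, not_lt.1 h⟩
      exact h1.trans h2.le
  · by_cases hv : a ≤ v ∧ v ≤ b
    · rw [gl_out hu, gl_in hv]
      have h1 := (mem_in ha hb hv).1
      have h2 : u < a := by
        by_contra h
        exact hu ⟨not_lt.1 h, huv.trans hv.2⟩
      exact h2.le.trans h1
    · rw [gl_out hu, gl_out hv]; exact huv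

/-- the glued order isomorphism -/
noncomputable def glI (a b : ℝ) (k : Hm) (ha : k a = a) (hb : k b = b) : Hm :=
  have ha' : k⁻¹ a = a := by
    have : k⁻¹ (k a) = a := k.symm_apply_apply a
    rwa [ha] at this
  have hb' : k⁻¹ b = b := by
    have : k⁻¹ (k b) = b := k.symm_apply_apply b
    rwa [hb] at this
  have h1 : Function.LeftInverse (gl a b k⁻¹) (gl a b k) := fun w => by
    rw [← gl_comp ha' hb' ha hb, inv_mul_cancel, gl_one]
  have h2 : Function.RightInverse (gl a b k⁻¹) (gl a b k) := fun w => by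
    rw [← gl_comp ha hb ha' hb', mul_inv_cancel, gl_one]
  { toFun := gl a b k
    invFun := gl a b k⁻¹
    left_inv := h1
    right_inv := h2
    map_rel_iff' := by
      intro u v
      constructor
      · intro h
        have := gl_mono ha' hb' h
        rwa [show gl a b k⁻¹ ((⟨gl a b k, gl a b k⁻¹, h1, h2⟩ : ℝ ≃ ℝ) u) = u from h1 u,
          show gl a b k⁻¹ ((⟨gl a b k, gl a b k⁻¹, h1, h2⟩ : ℝ ≃ ℝ) v) = v from h1 v] at this
      · intro h
        exact gl_mono ha hb h }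

theorem glI_apply (a b : ℝ) (k : Hm) (ha : k a = a) (hb : k b = b) (w : ℝ) :
    glI a b k ha hb w = gl a b k w := rfl

theorem hasR_id {g : Hm} {x : ℝ} {ε : ℝ} (hε : 0 < ε) (h : ∀ y, x ≤ y → y ≤ x + ε → g y = y) :
    HasR g x 0 := by
  refine ⟨ε, hε, fun y h1 h2 => ?_⟩
  rw [h y h1 h2, h x le_rfl (by linarith)]
  simp

theorem hasL_id {g : Hm} {x : ℝ} {ε : ℝ} (hε : 0 < ε) (h : ∀ y, x - ε ≤ y → y ≤ x → g y = y) :
    HasL g x 0 := by
  refine ⟨ε, hε, fun y h1 h2 => ?_⟩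
  rw [h y h1 h2, h x (by linarith) le_rfl]
  simp

theorem hasR_congr {g h : Hm} {x c : ℝ} {e : ℤ} (hc : x < c)
    (H : ∀ y, x ≤ y → y ≤ c → h y = g y) (hR : HasR g x e) : HasR h x e := by
  obtain ⟨ε, hε, hh⟩ := hR
  refine ⟨min ε (c - x), lt_min hε (by linarith), fun y h1 h2 => ?_⟩
  have h3 : y ≤ x + ε := h2.trans (by linarith [min_le_left ε (c - x)])
  have h4 : y ≤ c := h2.trans (by linarith [min_le_right ε (c - x)])
  rw [H y h1 h4, H x le_rfl hc.le]
  exact hh y h1 h3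

theorem hasL_congr {g h : Hm} {x c : ℝ} {e : ℤ} (hc : c < x)
    (H : ∀ y, c ≤ y → y ≤ x → h y = g y) (hL : HasL g x e) : HasL h x e := by
  obtain ⟨ε, hε, hh⟩ := hL
  refine ⟨min ε (x - c), lt_min hε (by linarith), fun y h1 h2 => ?_⟩
  have h3 : x - ε ≤ y := le_trans (by linarith [min_le_left ε (x - c)]) h1
  have h4 : c ≤ y := le_trans (by linarith [min_le_right ε (x - c)]) h1
  rw [H y h4 h2, H x hc.le le_rfl]
  exact hh y h3 h2

theorem glI_PL {a b : ℝ} {k : Hm} (ha : k a = a) (hb : k b = b) (hk : IsPL k) :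
    IsPL (glI a b k ha hb) := by
  obtain ⟨h0, h1, hR, hL⟩ := hk
  refine ⟨fun x hx => ?_, fun x hx => ?_, fun x => ?_, fun x => ?_⟩
  · rw [glI_apply]
    by_cases h : a ≤ x ∧ x ≤ b
    · rw [gl_in h, h0 x hx]
    · exact gl_out h
  · rw [glI_apply]
    by_cases h : a ≤ x ∧ x ≤ b
    · rw [gl_in h, h1 x hx]
    · exact gl_out h
  · rcases lt_or_ge x a with hxa | hxa
    · refine ⟨0, hasR_id (ε := a - x) (by linarith) fun y h2 h3 => ?_⟩
      rw [glI_apply]
      exact gl_out' ha hb (Or.inl (by linarith))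
    · rcases lt_or_ge x b with hxb | hxb
      · obtain ⟨e, he⟩ := hR x
        refine ⟨e, hasR_congr hxb (fun y h2 h3 => ?_) he⟩
        rw [glI_apply]
        exact gl_in ⟨hxa.trans h2, h3⟩
      · refine ⟨0, hasR_id (ε := 1) one_pos fun y h2 h3 => ?_⟩
        rw [glI_apply]
        exact gl_out' ha hb (Or.inr (hxb.trans h2))
  · rcases lt_or_ge b x with hxb | hxb
    · refine ⟨0, hasL_id (ε := x - b) (by linarith) fun y h2 h3 => ?_⟩
      rw [glI_apply]
      exact gl_out' ha hb (Or.inr (by linarith))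
    · rcases lt_or_ge a x with hxa | hxa
      · obtain ⟨e, he⟩ := hL x
        refine ⟨e, hasL_congr hxa (fun y h2 h3 => ?_) he⟩
        rw [glI_apply]
        exact gl_in ⟨h2, h3.trans hxb⟩
      · refine ⟨0, hasL_id (ε := 1) one_pos fun y h2 h3 => ?_⟩
        rw [glI_apply]
        exact gl_out' ha hb (Or.inl (h3.trans hxa))

theorem specRA : SpecRA := by
  intro K a b _ hPL hKa hKb
  refine ⟨{ toFun := fun k => glI a b k.1 (hKa k.1 k.2) (hKb k.1 k.2)
            map_one' := ?_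
            map_mul' := ?_ }, ⟨?_, ?_⟩, ?_⟩
  · ext w
    exact gl_one a b w
  · intro k l
    ext w
    exact gl_comp (hKa k.1 k.2) (hKb k.1 k.2) (hKa l.1 l.2) (hKb l.1 l.2) w
  · intro k w h1 h2
    exact gl_in ⟨h1, h2⟩
  · intro k w h
    exact gl_out' (hKa k.1 k.2) (hKb k.1 k.2) h
  · intro k
    exact glI_PL (hKa k.1 k.2) (hKb k.1 k.2) (hPL k.1 k.2)

end FPT.GF.RAM
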