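import Pool.Agent.Lib.MP_c27bde_al.GF.Spec

set_option autoImplicit false

namespace FPT.GF.RBM

open Set FPT FPT.GF

theorem hasR_congr {g h : Hm} {x c : ℝ} {e : ℤ} (hc : x < c)
    (H : ∀ y, x ≤ y → y ≤ c → h y = g y) (hR : HasR g x e) : HasR h x e := by
  obtain ⟨ε, hε, hh⟩ := hR
  refine ⟨min ε (c - x), lt_min hε (by linarith), fun y h1 h2 => ?_⟩
  have h3 : y ≤ x + ε := h2.trans (by linarith [min_le_left ε (c - x)])
  have h4 : y ≤ c := h2.trans (by linarith [min_le_right ε (c - x)])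
  rw [H y h1 h4, H x le_rfl hc.le]
  exact hh y h1 h3

theorem hasL_congr {g h : Hm} {x c : ℝ} {e : ℤ} (hc : c < x)
    (H : ∀ y, c ≤ y → y ≤ x → h y = g y) (hL : HasL g x e) : HasL h x e := by
  obtain ⟨ε, hε, hh⟩ := hL
  refine ⟨min ε (x - c), lt_min hε (by linarith), fun y h1 h2 => ?_⟩
  have h3 : x - ε ≤ y := le_trans (by linarith [min_le_left ε (x - c)]) h1
  have h4 : c ≤ y := le_trans (by linarith [min_le_right ε (x - c)]) h1
  rw [H y h4 h2, H x hc.le le_rfl]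
  exact hh y h3 h2

theorem specRB : SpecRB := by
  intro K a b hab hPL hKa hKb hBal f hRes hfPL G hG α β hαβ hGα hGβ hmov h hh hr
  have out : ∀ u, α < u → u < β → a < u ∧ u < b := by
    intro u h1 h2
    obtain ⟨g, hg, hgu⟩ := hmov u h1 h2
    obtain ⟨k, rfl⟩ := hG hg
    constructor
    · by_contra hc
      exact hgu (hRes.2 k u (Or.inl (not_lt.1 hc)))
    · by_contra hc
      exact hgu (hRes.2 k u (Or.inr (not_lt.1 hc)))
  have haα : a ≤ α := by
    by_contra hc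
    push Not at hc
    obtain ⟨u, h1, h2⟩ := exists_between (lt_min hαβ hc)
    exact absurd (out u h1 (lt_of_lt_of_le h2 (min_le_left _ _))).1
      (not_lt.2 (h2.le.trans (min_le_right _ _)))
  have hβb : β ≤ b := by
    by_contra hc
    push Not at hc
    obtain ⟨u, h1, h2⟩ := exists_between (max_lt hαβ hc)
    exact absurd (out u (lt_of_le_of_lt (le_max_left _ _) h1) h2).2
      (not_lt.2 ((le_max_right _ _).trans h1.le))
  obtain ⟨k, rfl⟩ := hG hh
  have key : ∀ l : ↥K, ∀ y, α ≤ y → y ≤ β → f l y = l.1 y := fun l y h1 h2 =>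
    hRes.1 l y (haα.trans h1) (h2.trans hβb)
  have hG' : (G.comap f).map K.subtype ≤ K := by
    rintro _ ⟨l, _, rfl⟩
    exact l.2
  have eer : er (f k) α = er k.1 α := by
    obtain ⟨e, he⟩ := (hfPL k).2.2.1 α
    have h2 : HasR k.1 α e := hasR_congr hαβ (fun y h1 h2 => (key k y h1 h2).symm) he
    rw [FINM.plb.erU _ _ _ he, FINM.plb.erU _ _ _ h2]
  have eel : el (f k) β = el k.1 β := by
    obtain ⟨e, he⟩ := (hfPL k).2.2.2 β
    have h2 : HasL k.1 β e := hasL_congr hαβ (fun y h1 h2 => (key k y h1 h2).symm) he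
    rw [FINM.plb.elU _ _ _ he, FINM.plb.elU _ _ _ h2]
  rw [eel]
  refine hBal _ hG' α β hαβ ?_ ?_ ?_ k.1 ⟨k, hh, rfl⟩ (by rw [← eer]; exact hr)
  · rintro _ ⟨l, hl, rfl⟩
    show l.1 α = α
    rw [← key l α le_rfl hαβ.le]
    exact hGα _ hl
  · rintro _ ⟨l, hl, rfl⟩
    show l.1 β = β
    rw [← key l β hαβ.le le_rfl]
    exact hGβ _ hl
  · intro u h1 h2
    obtain ⟨g, hg, hgu⟩ := hmov u h1 h2
    obtain ⟨l, rfl⟩ := hG hg
    refine ⟨l.1, ⟨l, hg, rfl⟩, ?_⟩
    rwa [key l u h1.le h2.le] at hgu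

end FPT.GF.RBM
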