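import Pool.Agent.Lib.MP_c27bde_al.GF.Spec

/-!
MP_c27bde_al, GF, module RC: one orbital.
-/

set_option autoImplicit false

namespace FPT.GF.RCM

open Set FPT FPT.GF

namespace RCAux

theorem pls (X0 : Set Hm) (h : ∀ g ∈ X0, IsPL g) : PLs (Subgroup.closure X0) := by
  intro g hg
  induction hg using Subgroup.closure_induction with
  | mem x hx => exact h x hx
  | one => exact FINM.plb.one
  | mul x y _ _ hx hy => exact FINM.plb.mul x y hx hy
  | inv x _ hx => exact FINM.plb.inv x hx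

theorem moved (X0 : Set Hm) (t : ℝ) (h : ∃ g ∈ Subgroup.closure X0, g t ≠ t) :
    ∃ z ∈ X0, z t ≠ t := by
  by_contra hcon
  push Not at hcon
  obtain ⟨g, hg, hgt⟩ := h
  apply hgt
  clear hgt
  induction hg using Subgroup.closure_induction with
  | mem x hx => exact hcon x hx
  | one => rfl
  | mul x y _ _ hx hy =>
    show x (y t) = t
    rw [hy, hx]
  | inv x _ hx =>
    have : x⁻¹ (x t) = t := by
      show (x⁻¹ * x) t = t
      rw [inv_mul_cancel]; rfl
    rwa [hx] at this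

/-- the restriction of a marked element -/
theorem fund (x y : Hm) (D : Set ℝ) (a b : ℝ) (hxa : x a = a) (hxb : x b = b)
    (hy1 : ∀ w, a ≤ w → w ≤ b → y w = x w) (hy2 : ∀ w, w ≤ a ∨ b ≤ w → y w = w)
    (h : Fund x D) : Fund y (D ∩ Ioo a b) := by
  obtain ⟨m, h1, h2, h3, h4⟩ := h
  have hlt : ∀ s, a < s → a < x s := fun s hs => by
    have := x.strictMono hs; rwa [hxa] at this
  have hgt : ∀ s, s < b → x s < b := fun s hs => by
    have := x.strictMono hs; rwa [hxb] at this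
  have hle : ∀ s, s ≤ a → x s ≤ a := fun s hs => by
    have := x.monotone hs; rwa [hxa] at this
  have hge : ∀ s, b ≤ s → b ≤ x s := fun s hs => by
    have := x.monotone hs; rwa [hxb] at this
  refine ⟨m ∩ Ioo a b, ?_, ?_, ?_, ?_⟩
  · rintro s ⟨hs, hs1, hs2⟩
    rw [hy1 s hs1.le hs2.le]
    exact h1 s hs
  · intro w hw
    have hwa : a < w := by
      by_contra hc
      exact hw (hy2 w (Or.inl (not_lt.1 hc)))
    have hwb : w < b := by
      by_contra hc
      exact hw (hy2 w (Or.inr (not_lt.1 hc)))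
    rw [hy1 w hwa.le hwb.le] at hw
    obtain ⟨s, hs, hst⟩ := h2 w hw
    have hsa : a < s := by
      by_contra hc
      exact hst a (by rw [mem_uIcc]; right; exact ⟨not_lt.1 hc, hwa.le⟩) hxa
    have hsb : s < b := by
      by_contra hc
      exact hst b (by rw [mem_uIcc]; left; exact ⟨hwb.le, not_lt.1 hc⟩) hxb
    refine ⟨s, ⟨hs, hsa, hsb⟩, ?_⟩
    intro t ht
    have ht1 : a ≤ t := by
      rw [mem_uIcc] at ht
      rcases ht with ht | ht
      · exact hwa.le.trans ht.1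
      · exact hsa.le.trans ht.1
    have ht2 : t ≤ b := by
      rw [mem_uIcc] at ht
      rcases ht with ht | ht
      · exact ht.2.trans hsb.le
      · exact ht.2.trans hwb.le
    rw [hy1 t ht1 ht2]
    exact hst t ht
  · rintro s ⟨hs, hsa, hsb⟩ s' ⟨hs', hsa', hsb'⟩ hst
    refine h3 s hs s' hs' ?_
    intro t ht
    have ht1 : a ≤ t := by
      rw [mem_uIcc] at ht
      rcases ht with ht | ht
      · exact hsa.le.trans ht.1
      · exact hsa'.le.trans ht.1
    have ht2 : t ≤ b := by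
      rw [mem_uIcc] at ht
      rcases ht with ht | ht
      · exact ht.2.trans hsb'.le
      · exact ht.2.trans hsb.le
    have := hst t ht
    rwa [hy1 t ht1 ht2] at this
  · ext w
    constructor
    · rintro ⟨hw, hwa, hwb⟩
      rw [h4] at hw
      obtain ⟨s, hs, hw1, hw2⟩ := hw
      have hsa : a < s := by
        by_contra hc
        have hc := not_lt.1 hc
        have : max s (x s) ≤ a := max_le hc (hle s hc)
        linarith
      have hsb : s < b := by
        by_contra hc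
        have hc := not_lt.1 hc
        have : b ≤ min s (x s) := le_min hc (hge s hc)
        linarith
      refine ⟨s, ⟨hs, hsa, hsb⟩, ?_⟩
      rw [hy1 s hsa.le hsb.le]
      exact ⟨hw1, hw2⟩
    · rintro ⟨s, ⟨hs, hsa, hsb⟩, hw1, hw2⟩
      rw [hy1 s hsa.le hsb.le] at hw1 hw2
      refine ⟨?_, ?_, ?_⟩
      · rw [h4]; exact ⟨s, hs, hw1, hw2⟩
      · exact lt_of_lt_of_le (lt_min hsa (hlt s hsa)) hw1
      · exact lt_of_lt_of_le hw2 (max_le hsb.le (hgt s hsb).le)

/-- the feet of the restriction -/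
theorem feet (x y : Hm) (D : Set ℝ) (a b : ℝ)
    (hy1 : ∀ w, a ≤ w → w ≤ b → y w = x w) (hy2 : ∀ w, w ≤ a ∨ b ≤ w → y w = w)
    (w : ℝ) : w ∈ Ft (y, D ∩ Ioo a b) ↔ w ∈ sp x \ D ∧ a < w ∧ w < b := by
  constructor
  · rintro ⟨hw, hw'⟩
    have hwm : y w ≠ w := hw
    have hwa : a < w := by
      by_contra hc
      exact hwm (hy2 w (Or.inl (not_lt.1 hc)))
    have hwb : w < b := by
      by_contra hc
      exact hwm (hy2 w (Or.inr (not_lt.1 hc)))
    refine ⟨⟨?_, ?_⟩, hwa, hwb⟩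
    · show x w ≠ w
      rwa [hy1 w hwa.le hwb.le] at hwm
    · intro hD
      exact hw' ⟨hD, hwa, hwb⟩
  · rintro ⟨⟨hw, hD⟩, hwa, hwb⟩
    refine ⟨?_, fun h => hD h.1⟩
    show y w ≠ w
    rw [hy1 w hwa.le hwb.le]
    exact hw

end RCAux

open RCAux

theorem specRC (mn : SpecMN) (ni : SpecNI) (rb : SpecRB) : SpecRC := by
  intro X0 D a b hfin hab hpl hbal hfast hgap hfa hfb horb f hres hfpl
  obtain ⟨hr1, hr2⟩ := hres
  have hPL : PLs (Subgroup.closure X0) := pls X0 hpl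
  set e : (x : Hm) → x ∈ X0 → ↥(Subgroup.closure X0) :=
    fun x hx => ⟨x, Subgroup.subset_closure hx⟩ with he
  set Y : Set ME := {p | ∃ (x : Hm) (hx : x ∈ X0), f (e x hx) ≠ 1 ∧
    p = (f (e x hx), D x ∩ Ioo a b)} with hY
  have hfund : ∀ (x : Hm) (hx : x ∈ X0), Fund (f (e x hx)) (D x ∩ Ioo a b) := by
    intro x hx
    exact fund x _ (D x) a b (hfa x (Subgroup.subset_closure hx))
      (hfb x (Subgroup.subset_closure hx)) (hr1 (e x hx)) (hr2 (e x hx)) (hfast.1 x hx)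
  have hfeet : ∀ (x : Hm) (hx : x ∈ X0) (w : ℝ), w ∈ Ft (f (e x hx), D x ∩ Ioo a b) ↔
      w ∈ sp x \ D x ∧ a < w ∧ w < b := by
    intro x hx w
    exact feet x _ (D x) a b (hr1 (e x hx)) (hr2 (e x hx)) w
  -- the main inequality for pairs
  have hdis : ∀ (x : Hm) (hx : x ∈ X0) (y : Hm) (hy : y ∈ X0), x ≠ y →
      ∀ w, w ∈ Ft (f (e x hx), D x ∩ Ioo a b) → w ∈ Ft (f (e y hy), D y ∩ Ioo a b) → False := by
    intro x hx y hy hxy w h1 h2
    rw [hfeet x hx] at h1
    rw [hfeet y hy] at h2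
    exact Set.disjoint_left.1 (hfast.2 x hx y hy hxy) h1.1 h2.1
  have hl : ∀ (x : Hm) (hx : x ∈ X0) (y : Hm) (hy : y ∈ X0), x ≠ y →
      ∀ w, w ∈ Ft (f (e y hy), D y ∩ Ioo a b) → w ∈ cv (Ft (f (e x hx), D x ∩ Ioo a b)) →
      (f (e x hx)) w ≠ w := by
    intro x hx y hy hxy w hw hcv
    obtain ⟨a1, ha1, a2, ha2, h1, h2⟩ := hcv
    have hne1 : a1 ≠ w := by
      rintro rfl
      exact hdis x hx y hy hxy a1 ha1 hw
    have hne2 : w ≠ a2 := by
      rintro rfl
      exact hdis x hx y hy hxy w ha2 hw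
    have h1' : a1 < w := lt_of_le_of_ne h1 hne1
    have h2' : w < a2 := lt_of_le_of_ne h2 hne2
    rw [hfeet x hx] at ha1 ha2
    rw [hfeet y hy] at hw
    have hkey := hgap x hx y hy hxy a1 w a2 h1' h2' ha1.1.1 ha2.1.1 (by
      intro t ht1 ht2
      exact moved X0 t (horb t (lt_of_lt_of_le ha1.2.1 ht1) (lt_of_le_of_lt ht2 ha2.2.2))) hw.1
    rw [hr1 (e x hx) w hw.2.1.le hw.2.2.le]
    exact hkey
  have hgood : Good Y := by
    refine ⟨?_, ?_, ?_⟩
    · have : Finite X0 := hfin.to_subtype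
      refine (Set.finite_range (fun x : X0 =>
        ((f (e x.1 x.2), D x.1 ∩ Ioo a b) : ME))).subset ?_
      rintro p ⟨x, hx, -, rfl⟩
      exact ⟨⟨x, hx⟩, rfl⟩
    · rintro p ⟨x, hx, hne, rfl⟩
      exact ni _ _ (hfpl _) hne (hfund x hx)
    · rintro p ⟨x, hx, hne, rfl⟩ q ⟨y, hy, hne', rfl⟩ hpq
      have hxy : x ≠ y := by
        rintro rfl
        exact hpq rfl
      refine ⟨?_, ?_, ?_⟩
      · rw [Set.disjoint_left]
        intro w h1 h2
        exact hdis x hx y hy hxy w h1 h2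
      · intro w hw hcv
        exact hl x hx y hy hxy w hw hcv
      · intro w hw hcv
        exact hl y hy x hx (Ne.symm hxy) w hw hcv
  have hrange : ∀ p ∈ Y, p.1 ∈ f.range := by
    rintro p ⟨x, hx, -, rfl⟩
    exact ⟨e x hx, rfl⟩
  have hEA : EA ↥(cl Y) := by
    refine mn f.range ?_ (rb _ a b hab hPL hfa hfb hbal f ⟨hr1, hr2⟩ hfpl) Y hgood hrange
    rintro g ⟨k, rfl⟩
    exact hfpl k
  have hcl : ∀ k (hk : k ∈ Subgroup.closure X0), f ⟨k, hk⟩ ∈ cl Y := by
    intro k hk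
    induction hk using Subgroup.closure_induction with
    | mem x hx =>
      by_cases h1 : f (e x hx) = 1
      · show f (e x hx) ∈ cl Y
        rw [h1]; exact Subgroup.one_mem _
      · refine Subgroup.subset_closure ?_
        exact ⟨(f (e x hx), D x ∩ Ioo a b), ⟨x, hx, h1, rfl⟩, rfl⟩
    | one =>
      have : f ⟨1, Subgroup.one_mem _⟩ = 1 := f.map_one
      rw [this]; exact Subgroup.one_mem _
    | mul x y hx hy h1 h2 =>
      have : f ⟨x * y, Subgroup.mul_mem _ hx hy⟩ = f ⟨x, hx⟩ * f ⟨y, hy⟩ := by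
        rw [← f.map_mul]; rfl
      rw [this]; exact Subgroup.mul_mem _ h1 h2
    | inv x hx h1 =>
      have : f ⟨x⁻¹, Subgroup.inv_mem _ hx⟩ = (f ⟨x, hx⟩)⁻¹ := by
        rw [← f.map_inv]; rfl
      rw [this]; exact Subgroup.inv_mem _ h1
  have heq : f.range = cl Y := by
    apply le_antisymm
    · rintro g ⟨k, rfl⟩
      exact hcl k.1 k.2
    · refine (Subgroup.closure_le _).2 ?_
      rintro g ⟨p, hp, rfl⟩
      exact hrange p hp
  rw [heq]
  exact hEA

end FPT.GF.RCM
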