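import Pool.Agent.Lib.MP_c27bde_al.GF.Spec

set_option autoImplicit false

namespace FPT.GF.RDM

open Set FPT FPT.GF

theorem pls_closure (X : Set Hm) (h : ∀ g ∈ X, IsPL g) : PLs (Subgroup.closure X) := by
  intro g hg
  induction hg using Subgroup.closure_induction with
  | mem x hx => exact h x hx
  | one => exact FINM.plb.one
  | mul x y _ _ hx hy => exact FINM.plb.mul x y hx hy
  | inv x _ hx => exact FINM.plb.inv x hx

/-- orbitals of `K` -/
def IsOrb (K : Subgroup Hm) (o : ℝ × ℝ) : Prop :=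
  o.1 < o.2 ∧ (∀ g ∈ K, g o.1 = o.1) ∧ (∀ g ∈ K, g o.2 = o.2) ∧
    ∀ u, o.1 < u → u < o.2 → ∃ g ∈ K, g u ≠ u

theorem orb_inj (K : Subgroup Hm) (o o' : ℝ × ℝ) (h : IsOrb K o) (h' : IsOrb K o')
    (he : o.1 = o'.1) : o = o' := by
  have h2 : o.2 = o'.2 := by
    rcases lt_trichotomy o.2 o'.2 with hl | hl | hl
    · obtain ⟨g, hg, hne⟩ := h'.2.2.2 o.2 (by rw [← he]; exact h.1) hl
      exact absurd (h.2.2.1 g hg) hne
    · exact hl
    · obtain ⟨g, hg, hne⟩ := h.2.2.2 o'.2 (by rw [he]; exact h'.1) hl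
      exact absurd (h'.2.2.1 g hg) hne
  exact Prod.ext he h2

theorem common_eps (X0 : Set Hm) (hf : X0.Finite) (a : ℝ)
    (h : ∀ x ∈ X0, ∃ ε > 0, ∀ y, a ≤ y → y ≤ a + ε → x y = y) :
    ∃ ε > 0, ∀ x ∈ X0, ∀ y, a ≤ y → y ≤ a + ε → x y = y := by
  induction X0, hf using Set.Finite.induction_on with
  | empty => exact ⟨1, one_pos, by simp⟩
  | @insert x s _ _ ih =>
    obtain ⟨e1, he1, h1⟩ := ih (fun z hz => h z (mem_insert_of_mem _ hz))
    obtain ⟨e2, he2, h2⟩ := h x (mem_insert _ _)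
    refine ⟨min e1 e2, lt_min he1 he2, ?_⟩
    intro z hz y hy1 hy2
    rcases mem_insert_iff.1 hz with rfl | hz
    · exact h2 y hy1 (hy2.trans (by linarith [min_le_right e1 e2]))
    · exact h1 z hz y hy1 (hy2.trans (by linarith [min_le_left e1 e2]))

theorem fix_closure (X0 : Set Hm) (u : ℝ) (h : ∀ x ∈ X0, x u = u) :
    ∀ g ∈ Subgroup.closure X0, g u = u := by
  intro g hg
  induction hg using Subgroup.closure_induction with
  | mem x hx => exact h x hx
  | one => rfl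
  | mul x y _ _ hx hy => rw [RelIso.mul_apply, hy, hx]
  | inv x _ hx =>
    have : x⁻¹ (x u) = u := by rw [← RelIso.mul_apply, inv_mul_cancel]; rfl
    rw [hx] at this
    exact this

theorem orb_fin (X0 : Set Hm) (hf : X0.Finite) (hpl : ∀ g ∈ X0, IsPL g) :
    {o | IsOrb (Subgroup.closure X0) o}.Finite := by
  have h1 : (⋃ x ∈ X0, {u | x u = u ∧ er x u ≠ 0}).Finite :=
    hf.biUnion (fun x hx => FINM.plb.fixR x (hpl x hx))
  refine Set.Finite.of_injOn (f := Prod.fst) ?_ ?_ h1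
  · intro o ho
    by_contra hcon
    have hall : ∀ x ∈ X0, ∃ ε > 0, ∀ y, o.1 ≤ y → y ≤ o.1 + ε → x y = y := by
      intro x hx
      have hfx : x o.1 = o.1 := ho.2.1 x (Subgroup.subset_closure hx)
      apply FINM.pl2.er0 x o.1 (hpl x hx) hfx
      by_contra hne
      apply hcon
      rw [mem_iUnion₂]
      exact ⟨x, hx, hfx, hne⟩
    obtain ⟨ε, hε, hfix⟩ := common_eps X0 hf o.1 hall
    have hlt := ho.1
    set u := o.1 + min ε ((o.2 - o.1) / 2) with hu
    have hm0 : 0 < min ε ((o.2 - o.1) / 2) := lt_min hε (by linarith)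
    have hu1 : o.1 < u := by linarith
    have hu2 : u < o.2 := by
      have := min_le_right ε ((o.2 - o.1) / 2)
      linarith
    have hu3 : u ≤ o.1 + ε := by
      have := min_le_left ε ((o.2 - o.1) / 2)
      linarith
    obtain ⟨g, hg, hne⟩ := ho.2.2.2 u hu1 hu2
    exact hne (fix_closure X0 u (fun x hx => hfix x hx u hu1.le hu3) g hg)
  · intro o ho o' ho' he
    exact orb_inj _ o o' ho ho' he

theorem bal_mono (K K' : Subgroup Hm) (h : K ≤ K') (hb : Bal K') : Bal K :=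
  fun G hG => hb G (hG.trans h)

theorem fin_case (hRA : SpecRA) (hRC : SpecRC) (hEG : SpecEG) (X0 : Set Hm) (D : Hm → Set ℝ)
    (hf : X0.Finite) (hpl : ∀ g ∈ X0, IsPL g) (hb : Bal (Subgroup.closure X0))
    (hG : GFast X0 D) (hN : NoGap X0 D) : EA ↥(Subgroup.closure X0) := by
  set K := Subgroup.closure X0 with hK
  have hpls : PLs K := pls_closure X0 hpl
  have hfin := orb_fin X0 hf hpl
  obtain ⟨n, e, -, he⟩ : ∃ (n : ℕ) (e : Fin n → ℝ × ℝ), Function.Injective e ∧
      range e = {o | IsOrb K o} := hfin.fin_param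
  have hio : ∀ i, IsOrb K (e i) := by
    intro i
    have : e i ∈ {o | IsOrb K o} := by rw [← he]; exact mem_range_self i
    exact this
  have hex : ∀ i, ∃ f : ↥K →* Hm, Res K (e i).1 (e i).2 f ∧ ∀ k, IsPL (f k) := fun i =>
    hRA K (e i).1 (e i).2 (hio i).1 hpls (hio i).2.1 (hio i).2.2.1
  choose f hres hfpl using hex
  refine hEG.hom K n f ?_ ?_
  · intro i
    exact hRC X0 D (e i).1 (e i).2 hf (hio i).1 hpl hb hG hN (hio i).2.1 (hio i).2.2.1
      (hio i).2.2.2 (f i) (hres i) (hfpl i)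
  · intro k hk
    by_contra hne
    have : ∃ u, k.1 u ≠ u := by
      by_contra hcon
      push Not at hcon
      apply hne
      apply Subtype.ext
      exact RelIso.ext hcon
    obtain ⟨u, hu⟩ := this
    obtain ⟨a, b, hau, hub, fa, fb, horb⟩ := FINM.ord.orbital K hpls u ⟨k.1, k.2, hu⟩
    have hmem : (a, b) ∈ {o | IsOrb K o} := ⟨hau.trans hub, fa, fb, horb⟩
    rw [← he] at hmem
    obtain ⟨i, hi⟩ := hmem
    have h1 := (hres i).1 k u (by rw [hi]; exact hau.le) (by rw [hi]; exact hub.le)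
    rw [hk i] at h1
    exact hu h1.symm

theorem specRD (hRA : SpecRA) (hRC : SpecRC) (hEG : SpecEG) : SpecRD := by
  intro X D hpl hb hG hN
  apply hEG.dir
  intro S0 hS0 hsub
  refine fin_case hRA hRC hEG S0 D hS0 (fun g hg => hpl g (hsub hg))
    (bal_mono _ _ (Subgroup.closure_mono hsub) hb)
    ⟨fun g hg => hG.1 g (hsub hg), fun g hg h hh => hG.2 g (hsub hg) h (hsub hh)⟩ ?_
  intro g hg h hh hne p q r hpq hqr hp hr hmv hq
  refine hN g (hsub hg) h (hsub hh) hne p q r hpq hqr hp hr ?_ hq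
  intro t ht1 ht2
  obtain ⟨z, hz, hzt⟩ := hmv t ht1 ht2
  exact ⟨z, hsub hz, hzt⟩

end FPT.GF.RDM
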