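import Pool.Agent.Lib.MP_c27bde_al.GF.Spec

set_option autoImplicit false

namespace FPT.GF.TRM

open Set FPT FPT.GF

theorem sp_open (g : Hm) : IsOpen (sp g) :=
  isOpen_ne_fun g.continuous continuous_id

theorem inf_notin {S : Set ℝ} (hS : IsOpen S) (hb : BddBelow S) : sInf S ∉ S := by
  intro h
  obtain ⟨ε, hε, hball⟩ := Metric.isOpen_iff.1 hS _ h
  have h1 : sInf S - ε / 2 ∈ S := by
    apply hball
    rw [Metric.mem_ball, Real.dist_eq]
    rw [show sInf S - ε / 2 - sInf S = -(ε / 2) by ring, abs_neg, abs_of_pos (by linarith)]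
    linarith
  have h2 := csInf_le hb h1
  linarith

theorem sup_notin {S : Set ℝ} (hS : IsOpen S) (hb : BddAbove S) : sSup S ∉ S := by
  intro h
  obtain ⟨ε, hε, hball⟩ := Metric.isOpen_iff.1 hS _ h
  have h1 : sSup S + ε / 2 ∈ S := by
    apply hball
    rw [Metric.mem_ball, Real.dist_eq]
    rw [show sSup S + ε / 2 - sSup S = (ε / 2) by ring, abs_of_pos (by linarith)]
    linarith
  have h2 := le_csSup hb h1
  linarith

theorem movR (g : Hm) (x : ℝ) (hg : IsPL g) (hx : g x = x) (h0 : er g x ≠ 0) :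
    ∃ v, x < v ∧ ∀ w, x < w → w < v → g w ≠ w := by
  rcases lt_or_gt_of_ne h0 with h | h
  · obtain ⟨ε, hε, H⟩ := FINM.pl2.ern g x hg hx h
    exact ⟨x + ε, by linarith, fun w h1 h2 => (H w h1 h2.le).ne⟩
  · obtain ⟨ε, hε, H⟩ := FINM.pl2.erp g x hg hx h
    exact ⟨x + ε, by linarith, fun w h1 h2 => (H w h1 h2.le).ne'⟩

theorem movL (g : Hm) (x : ℝ) (hg : IsPL g) (hx : g x = x) (h0 : el g x ≠ 0) :
    ∃ v, v < x ∧ ∀ w, v < w → w < x → g w ≠ w := by
  rcases lt_or_gt_of_ne h0 with h | h
  · obtain ⟨ε, hε, H⟩ := FINM.pl2.eln g x hg hx h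
    exact ⟨x - ε, by linarith, fun w h1 h2 => (H w h1.le h2).ne'⟩
  · obtain ⟨ε, hε, H⟩ := FINM.pl2.elp g x hg hx h
    exact ⟨x - ε, by linarith, fun w h1 h2 => (H w h1.le h2).ne⟩

theorem ftR (p : ME) (hp : Nice p) (hg : IsPL p.1) (x : ℝ) (hx : p.1 x = x)
    (h0 : er p.1 x ≠ 0) : ∃ v, x < v ∧ ∀ w, x < w → w < v → w ∈ Ft p := by
  obtain ⟨v, hv, H⟩ := movR p.1 x hg hx h0
  exact hp.adR x v hv hx H

theorem ftL (p : ME) (hp : Nice p) (hg : IsPL p.1) (x : ℝ) (hx : p.1 x = x)
    (h0 : el p.1 x ≠ 0) : ∃ v, v < x ∧ ∀ w, v < w → w < x → w ∈ Ft p := by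
  obtain ⟨v, hv, H⟩ := movL p.1 x hg hx h0
  exact hp.adL v x hv hx H

/-- moved points near a moved point -/
theorem near (g : Hm) (x : ℝ) (hx : g x ≠ x) : ∃ ε > 0, ∀ w, |w - x| < ε → g w ≠ w := by
  obtain ⟨ε, hε, hball⟩ := Metric.isOpen_iff.1 (sp_open g) x hx
  refine ⟨ε, hε, fun w hw => hball ?_⟩
  rw [Metric.mem_ball, Real.dist_eq]
  exact hw

/-- data at the left end of the support -/
theorem leftEnd (q : ME) (hq : Nice q) (hg : IsPL q.1) : ∃ e : ℝ,
    (∀ w ≤ e, q.1 w = w) ∧ (∀ w ∈ Ft q, e < w) ∧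
    ∃ v, e < v ∧ ∀ w, e < w → w < v → w ∈ Ft q := by
  have hb : BddBelow (sp q.1) := by
    refine ⟨0, fun w hw => ?_⟩
    by_contra h
    exact hw (hg.1 w (not_le.1 h).le)
  have hne : (sp q.1).Nonempty := by
    obtain ⟨w, hw⟩ := hq.ne
    exact ⟨w, hw.1⟩
  have hfix : q.1 (sInf (sp q.1)) = sInf (sp q.1) := by
    by_contra h
    exact inf_notin (sp_open q.1) hb h
  have htriv : ∀ w ≤ sInf (sp q.1), q.1 w = w := by
    intro w hw
    by_contra h
    have h1 := csInf_le hb (show w ∈ sp q.1 from h)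
    have h2 : w = sInf (sp q.1) := le_antisymm hw h1
    rw [h2] at h
    exact h hfix
  refine ⟨sInf (sp q.1), htriv, ?_, ?_⟩
  · intro w hw
    have h1 := csInf_le hb hw.1
    rcases h1.lt_or_eq with h | h
    · exact h
    · exfalso
      apply hw.1
      rw [← h]; exact hfix
  · apply ftR q hq hg _ hfix
    intro h0
    obtain ⟨ε, hε, H⟩ := FINM.pl2.er0 q.1 _ hg hfix h0
    obtain ⟨w, hw, hw2⟩ := exists_lt_of_csInf_lt hne (show sInf (sp q.1) < sInf (sp q.1) + ε by
      linarith)
    exact hw (H w (csInf_le hb hw) hw2.le)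

/-- data at the right end of the support -/
theorem rightEnd (q : ME) (hq : Nice q) (hg : IsPL q.1) : ∃ f : ℝ,
    (∀ w, f ≤ w → q.1 w = w) ∧ (∀ w ∈ Ft q, w < f) ∧
    ∃ v, v < f ∧ ∀ w, v < w → w < f → w ∈ Ft q := by
  have hb : BddAbove (sp q.1) := by
    refine ⟨1, fun w hw => ?_⟩
    by_contra h
    exact hw (hg.2.1 w (not_le.1 h).le)
  have hne : (sp q.1).Nonempty := by
    obtain ⟨w, hw⟩ := hq.ne
    exact ⟨w, hw.1⟩
  have hfix : q.1 (sSup (sp q.1)) = sSup (sp q.1) := by
    by_contra h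
    exact sup_notin (sp_open q.1) hb h
  have htriv : ∀ w, sSup (sp q.1) ≤ w → q.1 w = w := by
    intro w hw
    by_contra h
    have h1 := le_csSup hb (show w ∈ sp q.1 from h)
    have h2 : w = sSup (sp q.1) := le_antisymm h1 hw
    rw [h2] at h
    exact h hfix
  refine ⟨sSup (sp q.1), htriv, ?_, ?_⟩
  · intro w hw
    have h1 := le_csSup hb hw.1
    rcases h1.lt_or_eq with h | h
    · exact h
    · exfalso
      apply hw.1
      rw [h]; exact hfix
  · apply ftL q hq hg _ hfix
    intro h0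
    obtain ⟨ε, hε, H⟩ := FINM.pl2.el0 q.1 _ hg hfix h0
    obtain ⟨w, hw, hw2⟩ := exists_lt_of_lt_csSup hne (show sSup (sp q.1) - ε < sSup (sp q.1) by
      linarith)
    exact hw (H w hw2.le (le_csSup hb hw))

theorem core (K : Subgroup Hm) (hPL : PLs K) (hBal : Bal K) (p q : ME) (hpK : p.1 ∈ K)
    (hqK : q.1 ∈ K) (hp : Nice p) (hq : Nice q) (hg : GPr p q)
    (a : ℝ) (ha : a ∈ Ft p) (haq : ∀ y ∈ Ft q, a < y)
    (b : ℝ) (hb : b ∈ Ft q) (hbp : ∀ x ∈ Ft p, x < b)
    (q1 : ℝ) (hq1 : q1 ∈ Ft q) (a2 : ℝ) (ha2 : a2 ∈ Ft p) (hlt : q1 < a2) : False := by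
  have hpp : IsPL p.1 := hPL _ hpK
  have hqq : IsPL q.1 := hPL _ hqK
  have hdis : ∀ w, w ∈ Ft p → w ∈ Ft q → False := fun w h1 h2 =>
    Set.disjoint_left.1 hg.dis h1 h2
  obtain ⟨e, he, heF, ve, hve, hveF⟩ := leftEnd q hq hqq
  obtain ⟨f, hf, hfF, uf, huf, hufF⟩ := rightEnd p hp hpp
  have heq1 := heF q1 hq1
  have hfa2 := hfF a2 ha2
  -- a ≤ e, f ≤ b
  have hae : a ≤ e := by
    by_contra h
    push Not at h
    have h1 : (e + min ve a) / 2 ∈ Ft q := by
      apply hveF
      · have := lt_min hve h; linarith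
      · have h2 := lt_min hve h
        have h3 := min_le_left ve a
        linarith
    have h4 := haq _ h1
    have h5 := min_le_right ve a
    linarith
  have hfb : f ≤ b := by
    by_contra h
    push Not at h
    have h1 : (f + max uf b) / 2 ∈ Ft p := by
      apply hufF
      · have h2 := max_lt huf h
        have h3 := le_max_left uf b
        linarith
      · have := max_lt huf h; linarith
    have h4 := hbp _ h1
    have h5 := le_max_right uf b
    linarith
  -- p moves e
  have hpe : p.1 e ≠ e := by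
    intro h
    have hae' : a < e := by
      rcases hae.lt_or_eq with h1 | h1
      · exact h1
      · exfalso; apply ha.1; rw [h1]; exact h
    obtain ⟨v, hv, hvF⟩ := hp.adR e (min ve a2) (lt_min hve (by linarith)) h (by
      intro w h1 h2
      have h3 : w < ve := lt_of_lt_of_le h2 (min_le_left _ _)
      have h4 : w < a2 := lt_of_lt_of_le h2 (min_le_right _ _)
      exact hg.l w (hveF w h1 h3) ⟨a, ha, a2, ha2, by linarith, h4.le⟩)
    have h5 := lt_min hve hv
    have h6 := min_le_left ve v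
    have h7 := min_le_right ve v
    exact hdis ((e + min ve v) / 2) (hvF _ (by linarith) (by linarith))
      (hveF _ (by linarith) (by linarith))
  have hqf : q.1 f ≠ f := by
    intro h
    have hfb' : f < b := by
      rcases hfb.lt_or_eq with h1 | h1
      · exact h1
      · exfalso; apply hb.1; rw [← h1]; exact h
    obtain ⟨v, hv, hvF⟩ := hq.adL (max uf q1) f (max_lt huf (by linarith)) h (by
      intro w h1 h2
      have h3 : uf < w := lt_of_le_of_lt (le_max_left _ _) h1
      have h4 : q1 < w := lt_of_le_of_lt (le_max_right _ _) h1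
      exact hg.r w (hufF w h3 h2) ⟨q1, hq1, b, hb, h4.le, by linarith⟩)
    have h5 := max_lt huf hv
    have h6 := le_max_left uf v
    have h7 := le_max_right uf v
    exact hdis ((f + max uf v) / 2) (hufF _ (by linarith) (by linarith))
      (hvF _ (by linarith) (by linarith))
  -- α and β
  obtain ⟨α, hα1, hα2, hα3, hα4⟩ := FINM.ord.last p.1 (min 0 e - 1) e
    (hpp.1 _ (by have := min_le_left 0 e; linarith))
    (by have := min_le_right 0 e; linarith) (by
      obtain ⟨ε, hε, H⟩ := near p.1 e hpe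
      refine ⟨ε, hε, fun w h1 h2 => H w ?_⟩
      rw [abs_lt]; constructor <;> linarith)
  obtain ⟨β, hβ1, hβ2, hβ3, hβ4⟩ := FINM.ord.first q.1 f (max 1 f + 1)
    (hqq.2.1 _ (by have := le_max_left 1 f; linarith))
    (by have := le_max_right 1 f; linarith) (by
      obtain ⟨ε, hε, H⟩ := near q.1 f hqf
      refine ⟨ε, hε, fun w h1 h2 => H w ?_⟩
      rw [abs_lt]; constructor <;> linarith)
  have hef : e < f := by linarith
  have hαβ : α < β := by linarith
  -- the group
  set G : Subgroup Hm := Subgroup.closure {p.1, q.1} with hG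
  have hpG : p.1 ∈ G := Subgroup.subset_closure (by simp)
  have hqG : q.1 ∈ G := Subgroup.subset_closure (by simp)
  have hGK : G ≤ K := by
    rw [hG, Subgroup.closure_le]
    rintro x (rfl | hx)
    · exact hpK
    · rw [mem_singleton_iff] at hx; rw [hx]; exact hqK
  have hfix : ∀ z : ℝ, p.1 z = z → q.1 z = z → ∀ g ∈ G, g z = z := by
    intro z h1 h2 g hgG
    have hle : G ≤ MulAction.stabilizer Hm z := by
      rw [hG, Subgroup.closure_le]
      rintro x (rfl | hx)
      · exact h1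
      · rw [mem_singleton_iff] at hx; rw [hx]; exact h2
    exact hle hgG
  have hmov : ∀ u, α < u → u < β → ∃ g ∈ G, g u ≠ u := by
    intro u hu1 hu2
    by_contra hcon
    push Not at hcon
    have hpu := hcon _ hpG
    have hqu := hcon _ hqG
    have heu : e < u := by
      by_contra h
      push Not at h
      rcases h.lt_or_eq with h1 | h1
      · exact hα4 u hu1 h1 hpu
      · rw [h1] at hpu; exact hpe hpu
    have huf' : u < f := by
      by_contra h
      push Not at h
      rcases h.lt_or_eq with h1 | h1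
      · exact hβ4 u h1 hu2 hqu
      · rw [← h1] at hqu; exact hqf hqu
    -- the set S
    set S : Set ℝ := {w | u < w} ∩ (sp p.1 ∪ sp q.1) with hS
    have hSo : IsOpen S := (isOpen_lt continuous_const continuous_id).inter
      ((sp_open _).union (sp_open _))
    have hSb : BddBelow S := ⟨u, fun w hw => le_of_lt hw.1⟩
    have hfS : f ∈ S := ⟨huf', Or.inr hqf⟩
    have hSne : S.Nonempty := ⟨f, hfS⟩
    set w1 := sInf S with hw1
    have hw1S : w1 ∉ S := inf_notin hSo hSb
    have huw1 : u ≤ w1 := le_csInf hSne (fun w hw => le_of_lt hw.1)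
    have hfixw : p.1 w1 = w1 ∧ q.1 w1 = w1 := by
      rcases huw1.lt_or_eq with h | h
      · constructor
        · by_contra h1; exact hw1S ⟨h, Or.inl h1⟩
        · by_contra h1; exact hw1S ⟨h, Or.inr h1⟩
      · rw [← h]; exact ⟨hpu, hqu⟩
    have hw1f : w1 < f := by
      rcases (csInf_le hSb hfS).lt_or_eq with h | h
      · exact h
      · exfalso; apply hqf; rw [← h]; exact hfixw.2
    have hew1 : e < w1 := by linarith
    by_cases hc : er p.1 w1 = 0 ∧ er q.1 w1 = 0
    · obtain ⟨ε1, hε1, H1⟩ := FINM.pl2.er0 p.1 w1 hpp hfixw.1 hc.1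
      obtain ⟨ε2, hε2, H2⟩ := FINM.pl2.er0 q.1 w1 hqq hfixw.2 hc.2
      obtain ⟨w, hw, hw2⟩ := exists_lt_of_csInf_lt hSne
        (show sInf S < w1 + min ε1 ε2 by have := lt_min hε1 hε2; linarith)
      have hww : w1 ≤ w := csInf_le hSb hw
      have h3 := min_le_left ε1 ε2
      have h4 := min_le_right ε1 ε2
      rcases hw.2 with h | h
      · exact h (H1 w hww (by linarith))
      · exact h (H2 w hww (by linarith))
    · rw [not_and_or] at hc
      rcases hc with hc | hc
      · obtain ⟨v, hv, hvF⟩ := ftR p hp hpp w1 hfixw.1 hc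
        obtain ⟨v2, hv2, hv2F⟩ := hq.adR w1 (min v f) (lt_min hv hw1f) hfixw.2 (by
          intro w h1 h2
          have h3 : w < v := lt_of_lt_of_le h2 (min_le_left _ _)
          have h4 : w < f := lt_of_lt_of_le h2 (min_le_right _ _)
          have h5 := lt_min hve hew1
          have h6 := min_le_left ve w1
          have h7 := min_le_right ve w1
          exact hg.r w (hvF w h1 h3) ⟨(e + min ve w1) / 2, hveF _ (by linarith) (by linarith),
            b, hb, by linarith, by linarith⟩)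
        have h5 := lt_min hv hv2
        have h6 := min_le_left v v2
        have h7 := min_le_right v v2
        exact hdis ((w1 + min v v2) / 2) (hvF _ (by linarith) (by linarith))
          (hv2F _ (by linarith) (by linarith))
      · obtain ⟨v, hv, hvF⟩ := ftR q hq hqq w1 hfixw.2 hc
        obtain ⟨v2, hv2, hv2F⟩ := hp.adR w1 (min v f) (lt_min hv hw1f) hfixw.1 (by
          intro w h1 h2
          have h3 : w < v := lt_of_lt_of_le h2 (min_le_left _ _)
          have h4 : w < f := lt_of_lt_of_le h2 (min_le_right _ _)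
          have h5 := max_lt huf h4
          have h6 := le_max_left uf w
          have h7 := le_max_right uf w
          exact hg.l w (hvF w h1 h3) ⟨a, ha, (f + max uf w) / 2,
            hufF _ (by linarith) (by linarith), by linarith, by linarith⟩)
        have h5 := lt_min hv hv2
        have h6 := min_le_left v v2
        have h7 := min_le_right v v2
        exact hdis ((w1 + min v v2) / 2) (hv2F _ (by linarith) (by linarith))
          (hvF _ (by linarith) (by linarith))
  have her : er q.1 α = 0 := FINM.pl2.er0' q.1 α ⟨e - α, by linarith, fun y _ hy =>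
    he y (by linarith)⟩
  have hel := hBal G hGK α β hαβ (hfix α hα3 (he α hα2.le)) (hfix β (hf β hβ1.le) hβ3) hmov
    q.1 hqG her
  obtain ⟨ε, hε, H⟩ := FINM.pl2.el0 q.1 β hqq hβ3 hel
  have h1 := max_lt hβ1 (show β - ε < β by linarith)
  have h2 := le_max_left f (β - ε)
  have h3 := le_max_right f (β - ε)
  exact hβ4 ((β + max f (β - ε)) / 2) (by linarith) (by linarith)
    (H _ (by linarith) (by linarith))

theorem side (S : Set ℝ) (b : ℝ) (hb : b ∉ cv S) :
    (∀ x ∈ S, x < b) ∨ (∀ x ∈ S, b < x) := by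
  by_contra h
  rw [not_or] at h
  obtain ⟨h1, h2⟩ := h
  push Not at h1 h2
  obtain ⟨x, hx, hx'⟩ := h1
  obtain ⟨y, hy, hy'⟩ := h2
  exact hb ⟨y, hy, x, hx, hy', hx'⟩

theorem specTR : SpecTR := by
  intro K hPL hBal p q hpK hqK hp hq hg
  by_contra hcon
  rw [not_or, not_or] at hcon
  obtain ⟨hc, hpq, hqp⟩ := hcon
  rw [Set.not_disjoint_iff] at hc
  obtain ⟨c, ⟨a1, ha1, a2, ha2, hac1, hac2⟩, ⟨b1, hb1, b2, hb2, hbc1, hbc2⟩⟩ := hc
  have hdis : ∀ w, w ∈ Ft p → w ∈ Ft q → False := fun w h1 h2 =>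
    Set.disjoint_left.1 hg.dis h1 h2
  obtain ⟨b, hb, hbD⟩ := Set.not_subset.1 hpq
  obtain ⟨a, ha, haD⟩ := Set.not_subset.1 hqp
  have hbcv : b ∉ cv (Ft p) := fun h => hdis b ⟨hg.l b hb h, hbD⟩ hb
  have hacv : a ∉ cv (Ft q) := fun h => hdis a ha ⟨hg.r a ha h, haD⟩
  have hsymm : GPr q p := ⟨hg.dis.symm, hg.r, hg.l⟩
  rcases side _ b hbcv with h | h
  · have hab := h a ha
    have h2 : ∀ y ∈ Ft q, a < y := by
      rcases side _ a hacv with h' | h'
      · exfalso; have := h' b hb; linarith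
      · exact h'
    refine core K hPL hBal p q hpK hqK hp hq hg a ha h2 b hb h b1 hb1 a2 ha2 ?_
    refine lt_of_le_of_ne (by linarith) ?_
    rintro rfl
    exact hdis _ ha2 hb1
  · have hab := h a ha
    have h2 : ∀ y ∈ Ft q, y < a := by
      rcases side _ a hacv with h' | h'
      · exact h'
      · exfalso; have := h' b hb; linarith
    refine core K hPL hBal q p hqK hpK hq hp hsymm b hb h a ha h2 a1 ha1 b2 hb2 ?_
    refine lt_of_le_of_ne (by linarith) ?_
    rintro rfl
    exact hdis _ ha1 hb2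

end FPT.GF.TRM
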