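import Pool.Agent.Lib.MP_c27bde_al.GF.Spec
import Pool.Agent.Lib.MP_c27bde_al.GF.FU
import Pool.Agent.Lib.MP_c27bde_al.GF.NI
import Pool.Agent.Lib.MP_c27bde_al.GF.CJ
import Pool.Agent.Lib.MP_c27bde_al.GF.CP
import Pool.Agent.Lib.MP_c27bde_al.GF.LB
import Pool.Agent.Lib.MP_c27bde_al.GF.LF
import Pool.Agent.Lib.MP_c27bde_al.GF.OI
import Pool.Agent.Lib.MP_c27bde_al.GF.CO
import Pool.Agent.Lib.MP_c27bde_al.GF.TR
import Pool.Agent.Lib.MP_c27bde_al.GF.EG
import Pool.Agent.Lib.MP_c27bde_al.GF.ES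
import Pool.Agent.Lib.MP_c27bde_al.GF.MN
import Pool.Agent.Lib.MP_c27bde_al.GF.RA
import Pool.Agent.Lib.MP_c27bde_al.GF.RB
import Pool.Agent.Lib.MP_c27bde_al.GF.RC
import Pool.Agent.Lib.MP_c27bde_al.GF.RD
import Pool.Agent.Lib.MP_c27bde_al.GF.NG
import Pool.Agent.Lib.MP_c27bde_al.GF.PW

/-!
MP_c27bde_al, GF: all modules closed.
-/

set_option autoImplicit false

namespace FPT.GF.MainM

open Set FPT

theorem fu : SpecFU := FUM.specFU
theorem ni : SpecNI := NIM.specNI fu
theorem cj' : SpecCJ := CJM.specCJ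
theorem cp : SpecCP := CPM.specCP cj'
theorem lb : SpecLB := LBM.specLB cj'
theorem lf : SpecLF := LFM.specLF lb
theorem oi : SpecOI := OIM.specOI lf cp cj'
theorem co : SpecCO := COM.specCO cj' lb lf oi
theorem tr : SpecTR := TRM.specTR
theorem eg : SpecEG := EGM.specEG
theorem es : SpecES := ESM.specES tr oi cj' eg
theorem mn : SpecMN := MNM.specMN co es oi
theorem ra : SpecRA := RAM.specRA
theorem rb : SpecRB := RBM.specRB
theorem rc : SpecRC := RCM.specRC mn ni rb
theorem rd : SpecRD := RDM.specRD ra rc eg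
theorem ng : SpecNG := NGM.specNG fu
theorem pw : SpecPW := PWM.specPW

/-- balanced if there is no copy of F -/
theorem bal_of_no_copy (T : Type) [Group T] (e : T ≃* FT) (K : Subgroup Hm) (hK : PLs K)
    (hno : ¬ ∃ f : T →* ↥K, Function.Injective f) : Bal K := by
  intro G hG a b hab ha hb hmov h hh h0
  by_contra hne
  obtain ⟨P, hP, Q, hQ, hpair, hPQ⟩ := FINM.ubiq G (fun g hg => hK g (hG hg)) a b hab ha hb hmov h hh
    h0 hne
  obtain ⟨f, hf0, hf1⟩ := FINM.exists_hom (⟨P, hG hP⟩ : ↥K) ⟨Q, hG hQ⟩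
    ⟨Subtype.ext hpair.1, Subtype.ext hpair.2⟩
  have hfi : Function.Injective f := by
    apply FINM.fq ↥K f
    rw [hf0, hf1]
    intro hc
    exact hPQ (congrArg Subtype.val hc)
  exact hno ⟨f.comp e.toMonoidHom, hfi.comp e.injective⟩

theorem pls_closure (X : Set Hm) (hX : ∀ g ∈ X, IsPL g) : PLs (Subgroup.closure X) := by
  intro g hg
  induction hg using Subgroup.closure_induction with
  | mem x hx => exact hX x hx
  | one => exact FINM.plb.one
  | mul x y _ _ hx hy => exact FINM.plb.mul x y hx hy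
  | inv x _ hx => exact FINM.plb.inv x hx

/-- the Brin-Sapir dichotomy for a geometrically fast generating set without gaps -/
theorem bsap (T : Type) [Group T] (e : T ≃* FT) (X : Set Hm) (D : Hm → Set ℝ)
    (hX : ∀ g ∈ X, IsPL g) (hF : GFast X D) (hN : NoGap X D) :
    EA ↥(Subgroup.closure X) ↔ ¬ ∃ f : T →* ↥(Subgroup.closure X), Function.Injective f := by
  refine ⟨fun h => FINM.no_copy T e _ h, fun h => ?_⟩
  exact rd X D hX (bal_of_no_copy T e _ (pls_closure X hX) h) hF hN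

/-- EA is invariant under isomorphisms -/
theorem ea_equiv (G G' : Type) [Group G] [Group G'] (e : G ≃* G') (h : EA G) : EA G' := by
  intro C h1 h2 h3 h4 h5 h6 h7
  exact h7 G G' e (h C h1 h2 h3 h4 h5 h6 h7)

/-- the dichotomy for a subgroup of `T`, represented by `ρ` -/
theorem bsap_of_inj (T : Type) [Group T] (ρ : T →* Hm) (hρ : Function.Injective ρ)
    (X : Set T)
    (h : EA ↥(Subgroup.closure (ρ '' X)) ↔
      ¬ ∃ f : T →* ↥(Subgroup.closure (ρ '' X)), Function.Injective f) :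
    EA ↥(Subgroup.closure X) ↔ ¬ ∃ f : T →* ↥(Subgroup.closure X), Function.Injective f := by
  have hmap : (Subgroup.closure X).map ρ = Subgroup.closure (ρ '' X) := MonoidHom.map_closure ρ X
  have eq : ↥(Subgroup.closure X) ≃* ↥(Subgroup.closure (ρ '' X)) := by
    rw [← hmap]
    exact (Subgroup.closure X).equivMapOfInjective ρ hρ
  constructor
  · intro hE hf
    obtain ⟨f, hf⟩ := hf
    exact h.1 (ea_equiv _ _ eq hE) ⟨eq.toMonoidHom.comp f, eq.injective.comp hf⟩
  · intro hf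
    refine ea_equiv _ _ eq.symm (h.2 ?_)
    rintro ⟨f, hfi⟩
    exact hf ⟨eq.symm.toMonoidHom.comp f, eq.symm.injective.comp hfi⟩

/-- the standard representation of `T ≃* FT` -/
theorem exists_rep (T : Type) [Group T] (e : T ≃* FT) :
    ∃ ρ : T →* Hm, Function.Injective ρ ∧ (∀ g, IsPL (ρ g)) ∧
      ∃ a b : T, Subgroup.closure {a, b} = ⊤ ∧
        (∀ t, 0 ≤ t → t ≤ 1 / 2 → ρ a t = t / 2) ∧
        (∀ t, 1 / 2 ≤ t → t ≤ 3 / 4 → ρ a t = t - 1 / 4) ∧
        (∀ t, 3 / 4 ≤ t → t ≤ 1 → ρ a t = 2 * t - 1) ∧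
        (∀ t, 0 ≤ t → t ≤ 1 / 2 → ρ b t = t) ∧
        (∀ t, 1 / 2 ≤ t → t ≤ 3 / 4 → ρ b t = t / 2 + 1 / 4) ∧
        (∀ t, 3 / 4 ≤ t → t ≤ 7 / 8 → ρ b t = t - 1 / 8) ∧
        (∀ t, 7 / 8 ≤ t → t ≤ 1 → ρ b t = 2 * t - 1) := by
  refine ⟨RHOM.rho.comp e.toMonoidHom, ?_, fun g => RHOM.isPL_rho _, ?_⟩
  · refine (FINM.fq Hm RHOM.rho ?_).comp e.injective
    rw [RHOM.rho_a0, RHOM.rho_a1]
    exact RHOM.nc1
  · have ha : (RHOM.rho.comp e.toMonoidHom) (e.symm a0) = RHOM.X := by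
      show RHOM.rho (e (e.symm a0)) = RHOM.X
      rw [MulEquiv.apply_symm_apply, RHOM.rho_a0]
    have hb : (RHOM.rho.comp e.toMonoidHom) (e.symm a1) = RHOM.Y := by
      show RHOM.rho (e (e.symm a1)) = RHOM.Y
      rw [MulEquiv.apply_symm_apply, RHOM.rho_a1]
    refine ⟨e.symm a0, e.symm a1, ?_, ?_, ?_, ?_, ?_, ?_, ?_, ?_⟩
    · have h0 : Subgroup.closure (Set.range (PresentedGroup.of (rels := rels))) = ⊤ :=
        PresentedGroup.closure_range_of rels
      have h1 : Set.range (PresentedGroup.of (rels := rels)) = {a0, a1} := by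
        ext z
        constructor
        · rintro ⟨i, rfl⟩
          fin_cases i
          · left; rfl
          · right; rfl
        · rintro (rfl | h)
          · exact ⟨0, rfl⟩
          · rw [Set.mem_singleton_iff] at h
            exact ⟨1, h.symm⟩
      have h2 : (Subgroup.closure ({a0, a1} : Set FT)).map
          e.symm.toMonoidHom = Subgroup.closure {e.symm a0, e.symm a1} := by
        rw [MonoidHom.map_closure, Set.image_pair]; rfl
      rw [← h2, ← h1, h0]
      exact Subgroup.map_top_of_surjective _ e.symm.surjective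
    · intro t h h'; rw [ha]; exact RHOM.Xb t h h'
    · intro t h h'; rw [ha]; exact RHOM.Xc t h h'
    · intro t h h'; rw [ha]; exact RHOM.Xd t h h'
    · intro t h h'; rw [hb]; exact RHOM.Ya t h'
    · intro t h h'; rw [hb]; exact RHOM.Yb t h h'
    · intro t h h'; rw [hb]; exact RHOM.Yc t h h'
    · intro t h h'; rw [hb]; exact RHOM.Yd t h h'

end FPT.GF.MainM
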