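import Pool.Agent.Lib.MP_c27bde_al.FP.Fin

/-!
MP_c27bde_al, GF (helper27): THE BRIN-SAPIR CONJECTURE FOR GEOMETRICALLY FAST GENERATING SETS.

Theorem.  Let `H` be a group of PL homeomorphisms of `[0,1]` (slopes powers of two; for instance a
subgroup of Thompson's group F) generated by a set `X` (finite or infinite) which is geometrically
fast (Bleak-Brin-Kassabov-Moore-Zaremsky: one can choose a marker in each orbital of each element
such that all feet are disjoint), and such that no foot of one generator lies in a gap (between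
moved points of the same orbital of `H`) of another generator.  Then `H` is elementary amenable if
and only if it contains no copy of F.  The second condition holds automatically if `X` has two
elements, and if each element of `X` has only finitely many fixed points between any two moved
points.  Corollary: for `f, g` in F without common orbital ends, all large powers `f^n, g^n`.

THE PROOF IN ONE PAGE.  A marked element `p = (g, D)`: `D` = the fundamental set (union of the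
fundamental domains `[s, g s)` or `[g s, s)` over the markers `s`), `Ft p = supp g \ D` = union of the
feet.  Ping-pong: `g^j D ⊆ Ft p` for `j ≠ 0`.  `Ins p q` (q is inside p): `Ft q ⊆ D_p`.  A good
family: feet of different elements are disjoint, and no foot of `q` in the convex hull of `Ft p` is
in a gap of `p`, for `p ≠ q`.
LABELS.  For `q` inside `p` let `T 0 = hull(Ft q)`, `T 1 = hull(Ft p ∩ T 0)`, `T 2 = hull(Ft q ∩ T 1)`,
`T 3 = hull(Ft p ∩ T 2)`, ...; the label of `(p,q)` is `≤ c` if `T c = ∅`; it is finite.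
COPIES.  Let `p, q` be inside `x`, `p' = x^m p x^-m`, `q' = x^m' q x^-m'`, `m ≠ m'`.  Since the feet of `q'` are
(relative to `p'`) inside the feet of `x`, the pair `(p',q')` is good, and if `q'` is inside `p'`:
`T_n(p',q') ⊆ x^m T_(n+1)(x,p)`, `T_n(p',q') ⊆ x^m' T_n(x,q)`.  So `label(p',q') ≤ label(x,p) - 1` and
`label(p',q') ≤ label(x,q)`.
THE GAME.  Good finite family `X`, `x` maximal in `X` (not inside another element): replace `X` by (a
subset of) `nx X x M` = the copies `x^m p x^-m`, `|m| ≤ M`, of all `p` inside `x`.  CLAIM (CO): every play is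
finite.  Proof: `S(c)`: if `X` is the union of classes, each class is terminating, and the labels
between different classes are `≤ c`, then `X` is terminating.  (All families: singletons are
terminating, `c` = the maximal label.)  `S(0)` is clear.  `S(c) => S(c+1)`: call `Z` c-good if
`Z ∪ Y` is terminating for every terminating `Y` with cross labels `≤ c+1`.  By induction every
terminating `Z` is c-good: let all families below `Z` in the game be c-good; show by induction on `Y`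
and then on `N` that `Y ∪ Z_1 ∪ .. ∪ Z_N` is terminating if each `Z_j` is like `Z` (e.g. a copy of a
subset of `Z`), the cross labels between the `Z_j` are `≤ c` and between `Y` and `Z_j` `≤ c+1`.
Move with `x ∈ Y`: `Y` gets smaller, the `Z_j^(m)` are new (more) families like `Z`, cross labels `≤ c`
by COPIES.  Move with `x ∈ Z_1`: `V = Y ∪ Z_2 ∪ .. ∪ Z_N` is terminating (induction on `N`), its copies
`V^(m)` have mutual labels `≤ c`, so by `S(c)` their union `V'` is terminating; the new `Z_1'` is below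
`Z_1`, so it is c-good, so `Z_1' ∪ V'` is terminating.
ELEMENTARY AMENABILITY.  In a balanced group (no copy of F; ubiquity) two good elements have
disjoint hulls or one is inside the other (TR).  So a good family in a balanced group is the
commuting union of the sets `{x} ∪ {p inside x}`, `x` maximal, and `<x, p inside x>` is an extension of
the union of the groups `<nx X x M>` by a cyclic group.  By induction along the game the group is in
EG.  Finally one restricts to the (finitely many) orbitals of `H`.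

Module `XXX` = file `GF/XXX.lean`, imports `GF.Spec` only (it contains all of `FP`: use `FINM.plb`,
`FINM.pl2`, `FINM.ord`, `FINM.ubiq`, ...), theorem `specXXX (hypotheses named in the docstring) :
SpecXXX` in the namespace `FPT.GF.XXXM`.  Products are compositions: `(g * h) u = g (h u)`.
-/

set_option autoImplicit false

namespace FPT.GF

open Set FPT

/-! ### Marked elements -/

/-- the support -/
def sp (g : Hm) : Set ℝ := {w | g w ≠ w}

/-- `D` is the fundamental set of a marking of `g`: `m` has exactly one element in each orbital of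
`g` (orbital: component of the support) and `D` is the union of the half open intervals between
`s` and `g s`, `s ∈ m`. -/
def Fund (g : Hm) (D : Set ℝ) : Prop :=
  ∃ m : Set ℝ, (∀ s ∈ m, g s ≠ s) ∧
    (∀ w, g w ≠ w → ∃ s ∈ m, ∀ t ∈ uIcc w s, g t ≠ t) ∧
    (∀ s ∈ m, ∀ s' ∈ m, (∀ t ∈ uIcc s s', g t ≠ t) → s = s') ∧
    D = {w | ∃ s ∈ m, min s (g s) ≤ w ∧ w < max s (g s)}

/-- marked elements -/
abbrev ME := Hm × Set ℝ

/-- the union of the feet -/
def Ft (p : ME) : Set ℝ := sp p.1 \ p.2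

/-- convex hull (for the order) -/
def cv (S : Set ℝ) : Set ℝ := {w | ∃ a ∈ S, ∃ b ∈ S, a ≤ w ∧ w ≤ b}

/-- `q` is inside `p` -/
def Ins (p q : ME) : Prop := Ft q ⊆ p.2

/-- the properties of a marked element that are used -/
structure Nice (p : ME) : Prop where
  sub : p.2 ⊆ sp p.1
  png : ∀ w ∈ p.2, ∀ j : ℤ, j ≠ 0 → (p.1 ^ j) w ∈ Ft p
  hul : sp p.1 ⊆ cv (Ft p)
  ne : (Ft p).Nonempty
  fin : ∃ (n : ℕ) (C : Fin n → Set ℝ), (∀ i, (C i).OrdConnected) ∧ Ft p = ⋃ i, C i
  adR : ∀ u v, u < v → p.1 u = u → (∀ w, u < w → w < v → p.1 w ≠ w) →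
    ∃ v', u < v' ∧ ∀ w, u < w → w < v' → w ∈ Ft p
  adL : ∀ u v, u < v → p.1 v = v → (∀ w, u < w → w < v → p.1 w ≠ w) →
    ∃ u', u' < v ∧ ∀ w, u' < w → w < v → w ∈ Ft p

/-- good pairs -/
structure GPr (p q : ME) : Prop where
  dis : Disjoint (Ft p) (Ft q)
  l : ∀ w ∈ Ft q, w ∈ cv (Ft p) → p.1 w ≠ w
  r : ∀ w ∈ Ft p, w ∈ cv (Ft q) → q.1 w ≠ w

/-- good families -/
structure Good (X : Set ME) : Prop where
  fin : X.Finite
  nice : ∀ p ∈ X, Nice p
  pr : ∀ p ∈ X, ∀ q ∈ X, p ≠ q → GPr p q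

/-- conjugate -/
def cj (h : Hm) (p : ME) : ME := (h * p.1 * h⁻¹, h '' p.2)

/-- the sets that define the labels -/
def T (A B : Set ℝ) : ℕ → Set ℝ
  | 0 => cv B
  | n + 1 => cv ((if Even n then A else B) ∩ T A B n)

/-- label at most `c` (no condition if `q` is not inside `p`) -/
def Lab (c : ℕ) (p q : ME) : Prop := Ins p q → T (Ft p) (Ft q) c = ∅

/-- `x` is a maximal element of `X` -/
def Mx (X : Set ME) (x : ME) : Prop := x ∈ X ∧ ∀ p ∈ X, ¬ Ins p x

/-- the copies of the elements inside `x` -/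
def nx (X : Set ME) (x : ME) (M : ℕ) : Set ME :=
  {r | ∃ p ∈ X, Ins x p ∧ ∃ m : ℤ, |m| ≤ M ∧ r = cj (x.1 ^ m) p}

/-- `W` is obtained from `Z` by a move -/
def Pre (W Z : Set ME) : Prop := ∃ x, Mx Z x ∧ ∃ M : ℕ, W ⊆ nx Z x M

/-- the group generated by a family -/
def cl (X : Set ME) : Subgroup Hm := Subgroup.closure {g | ∃ p ∈ X, g = p.1}

/-- balanced groups -/
def Bal (K : Subgroup Hm) : Prop := ∀ G : Subgroup Hm, G ≤ K → ∀ a b : ℝ, a < b →
  (∀ g ∈ G, g a = a) → (∀ g ∈ G, g b = b) → (∀ u, a < u → u < b → ∃ g ∈ G, g u ≠ u) →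
  ∀ h ∈ G, er h a = 0 → el h b = 0

/-! ### Modules -/

/-- FU (no hypotheses).  No PL needed.  Write `u ~ v` for `∀ t ∈ uIcc u v, g t ≠ t` (same orbital); it is
transitive (`uIcc u w ⊆ uIcc u v ∪ uIcc v w`), symmetric; `w ~ g^j w` if `g w ≠ w` (a fixed point `t` between
`w` and `g^j w` would satisfy `w < t → g^j w < t`).  If `w` is in the interval of the marker `s` then `w ~ s`
(the closed interval between `s` and `g s` has no fixed point).  So if `w ~ s ∈ m` and `w` is in the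
interval of `s' ∈ m` then `s = s'`.
`sub`: `s < g s`, `s ≤ w < g s`: `g w = w` gives `g s ≤ w`.  `png`: `(g^j) w` is moved; if it is in `D`, then in the interval
of the same marker `s`; `s ≤ w < g s`, `j ≥ 1`: `g^j w ≥ g w ≥ g s`; `j ≤ -1`: `g^j w ≤ g⁻¹ w < s`; similarly if
`g s < s`.  `hul`: `w ∈ D` with marker `s`: `b = max s (g s) > w` and `a = g⁻¹ s < s` (or `a = g (g s) < g s`) are moved, in the
same orbital and not in `D`.  `ne`: from `hul`.  `adR`: `w0 ∈ (u,v)`, `s ~ w0` a marker; `u < s`, `u < g s`; take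
`v' = min v (min s (g s))`.  `adL`: `u' = max u (max s (g s))`. -/
def SpecFU : Prop := ∀ (g : Hm) (D : Set ℝ), g ≠ 1 → Fund g D →
  D ⊆ sp g ∧
  (∀ w ∈ D, ∀ j : ℤ, j ≠ 0 → (g ^ j) w ∈ Ft (g, D)) ∧
  sp g ⊆ cv (Ft (g, D)) ∧
  (Ft (g, D)).Nonempty ∧
  (∀ u v, u < v → g u = u → (∀ w, u < w → w < v → g w ≠ w) →
    ∃ v', u < v' ∧ ∀ w, u < w → w < v' → w ∈ Ft (g, D)) ∧
  (∀ u v, u < v → g v = v → (∀ w, u < w → w < v → g w ≠ w) →
    ∃ u', u' < v ∧ ∀ w, u' < w → w < v → w ∈ Ft (g, D))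

/-- NI (hypothesis SpecFU).  Only `fin` remains.  The marker set `m` is finite: `s ∈ m` goes to the last fixed
point `u < s` of `g` (sup of the fixed points `≤ s`; `0` is fixed or `s > 0`...; use `IsPL`: everything outside
`(0,1)` is fixed), `er g u ≠ 0` (otherwise `g` is trivial on `[u,u+ε]`), the set of such `u` is finite (plb.fixR), and the
map is injective (two markers with the same last fixed point are in the same orbital).  `Ft` is
the union over `s ∈ m` of `{w | w ~ s, w < min s (g s)}` and `{w | w ~ s, max s (g s) ≤ w}`, which are OrdConnected.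
(Index by `Fin (2 n)` or `Fin (n + n)`, or a finite set; `Finite` of the set of pieces is enough to get `Fin n`.) -/
def SpecNI : Prop := ∀ (g : Hm) (D : Set ℝ), IsPL g → g ≠ 1 → Fund g D → Nice (g, D)

/-- CJ (no hypotheses).  Conjugation by an order isomorphism. -/
structure SpecCJ : Prop where
  ft : ∀ h p, Ft (cj h p) = h '' Ft p
  cv' : ∀ (h : Hm) (S : Set ℝ), cv (h '' S) = h '' cv S
  nice : ∀ h p, Nice p → Nice (cj h p)
  gpr : ∀ h p q, GPr p q → GPr (cj h p) (cj h q)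
  comp : ∀ h k p, cj h (cj k p) = cj (h * k) p
  one : ∀ p, cj 1 p = p
  ins : ∀ h p q, Ins (cj h p) (cj h q) ↔ Ins p q
  lab : ∀ h c p q, Lab c (cj h p) (cj h q) ↔ Lab c p q
  good : ∀ h X, Good X → Good (cj h '' X)
  /-- `x.1 ^ m` conjugates `x` to itself as an element of the group -/
  symm : ∀ p q, GPr p q → GPr q p

/-- CP (hypothesis SpecCJ).  Copies are good.  Conjugate by `x^{-m}`: the pair `(p, q')`, `q' = x^j q x^{-j}`,
`j = m' - m ≠ 0`.  `Ft q' = x^j (Ft q) ⊆ x^j D_x ⊆ Ft x` (png) is disjoint from `Ft p ⊆ D_x`.  `l`: `w ∈ Ft q' ⊆ Ft x`,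
`w ∈ cv (Ft p)`: `p w ≠ w` by `GPr x p`, field `r`.  `r`: `w ∈ Ft p`, `w ∈ cv (Ft q')`: `w' = x^{-j} w ∈ x^{-j} D_x ⊆ Ft x`,
`w' ∈ cv (Ft q)`, so `q w' ≠ w'` by `GPr x q`, field `r`. -/
def SpecCP : Prop := ∀ x p q : ME, Nice x → GPr x p → GPr x q → Ins x p → Ins x q →
  ∀ m m' : ℤ, m ≠ m' → GPr (cj (x.1 ^ m) p) (cj (x.1 ^ m') q)

/-- LB (hypothesis SpecCJ).  Labels.  `cv S` is OrdConnected and `cv` is monotone, `cv (cv S) = cv S`.
`anti`: `T (n+1) ⊆ T n` (`T n` is convex); so `mono`.  `zero`: `T 0 = cv (Ft q) ≠ ∅`.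
`lab1`: by CJ conjugate by `x^{-m}`: `p` and `q' = x^j q x^{-j}`, `j = m' - m ≠ 0`; `Ft q' ⊆ Ft x`; `Ins p q'`:
`Ft q' ⊆ D_p ⊆ sp p ⊆ cv (Ft p)`.  Claim `T (Ft p) (Ft q') n ⊆ T (Ft x) (Ft p) (n+1)`: `n = 0`:
`Ft q' ⊆ Ft x ∩ cv (Ft p)`; step: `n` even: `Ft p ∩ ..` in both; `n` odd: `Ft q' ⊆ Ft x`.
`lab2`: claim `x^{-j} T (Ft p) (Ft q') n ⊆ T (Ft x) (Ft q) n`: `n = 0`: equality; `n` even: `x^{-j} Ft p ⊆ x^{-j} D_x ⊆ Ft x`;
`n` odd: `x^{-j} Ft q' = Ft q`. -/
structure SpecLB : Prop where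
  anti : ∀ (A B : Set ℝ) (n : ℕ), T A B (n + 1) ⊆ T A B n
  mono : ∀ (c : ℕ) (p q : ME), Lab c p q → Lab (c + 1) p q
  zero : ∀ p q : ME, Nice q → Lab 0 p q → ¬ Ins p q
  lab1 : ∀ x p q : ME, Nice x → Nice p → Nice q → Ins x p → Ins x q → ∀ m m' : ℤ, m ≠ m' →
    ∀ c : ℕ, Lab (c + 1) x p → Lab c (cj (x.1 ^ m) p) (cj (x.1 ^ m') q)
  lab2 : ∀ x p q : ME, Nice x → Nice p → Nice q → Ins x p → Ins x q → ∀ m m' : ℤ, m ≠ m' →
    ∀ c : ℕ, Lab c x q → Lab c (cj (x.1 ^ m) p) (cj (x.1 ^ m') q)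

/-- LF (hypothesis SpecLB).  Labels are finite.  `A = ⋃_{i<n} C i`, `B = ⋃_j C' j` with OrdConnected pieces.
For even `k` with `T (k+2) ≠ ∅` the set `I_k = {i | C i ∩ T k ≠ ∅}` strictly contains `I_{k+2}`: among the finitely many `j`
with `C' j ∩ T (k+1) ≠ ∅` choose points `b_j` there and `j*` with `b* = b_{j*}` minimal.  `b* ∈ T (k+1) = cv (A ∩ T k)`: there is
`a ∈ A ∩ T k`, `a < b*`.  No `b' ∈ B ∩ T (k+1)` is `< a` (`b', b_{j'} ∈ C' j'`, `b' < a < b* ≤ b_{j'}` would give `a ∈ B`).  So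
`T (k+2) = cv (B ∩ T (k+1))` is right of `a`; `a ∈ C i`; if `w ∈ C i ∩ T (k+2)` there is `b' ∈ B ∩ T (k+1)`, `a < b' ≤ w`, so
`b' ∈ C i ⊆ A`: contradiction.  So `i ∈ I_k \ I_{k+2}`. -/
def SpecLF : Prop := ∀ (A B : Set ℝ), Disjoint A B →
  (∃ (n : ℕ) (C : Fin n → Set ℝ), (∀ i, (C i).OrdConnected) ∧ A = ⋃ i, C i) →
  (∃ (n : ℕ) (C : Fin n → Set ℝ), (∀ i, (C i).OrdConnected) ∧ B = ⋃ i, C i) →
  ∃ c : ℕ, T A B c = ∅

/-- OI (hypotheses SpecLF, SpecCP, SpecCJ).  The order `Ins` on good families.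
`irr`: `Ft p ⊆ D_p` is impossible (`Ft p` is disjoint from `D_p`, non-empty).
`asy`: if `Ins p q` and `Ins q p`: `Ft p ⊆ D_q ⊆ sp q ⊆ cv (Ft q)` and conversely, so `cv (Ft p) = cv (Ft q)` and all
`T (Ft p) (Ft q) n` are equal to it (induction), non-empty: contradiction to LF.
`trans`: `Ft r ⊆ D_q ⊆ sp q ⊆ cv (Ft q) ⊆ cv (sp p) ⊆ cv (Ft p)`; by `GPr p r`, `l`: `Ft r ⊆ sp p`; by `dis`: `Ft r ⊆ D_p`
(`sp p \ D_p = Ft p`).
`mx`: finite set, strict order.  `nxg`: `nx X x M` is finite, `Nice` by CJ, pairs: same `m`: CJ.gpr; different `m`: CP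
(`x ≠ p` for `p` inside `x` by `irr`, so `GPr x p`). -/
structure SpecOI : Prop where
  irr : ∀ p, Nice p → ¬ Ins p p
  asy : ∀ p q, Nice p → Nice q → Ins p q → ¬ Ins q p
  trans : ∀ X, Good X → ∀ p ∈ X, ∀ q ∈ X, ∀ r ∈ X, Ins p q → Ins q r → Ins p r
  mx : ∀ X, Good X → ∀ x ∈ X, ∃ p, Mx X p ∧ (p = x ∨ Ins p x)
  sub : ∀ X Y, Good X → Y ⊆ X → Good Y
  nxg : ∀ X, Good X → ∀ x ∈ X, ∀ M : ℕ, Good (nx X x M)

/-- CO (hypotheses SpecCJ, SpecLB, SpecLF, SpecOI).  Every play is finite.  See the head of the file; details: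
(0) `Pre (cj h '' W) (cj h '' Z)` iff `Pre W Z`; `Acc Pre` is invariant under conjugation.
(1) `Good Z`, `Z' ⊆ Z`, `Pre W Z'` imply `TransGen Pre W Z`: let `x` be maximal in `Z'`, `W ⊆ nx Z' x M`.  If `x` is maximal in `Z`
clear.  Otherwise take `p` maximal in `Z` above `x` (OI.mx); `Z'' = {x} ∪ {q ∈ Z' | Ins x q} ⊆ nx Z p 0` (OI.trans), `x` is
maximal in `Z''`, `W ⊆ nx Z'' x M`.  So `Acc Pre Z → Acc Pre Z'`, and `TransGen Pre W Z' → TransGen Pre W Z`.
(2) `Cross c Z Y` := `∀ z ∈ Z, ∀ y ∈ Y, Lab c z y ∧ Lab c y z`.  `S c` := for every finite index type `ι`, `F : ι → Set ME`, with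
`Good (⋃ i, F i)`, all `Acc Pre (F i)`, `Cross c (F i) (F j)` for `i ≠ j`: `Acc Pre (⋃ i, F i)`.
(3) `S 0`: a move at `x ∈ F i` only sees elements of `F i` (LB.zero).
(4) `S c → S (c+1)`.  `CG Z` := for all `Y`, `Acc Pre Y → Good (Z ∪ Y) → Cross (c+1) Z Y → Acc Pre (Z ∪ Y)`.  By induction on
`Acc (TransGen Pre) Z`: assume `CG W` for all `TransGen Pre W Z`.  `Like Z'` := `Acc Pre Z' ∧ ∀ W, TransGen Pre W Z' → CG W`; closed
under good subsets and conjugation.  CLAIM: for all `Y` with `Acc Pre Y`, all `n`, all `ι` with `n` elements, `F : ι → Set ME` with all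
`F i` Like, `Good (Y ∪ ⋃ F i)`, `Cross (c+1) (F i) Y`, `Cross c (F i) (F j)` (`i ≠ j`): `Acc Pre (Y ∪ ⋃ F i)`.  Induction on `Y`
(all `n`), then on `n`.  Let `x` be maximal in `Y ∪ ⋃ F i`, `W ⊆ nx .. x M`; by (1) it suffices to treat `W = nx .. x M`.
`x ∈ Y`: `nx = nx Y x M ∪ ⋃_{(i,m)} cj (x^m) '' {p ∈ F i | Ins x p}`, index type `ι × {m | |m| ≤ M}`; labels by LB.lab1, lab2, CJ.lab.
`x ∈ F i0`: `V = Y ∪ ⋃_{i ≠ i0} F i`, `Acc Pre V` by induction on `n`; `V^(m) = cj (x^m) '' {p ∈ V | Ins x p}`; `S c` gives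
`Acc Pre (⋃_m V^(m))`; `nx (F i0) x M` is Pre-below `F i0`, so `CG` gives the claim for the union.
(5) all good `X`: classes = singletons (`Pre W {p}` implies `W = ∅`; `Acc Pre ∅`), `c` = maximum of the finite labels (LF, mono). -/
def SpecCO : Prop := ∀ X : Set ME, Good X → Acc Pre X

/-- TR (no hypotheses; uses FINM.plb, pl2, ord).  Suppose the hulls intersect at `c`, not `Ins p q`, not `Ins q p`.  There is `b ∈ Ft q \ D_p`; if
`b ∈ cv (Ft p)` then `p b ≠ b` (l), so `b ∈ Ft p`: contradiction (dis).  So `b ∉ cv (Ft p)`; similarly `a ∈ Ft p`,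
`a ∉ cv (Ft q)`.  So `b` is right (or left) of all of `Ft p`; say right; then `a` is left of all of `Ft q`.  Let `q1 ∈ Ft q`,
`a2 ∈ Ft p` with `q1 ≤ c ≤ a2`, `q1 < a2`.  `e = inf (sp q)`, `f = sup (sp p)` (bounded: IsPL), `q e = e`, `p f = f`; `q` moves
`(e,e+ε)`, `p` moves `(f-ε,f)` (er q e ≠ 0: otherwise q is trivial there), so these are in `Ft q`, `Ft p` after
shrinking (adR, adL).  `p e ≠ e`: otherwise `a < e` and the points of `Ft q` near `e` are in `(a,a2) ⊆ cv (Ft p)`, so moved by `p` (l), so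
(adR) a right neighbourhood of `e` is in `Ft p`: contradiction (dis).  Similarly `q f ≠ f`.  `α` = last fixed point of `p` before `e`,
`β` = first fixed point of `q` after `f`.  `q` is trivial on `(-∞,e]`, so `er q α = 0`; `el q β ≠ 0`.  No common fixed point in
`(α,β)`: `p` moves `(α,e]`, `q` moves `[f,β)`; if `w ∈ (e,f)` is fixed by both let `w1 ≥ w` be the last point with
`[w,w1]` fixed by both; `w1 < f`; `er p w1 ≠ 0` or `er q w1 ≠ 0`.  If `er p w1 ≠ 0`: right neighbourhood of `w1` in `Ft p`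
(adR), it is in `cv (Ft q)` (between `e` and `b`), so moved by `q` (r), so in `Ft q` (adR): contradiction; similarly if
`er q w1 ≠ 0` (hull of `Ft p`: between `a` and `f`, l).  So `Bal` fails for the group generated by `p.1`, `q.1` on `(α,β)` with `h = q.1`. -/
def SpecTR : Prop := ∀ K : Subgroup Hm, PLs K → Bal K → ∀ p q : ME, p.1 ∈ K → q.1 ∈ K →
  Nice p → Nice q → GPr p q → Disjoint (cv (Ft p)) (cv (Ft q)) ∨ Ins p q ∨ Ins q p

/-- EG (no hypotheses).  Closure properties of the class `EA`, transported to subgroups of `Hm`.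
`sup`: `A` is normal in `A ⊔ B`, the quotient is an image of `B`.  `cyc`: similar, quotient cyclic.  `dir`: a finite
subset of the closure of `S` is in the closure of a finite subset of `S`.  `hom`: induction on `n`: `EA` of
`⋂_{i<k} ker f_i` from `⋂_{i<k+1} ker f_i`: the quotient embeds in the range of `f_k`. -/
structure SpecEG : Prop where
  bot : EA ↥(⊥ : Subgroup Hm)
  mono : ∀ A B : Subgroup Hm, A ≤ B → EA ↥B → EA ↥A
  sup : ∀ A B : Subgroup Hm, (∀ a ∈ A, ∀ b ∈ B, a * b = b * a) → EA ↥A → EA ↥B → EA ↥(A ⊔ B)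
  cyc : ∀ (N : Subgroup Hm) (x : Hm), (∀ g ∈ N, x * g * x⁻¹ ∈ N) → (∀ g ∈ N, x⁻¹ * g * x ∈ N) →
    EA ↥N → EA ↥(N ⊔ Subgroup.zpowers x)
  dir : ∀ S : Set Hm, (∀ S0 : Set Hm, S0.Finite → S0 ⊆ S → EA ↥(Subgroup.closure S0)) →
    EA ↥(Subgroup.closure S)
  hom : ∀ (K : Subgroup Hm) (n : ℕ) (f : Fin n → (↥K →* Hm)), (∀ i, EA ↥(f i).range) →
    (∀ k : ↥K, (∀ i, f i k = 1) → k = 1) → EA ↥K

/-- ES (hypotheses SpecTR, SpecOI, SpecCJ, SpecEG).  Induction on the number of elements of `X`.  `X = ∅`: bot.  Otherwise take `x`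
maximal (OI.mx).  `R = {p ∈ X | p ≠ x ∧ ¬ Ins x p}`; by TR (not `Ins p x`) the hull of each `p ∈ R` is disjoint from `cv (Ft x)`.
For `p` inside `x`: `sp p ⊆ cv (Ft p) ⊆ cv D_x ⊆ cv (Ft x)`.  So the elements of `R` commute with `x` and the `p` inside `x`
(disjoint supports).  `R` satisfies the hypothesis (a `y` maximal in `R` is maximal in `X`: `Ins p y` with
`p ∉ R` means `p = x` or `Ins x p`, so `Ins x y`; `nx R y M ⊆ nx X y M`, EG.mono).  `cl X ≤ cl F ⊔ cl R`, `F = {x} ∪ {p | Ins x p}`.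
`cl F ≤ N ⊔ zpowers x`, `N` = the closure of all `(cj (x^m) p).1`, `m ∈ ℤ`, `p ∈ X` inside `x`; `N` is normalised by `x`, `x⁻¹`; a finite subset
of the generators is in `nx X x M`: EG.dir, mono, cyc. -/
def SpecES : Prop := ∀ K : Subgroup Hm, PLs K → Bal K → ∀ X : Set ME, Good X →
  (∀ p ∈ X, p.1 ∈ K) → (∀ x, Mx X x → ∀ M : ℕ, EA ↥(cl (nx X x M))) → EA ↥(cl X)

/-- MN (hypotheses SpecCO, SpecES, SpecOI).  Induction on `Acc Pre X` (CO); `nx X x M` is good (OI.nxg) and in `K`. -/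
def SpecMN : Prop := ∀ K : Subgroup Hm, PLs K → Bal K → ∀ X : Set ME, Good X →
  (∀ p ∈ X, p.1 ∈ K) → EA ↥(cl X)

/-! ### Restriction to orbitals -/

/-- geometrically fast, with the marking `D` -/
def GFast (X : Set Hm) (D : Hm → Set ℝ) : Prop :=
  (∀ g ∈ X, Fund g (D g)) ∧ ∀ g ∈ X, ∀ h ∈ X, g ≠ h → Disjoint (sp g \ D g) (sp h \ D h)

/-- no foot of `h` is in a gap of `g` between two points of the same orbital of the group -/
def NoGap (X : Set Hm) (D : Hm → Set ℝ) : Prop :=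
  ∀ g ∈ X, ∀ h ∈ X, g ≠ h → ∀ p q r : ℝ, p < q → q < r → g p ≠ p → g r ≠ r →
    (∀ t, p ≤ t → t ≤ r → ∃ z ∈ X, z t ≠ t) → q ∈ sp h \ D h → g q ≠ q

/-- the restriction homomorphism -/
def Res (K : Subgroup Hm) (a b : ℝ) (f : ↥K →* Hm) : Prop :=
  (∀ k : ↥K, ∀ w, a ≤ w → w ≤ b → f k w = k.1 w) ∧ ∀ k : ↥K, ∀ w, w ≤ a ∨ b ≤ w → f k w = w

/-- RA (no hypotheses).  Glue `k` on `[a,b]` with the identity outside; PL by the one-sided formulas. -/
def SpecRA : Prop := ∀ (K : Subgroup Hm) (a b : ℝ), a < b → PLs K → (∀ g ∈ K, g a = a) →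
  (∀ g ∈ K, g b = b) → ∃ f : ↥K →* Hm, Res K a b f ∧ ∀ k, IsPL (f k)

/-- RB (no hypotheses).  `Bal K` implies `Bal` of the range of the restriction: `G ≤ range f` with orbital `(α,β)`:
`(α,β) ⊆ (a,b)` since elements of `G` are trivial outside; `G' = {k ∈ K | f k ∈ G}` (as a subgroup of `Hm`) has the same orbital; `er`, `el` of
`k` and `f k` at `α`, `β` agree (same functions near there, plb.erU). -/
def SpecRB : Prop := ∀ (K : Subgroup Hm) (a b : ℝ), a < b → PLs K → (∀ g ∈ K, g a = a) →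
  (∀ g ∈ K, g b = b) → Bal K → ∀ f : ↥K →* Hm, Res K a b f → (∀ k, IsPL (f k)) → Bal f.range

/-- RC (hypotheses SpecMN, SpecNI, SpecRB).  `K = closure X0`, `Y = {(f x, D x ∩ Ioo a b) | x ∈ X0, f x ≠ 1}` is a good family: `Fund` with
the markers in `(a,b)` (an orbital of `x` meeting `(a,b)` is in `(a,b)`); `Ft = (sp x \ D x) ∩ Ioo a b`; `GPr`: `dis` from `GFast` (if `f x = f y` for
`x ≠ y` then the feet coincide, non-empty: contradiction); `l`: `w ∈ Ft q`, `a1 ≤ w ≤ a2`, `a1, a2 ∈ Ft p`, so `a1 < w < a2`, NoGap with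
`[a1,a2] ⊆ (a,b)`: each `t ∈ (a,b)` is moved by some `z ∈ X0` (otherwise by no element of `K`).  `cl Y = range f`. -/
def SpecRC : Prop := ∀ (X0 : Set Hm) (D : Hm → Set ℝ) (a b : ℝ), X0.Finite → a < b →
  (∀ g ∈ X0, IsPL g) → Bal (Subgroup.closure X0) → GFast X0 D → NoGap X0 D →
  (∀ g ∈ Subgroup.closure X0, g a = a) → (∀ g ∈ Subgroup.closure X0, g b = b) →
  (∀ u, a < u → u < b → ∃ g ∈ Subgroup.closure X0, g u ≠ u) →
  ∀ f : ↥(Subgroup.closure X0) →* Hm, Res (Subgroup.closure X0) a b f → (∀ k, IsPL (f k)) →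
  EA ↥f.range

/-- RD (hypotheses SpecRA, SpecRC, SpecEG).  First for a finite subset `X0` (Bal, GFast, NoGap are inherited): the set of orbitals `(a,b)`
of `K = closure X0` is finite: `a` is in the finite set of `u` with `x u = u ∧ er x u ≠ 0`, `x ∈ X0` (if all `er x a = 0`, `x ∈ X0`, then a
right neighbourhood of `a` is fixed by all of `X0`), `b` is determined by `a`.  Every moved point is in an orbital (ord.orbital).  EG.hom with the
restrictions (RA, RC).  Then EG.dir. -/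
def SpecRD : Prop := ∀ (X : Set Hm) (D : Hm → Set ℝ), (∀ g ∈ X, IsPL g) →
  Bal (Subgroup.closure X) → GFast X D → NoGap X D → EA ↥(Subgroup.closure X)

/-! ### Special cases -/

/-- NG (hypothesis SpecFU).  Suppose `x q = q` (`x = g` in NoGap, `y = h`), `q ∈ sp y \ D y`.  In both cases there are points just left of or right of ...:
PAIR: `[q1,q2]` = the component of `q` in `Fix x` (`p < q1 ≤ q ≤ q2 < r`), every point of it is moved by `y` (the only other element).
`x` moves left neighbourhoods of `q1` and right neighbourhoods of `q2` arbitrarily near (PL: `el x q1 ≠ 0`, `er x q2 ≠ 0`), these are in the feet of `x` (FU: adL,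
adR).  The marker `s` of `y` in the orbital of `q`, hence of `q1, q2`: `q < min s (y s)` or `q ≥ max s (y s)`.  First case: all points of the
orbital left of `q` are feet of `y`, in particular points just left of `q1`: contradiction to disjointness.  Second case: right.
GAPLESS: the same with `q1 = q = q2` (`q` is an isolated fixed point of `x`). -/
structure SpecNG : Prop where
  pair : ∀ (f g : Hm) (D : Hm → Set ℝ), IsPL f → IsPL g → GFast {f, g} D → NoGap {f, g} D
  gapless : ∀ (X : Set Hm) (D : Hm → Set ℝ), (∀ g ∈ X, IsPL g) → GFast X D →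
    (∀ g ∈ X, ∀ p r : ℝ, g p ≠ p → g r ≠ r → {t | p ≤ t ∧ t ≤ r ∧ g t = t}.Finite) → NoGap X D

/-- PW (no hypotheses).  `E g = frontier (sp g)` = the finite set of ends of orbitals of `g`.  `η > 0` with `2η <` distance of
`E g` and `E h` for `g ≠ h ∈ X`.  For an orbital `(u,v)` of `g` with `g` moving right (`v - u > 2η` wlog, shrink `η`) take the marker `s = u + η`, for
`n` large `g^n s ≥ v - η` (ord.itR); if `g` moves left: `s = v - η`, `g^n s ≤ u + η`.  So the feet of `g^n` are within `η` of `E g`.  Finitely many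
orbitals and elements: one `N`.  (`g^n = h^n`, `g ≠ h` is impossible unless ... both have the same support, so `E g = E h`
disjoint, so both supports are empty.)  Orbitals of `g^n` = orbitals of `g` (ord.zpowf, zpowi). -/
def SpecPW : Prop := ∀ X : Set Hm, X.Finite → (∀ g ∈ X, IsPL g) →
  (∀ g ∈ X, ∀ h ∈ X, g ≠ h → Disjoint (frontier (sp g)) (frontier (sp h))) →
  ∃ N : ℕ, ∀ n ≥ N, ∃ D : Hm → Set ℝ, GFast ((fun g : Hm => g ^ n) '' X) D

end FPT.GF
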